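import Mathlib

/-!
MP_4929df_co, helper91: set based connectivity (everything in this project uses these definitions).
`Cn G X`    : the set `X` is nonempty and `G[X]` is connected,
`Nb G K`    : the neighbourhood of the set `K` (outside `K`),
`Comp G U K`: `K` is a component of `G[U]`,
`C3 G`      : `G` is 3-connected,
`Bond G X`  : `G[X]` and `G[V - X]` are connected,
`sm h X`    : the sum of `h` over `X`,
`PP G F`    : all members of the family `F` have total sum zero, and for every bond `X` either all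
              members of `F` have sum zero on `X` or none,
`Lk F x y`  : two members of `F` differ exactly at `x, y`, by the same nonzero amount,
`Sp G h x y`: every bond that separates `x` and `y` has nonzero `h`-sum.
-/

set_option autoImplicit false

namespace Pool.MP_4929df_co.H91

variable {V : Type*}

/-- `X` is nonempty and induces a connected subgraph. -/
def Cn (G : SimpleGraph V) (X : Set V) : Prop :=
  X.Nonempty ∧ ∀ A : Set V, A ⊆ X → A.Nonempty →
    (∀ a ∈ A, ∀ b ∈ X, G.Adj a b → b ∈ A) → A = X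

/-- the neighbourhood of `K` outside `K` -/
def Nb (G : SimpleGraph V) (K : Set V) : Set V := {v | v ∉ K ∧ ∃ a ∈ K, G.Adj a v}

/-- `K` is a component of `G[U]` -/
def Comp (G : SimpleGraph V) (U K : Set V) : Prop :=
  K ⊆ U ∧ Cn G K ∧ ∀ a ∈ K, ∀ b ∈ U, G.Adj a b → b ∈ K

/-- 3-connected graphs -/
def C3 (G : SimpleGraph V) : Prop :=
  4 ≤ Nat.card V ∧ ∀ S : Set V, S.ncard ≤ 2 → Cn G Sᶜ

/-- `X` is one side of a bond -/
def Bond (G : SimpleGraph V) (X : Set V) : Prop := Cn G X ∧ Cn G Xᶜ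

/-- sum over a set -/
noncomputable def sm [Fintype V] {A : Type*} [AddCommGroup A] (h : V → A) (X : Set V) : A :=
  ∑ v, X.indicator h v

/-- the property of the family `F` -/
def PP [Fintype V] {A : Type*} [AddCommGroup A] (G : SimpleGraph V) (F : Set (V → A)) : Prop :=
  (∀ f ∈ F, sm f Set.univ = 0) ∧
    ∀ X : Set V, Bond G X → (∀ f ∈ F, sm f X = 0) ∨ (∀ f ∈ F, sm f X ≠ 0)

/-- `x` and `y` are linked by `F` -/
def Lk {A : Type*} [AddCommGroup A] (F : Set (V → A)) (x y : V) : Prop :=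
  x ≠ y ∧ ∃ f ∈ F, ∃ g ∈ F, ∃ α : A, α ≠ 0 ∧ (∀ v, v ≠ x → v ≠ y → f v = g v) ∧
    f x = g x + α ∧ f y = g y + α

/-- every bond separating `x` and `y` has nonzero sum -/
def Sp [Fintype V] {A : Type*} [AddCommGroup A] (G : SimpleGraph V) (h : V → A) (x y : V) : Prop :=
  ∀ X : Set V, Bond G X → ((x ∈ X ∧ y ∉ X) ∨ (y ∈ X ∧ x ∉ X)) → sm h X ≠ 0

/-- the edge `x y` is contractible: `G` has no 3-cut containing `x` and `y` -/
def Ctr (G : SimpleGraph V) (x y : V) : Prop :=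
  G.Adj x y ∧ ∀ z, z ≠ x → z ≠ y → Cn G ({x, y, z} : Set V)ᶜ

/-- cycles as lists of vertices -/
def Cyc (G : SimpleGraph V) (l : List V) : Prop :=
  3 ≤ l.length ∧ l.Nodup ∧ l.IsChain G.Adj ∧ ∀ a ∈ l.getLast?, ∀ b ∈ l.head?, G.Adj a b

/-- cyclic partitions of the vertex set into `n` connected bags -/
structure Rg (G : SimpleGraph V) (n : ℕ) (B : ℕ → Set V) : Prop where
  conn : ∀ i < n, Cn G (B i)
  disj : ∀ i < n, ∀ j < n, i ≠ j → Disjoint (B i) (B j)
  cover : ∀ v, ∃ i < n, v ∈ B i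
  adj : ∀ i, i + 1 < n → ∃ a ∈ B i, ∃ b ∈ B (i + 1), G.Adj a b
  close : ∃ a ∈ B (n - 1), ∃ b ∈ B 0, G.Adj a b

/-- three connected hubs and a set `J` of vertices, each adjacent to the three hubs -/
structure K3 (G : SimpleGraph V) (J P Q R : Set V) : Prop where
  cP : Cn G P
  cQ : Cn G Q
  cR : Cn G R
  PQ : Disjoint P Q
  PR : Disjoint P R
  QR : Disjoint Q R
  JP : Disjoint J P
  JQ : Disjoint J Q
  JR : Disjoint J R
  cover : ∀ v, v ∈ J ∨ v ∈ P ∨ v ∈ Q ∨ v ∈ R
  adjP : ∀ a ∈ J, ∃ p ∈ P, G.Adj a p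
  adjQ : ∀ a ∈ J, ∃ p ∈ Q, G.Adj a p
  adjR : ∀ a ∈ J, ∃ p ∈ R, G.Adj a p

/-- `k` components of `G - S` with neighbourhood exactly `S`, `|S| ≥ 3` -/
structure Star (G : SimpleGraph V) (S : Set V) (k : ℕ) (T : Fin k → Set V) : Prop where
  three : 3 ≤ S.ncard
  conn : ∀ i, Cn G (T i)
  disj : ∀ i j, i ≠ j → Disjoint (T i) (T j)
  nb : ∀ i, Nb G (T i) = S

/-! ### connected sets -/

theorem Cn.nonempty {G : SimpleGraph V} {X : Set V} (h : Cn G X) : X.Nonempty := h.1

theorem cn_singleton (G : SimpleGraph V) (v : V) : Cn G {v} := by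
  refine ⟨⟨v, rfl⟩, fun A hA hne _ => ?_⟩
  exact (Set.Nonempty.subset_singleton_iff hne).1 hA

/-- a proper nonempty subset of a connected set has an edge to the rest -/
theorem Cn.exists_adj {G : SimpleGraph V} {X A : Set V} (h : Cn G X) (hA : A ⊆ X)
    (hne : A.Nonempty) (hneq : A ≠ X) : ∃ a ∈ A, ∃ b ∈ X, b ∉ A ∧ G.Adj a b := by
  by_contra hcon
  push Not at hcon
  exact hneq (h.2 A hA hne fun a ha b hb hab => by
    by_contra hbA
    exact hcon a ha b hb hbA hab)

/-- a closed set that meets a connected set contains it -/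
theorem Cn.subset_of_closed {G : SimpleGraph V} {X A : Set V} (h : Cn G X)
    (hne : (X ∩ A).Nonempty) (hcl : ∀ a ∈ X, a ∈ A → ∀ b ∈ X, G.Adj a b → b ∈ A) : X ⊆ A := by
  have := h.2 (X ∩ A) Set.inter_subset_left hne (fun a ha b hb hab =>
    ⟨hb, hcl a ha.1 ha.2 b hb hab⟩)
  intro x hx
  rw [← this] at hx
  exact hx.2

/-- criterion: every set closed in `X` that contains a fixed base point is everything -/
theorem cn_of_base {G : SimpleGraph V} {X : Set V} {x : V} (hx : x ∈ X)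
    (h : ∀ A : Set V, A ⊆ X → x ∈ A → (∀ a ∈ A, ∀ b ∈ X, G.Adj a b → b ∈ A) → A = X) :
    Cn G X := by
  refine ⟨⟨x, hx⟩, fun A hA hne hcl => ?_⟩
  by_cases hxA : x ∈ A
  · exact h A hA hxA hcl
  · exfalso
    have h2 : X \ A = X := by
      refine h (X \ A) Set.sdiff_subset ⟨hx, hxA⟩ ?_
      rintro a ⟨haX, haA⟩ b hb hab
      refine ⟨hb, fun hbA => haA ?_⟩
      exact hcl b hbA a haX hab.symm
    obtain ⟨a, ha⟩ := hne
    have : a ∈ X \ A := by rw [h2]; exact hA ha
    exact this.2 ha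

theorem Cn.union {G : SimpleGraph V} {X Y : Set V} (hX : Cn G X) (hY : Cn G Y)
    (hne : (X ∩ Y).Nonempty) : Cn G (X ∪ Y) := by
  obtain ⟨z, hzX, hzY⟩ := hne
  refine cn_of_base (x := z) (Or.inl hzX) fun A hA hzA hcl => ?_
  have h1 : X ⊆ A := hX.subset_of_closed ⟨z, hzX, hzA⟩
    (fun a _ haA b hb hab => hcl a haA b (Or.inl hb) hab)
  have h2 : Y ⊆ A := hY.subset_of_closed ⟨z, hzY, hzA⟩
    (fun a _ haA b hb hab => hcl a haA b (Or.inr hb) hab)
  exact Set.Subset.antisymm hA (Set.union_subset h1 h2)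

theorem Cn.union_adj {G : SimpleGraph V} {X Y : Set V} (hX : Cn G X) (hY : Cn G Y)
    {a b : V} (ha : a ∈ X) (hb : b ∈ Y) (hab : G.Adj a b) : Cn G (X ∪ Y) := by
  refine cn_of_base (x := a) (Or.inl ha) fun A hA haA hcl => ?_
  have h1 : X ⊆ A := hX.subset_of_closed ⟨a, ha, haA⟩
    (fun a _ haA b hb hab => hcl a haA b (Or.inl hb) hab)
  have h2 : Y ⊆ A := hY.subset_of_closed ⟨b, hb, hcl a haA b (Or.inr hb) hab⟩
    (fun a _ haA b hb hab => hcl a haA b (Or.inr hb) hab)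
  exact Set.Subset.antisymm hA (Set.union_subset h1 h2)

theorem cn_pair {G : SimpleGraph V} {a b : V} (hab : G.Adj a b) : Cn G {a, b} := by
  have := (cn_singleton G a).union_adj (cn_singleton G b) rfl rfl hab
  rwa [Set.singleton_union] at this

/-- add to a connected set many connected sets, each meeting it or adjacent to it -/
theorem Cn.union_sUnion {G : SimpleGraph V} {X : Set V} (hX : Cn G X) {𝒴 : Set (Set V)}
    (h : ∀ Y ∈ 𝒴, Cn G Y ∧ ((X ∩ Y).Nonempty ∨ ∃ a ∈ X, ∃ b ∈ Y, G.Adj a b)) :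
    Cn G (X ∪ ⋃₀ 𝒴) := by
  obtain ⟨z, hz⟩ := hX.1
  refine cn_of_base (x := z) (Or.inl hz) fun A hA hzA hcl => ?_
  have h1 : X ⊆ A := hX.subset_of_closed ⟨z, hz, hzA⟩
    (fun a _ haA b hb hab => hcl a haA b (Or.inl hb) hab)
  refine Set.Subset.antisymm hA (Set.union_subset h1 (Set.sUnion_subset fun Y hY => ?_))
  obtain ⟨hYc, hY2⟩ := h Y hY
  refine hYc.subset_of_closed ?_
    (fun a _ haA b hb hab => hcl a haA b (Or.inr ⟨Y, hY, hb⟩) hab)
  rcases hY2 with ⟨c, hc1, hc2⟩ | ⟨a, ha, b, hb, hab⟩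
  · exact ⟨c, hc2, h1 hc1⟩
  · exact ⟨b, hb, hcl a (h1 ha) b (Or.inr ⟨Y, hY, hb⟩) hab⟩

theorem Cn.union_iUnion {G : SimpleGraph V} {ι : Type*} {X : Set V} (hX : Cn G X) {Y : ι → Set V}
    (h : ∀ i, Cn G (Y i) ∧ ((X ∩ Y i).Nonempty ∨ ∃ a ∈ X, ∃ b ∈ Y i, G.Adj a b)) :
    Cn G (X ∪ ⋃ i, Y i) := by
  have := hX.union_sUnion (𝒴 := Set.range Y) (by rintro _ ⟨i, rfl⟩; exact h i)
  rwa [Set.sUnion_range] at this

theorem Cn.insert {G : SimpleGraph V} {X : Set V} (hX : Cn G X) {a b : V} (ha : a ∈ X)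
    (hab : G.Adj a b) : Cn G (insert b X) := by
  have := hX.union_adj (cn_singleton G b) ha rfl hab
  rwa [Set.union_singleton] at this

theorem Cn.mono {G G' : SimpleGraph V} (hG : ∀ a b, G.Adj a b → G'.Adj a b) {X : Set V}
    (hX : Cn G X) : Cn G' X :=
  ⟨hX.1, fun A hA hne hcl => hX.2 A hA hne fun a ha b hb hab => hcl a ha b hb (hG a b hab)⟩

/-- the connected component of `u` in `G[U]` -/
theorem exists_comp (G : SimpleGraph V) {U : Set V} {u : V} (hu : u ∈ U) :
    ∃ K, Comp G U K ∧ u ∈ K := by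
  refine ⟨⋃₀ {Q | Cn G Q ∧ Q ⊆ U ∧ u ∈ Q}, ⟨?_, ?_, ?_⟩, ?_⟩
  · exact Set.sUnion_subset fun Q hQ => hQ.2.1
  · refine cn_of_base (x := u) ⟨{u}, ⟨cn_singleton G u, by simpa using hu, rfl⟩, rfl⟩ ?_
    intro A hA huA hcl
    refine Set.Subset.antisymm hA (Set.sUnion_subset fun Q hQ => ?_)
    exact hQ.1.subset_of_closed ⟨u, hQ.2.2, huA⟩
      (fun a _ haA b hb hab => hcl a haA b ⟨Q, hQ, hb⟩ hab)
  · rintro a ⟨Q, ⟨hQc, hQU, huQ⟩, haQ⟩ b hb hab
    exact ⟨insert b Q, ⟨hQc.insert haQ hab, Set.insert_subset hb hQU, Set.mem_insert_of_mem _ huQ⟩,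
      Set.mem_insert _ _⟩
  · exact ⟨{u}, ⟨cn_singleton G u, by simpa using hu, rfl⟩, rfl⟩

theorem Comp.subset_of_inter {G : SimpleGraph V} {U K Q : Set V} (hK : Comp G U K)
    (hQ : Cn G Q) (hQU : Q ⊆ U) (hne : (Q ∩ K).Nonempty) : Q ⊆ K :=
  hQ.subset_of_closed hne fun a _ haK b hb hab => hK.2.2 a haK b (hQU hb) hab

theorem Comp.eq_of_inter {G : SimpleGraph V} {U K L : Set V} (hK : Comp G U K)
    (hL : Comp G U L) (hne : (K ∩ L).Nonempty) : K = L := by
  refine Set.Subset.antisymm (hL.subset_of_inter hK.2.1 hK.1 hne) ?_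
  rw [Set.inter_comm] at hne
  exact hK.subset_of_inter hL.2.1 hL.1 hne

theorem Comp.disjoint {G : SimpleGraph V} {U K L : Set V} (hK : Comp G U K)
    (hL : Comp G U L) (hne : K ≠ L) : Disjoint K L := by
  rw [Set.disjoint_iff_inter_eq_empty]
  by_contra h
  exact hne (hK.eq_of_inter hL (Set.nonempty_iff_ne_empty.2 h))

/-- the neighbourhood of a component of `G[U]` lies outside `U` -/
theorem Comp.nb_subset {G : SimpleGraph V} {U K : Set V} (hK : Comp G U K) : Nb G K ⊆ Uᶜ := by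
  rintro v ⟨hv, a, ha, hav⟩ hvU
  exact hv (hK.2.2 a ha v hvU hav)

/-- a connected set with its neighbourhood outside `U` is a component -/
theorem comp_of_nb {G : SimpleGraph V} {U K : Set V} (hK : Cn G K) (hKU : K ⊆ U)
    (h : Nb G K ⊆ Uᶜ) : Comp G U K := by
  refine ⟨hKU, hK, fun a ha b hb hab => ?_⟩
  by_contra hbK
  exact h ⟨hbK, a, ha, hab⟩ hb

theorem mem_nb {G : SimpleGraph V} {K : Set V} {v : V} :
    v ∈ Nb G K ↔ v ∉ K ∧ ∃ a ∈ K, G.Adj a v := Iff.rfl

theorem Bond.compl {G : SimpleGraph V} {X : Set V} (h : Bond G X) : Bond G Xᶜ :=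
  ⟨h.2, by rw [compl_compl]; exact h.1⟩

/-! ### 3-connected graphs -/

/-- in a 3-connected graph a set that is not dominated by itself has at least three neighbours -/
theorem C3.three_le_nb [Finite V] {G : SimpleGraph V} (hG : C3 G) {K : Set V} (hK : K.Nonempty)
    (hne : ∃ v, v ∉ K ∧ v ∉ Nb G K) : 3 ≤ (Nb G K).ncard := by
  by_contra hlt
  have hc := hG.2 (Nb G K) (by omega)
  have hKs : K ⊆ (Nb G K)ᶜ := fun v hv hv2 => hv2.1 hv
  have := hc.2 K hKs hK (fun a ha b hb hab => by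
    by_contra hbK
    exact hb ⟨hbK, a, ha, hab⟩)
  obtain ⟨v, hv1, hv2⟩ := hne
  have hv3 : v ∈ (Nb G K)ᶜ := hv2
  rw [← this] at hv3
  exact hv1 hv3

theorem C3.bond_singleton [Finite V] {G : SimpleGraph V} (hG : C3 G) (v : V) : Bond G {v} :=
  ⟨cn_singleton G v, hG.2 {v} (by simp)⟩

theorem C3.univ {G : SimpleGraph V} (hG : C3 G) : Cn G Set.univ := by
  have := hG.2 ∅ (by simp)
  rwa [Set.compl_empty] at this

/-! ### sums -/

section sums

variable [Fintype V] {A : Type*} [AddCommGroup A]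

theorem sm_empty (h : V → A) : sm h ∅ = 0 := by simp [sm]

theorem sm_univ (h : V → A) : sm h Set.univ = ∑ v, h v := by simp [sm]

theorem sm_singleton (h : V → A) (v : V) : sm h {v} = h v := by
  classical
  unfold sm
  rw [Finset.sum_eq_single v]
  · simp
  · intro b _ hb
    simp [hb]
  · simp

theorem sm_union (h : V → A) {X Y : Set V} (hd : Disjoint X Y) :
    sm h (X ∪ Y) = sm h X + sm h Y := by
  unfold sm
  rw [Set.indicator_union_of_disjoint hd, ← Finset.sum_add_distrib]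

theorem sm_compl (h : V → A) (h0 : sm h Set.univ = 0) (X : Set V) : sm h Xᶜ = - sm h X := by
  have := sm_union h (X := X) (Y := Xᶜ) disjoint_compl_right
  rw [Set.union_compl_self, h0] at this
  exact (neg_eq_of_add_eq_zero_right this.symm).symm

theorem sm_insert (h : V → A) {X : Set V} {v : V} (hv : v ∉ X) :
    sm h (insert v X) = h v + sm h X := by
  rw [Set.insert_eq, sm_union h (by simpa using hv), sm_singleton]

theorem sm_congr {f g : V → A} {X : Set V} (h : ∀ v ∈ X, f v = g v) : sm f X = sm g X := by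
  unfold sm
  refine Finset.sum_congr rfl fun v _ => ?_
  by_cases hv : v ∈ X
  · simp [hv, h v hv]
  · simp [hv]

/-- a bond that separates a linked pair has nonzero sum, for all members of the family -/
theorem Lk.sep {G : SimpleGraph V} {F : Set (V → A)} (hF : PP G F) {x y : V} (hL : Lk F x y) :
    ∀ h ∈ F, Sp G h x y := by
  obtain ⟨hxy, f, hf, g, hg, α, hα, hfg, hx, hy⟩ := hL
  have key : ∀ X : Set V, ((x ∈ X ∧ y ∉ X) ∨ (y ∈ X ∧ x ∉ X)) → sm f X = sm g X + α := by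
    intro X hX
    rcases hX with ⟨h1, h2⟩ | ⟨h1, h2⟩
    · have e : X = insert x (X \ {x}) := by simp [Set.insert_eq_of_mem h1]
      rw [e, sm_insert f (by simp), sm_insert g (by simp), hx]
      have : sm f (X \ {x}) = sm g (X \ {x}) := sm_congr fun v hv =>
        hfg v (by simpa using hv.2) (fun h => h2 (h ▸ hv.1))
      rw [this]; abel
    · have e : X = insert y (X \ {y}) := by simp [Set.insert_eq_of_mem h1]
      rw [e, sm_insert f (by simp), sm_insert g (by simp), hy]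
      have : sm f (X \ {y}) = sm g (X \ {y}) := sm_congr fun v hv =>
        hfg v (fun h => h2 (h ▸ hv.1)) (by simpa using hv.2)
      rw [this]; abel
  intro h hh X hX hs
  rcases hF.2 X hX with h0 | h0
  · exfalso
    have e := key X hs
    rw [h0 f hf, h0 g hg, zero_add] at e
    exact hα e.symm
  · exact h0 h hh

theorem Sp.symm {G : SimpleGraph V} {h : V → A} {x y : V} (hs : Sp G h x y) : Sp G h y x :=
  fun X hX hxy => hs X hX hxy.symm

end sums

end Pool.MP_4929df_co.H91
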