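import Pool.Agent.W_4929df_h91.Basic

/-! Bridge between the set based notions and Mathlib's graph notions. -/

set_option autoImplicit false

namespace Pool.MP_4929df_co.H91

variable {V : Type*}

/-- `Cn G X` iff the induced subgraph is connected in the sense of Mathlib.
(`→`: the set of vertices reachable from a base vertex in `G.induce X` is closed. `←`: a closed set
containing one end of a walk contains the other end, induction on walks.) -/
theorem cn_iff {G : SimpleGraph V} {X : Set V} : Cn G X ↔ (G.induce X).Connected := by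
  constructor
  · rintro ⟨⟨x₀, hx₀⟩, hX⟩
    have hne : Nonempty X := ⟨⟨x₀, hx₀⟩⟩
    refine ⟨fun x y => ?_⟩
    have hA := hX {v | ∃ h : v ∈ X, (G.induce X).Reachable x ⟨v, h⟩} (fun v hv => hv.1)
      ⟨x, x.2, SimpleGraph.Reachable.refl _⟩ (by
        rintro a ⟨ha, hxa⟩ b hb hab
        refine ⟨hb, hxa.trans (SimpleGraph.Adj.reachable ?_)⟩
        exact hab)
    have hy : (y : V) ∈ {v | ∃ h : v ∈ X, (G.induce X).Reachable x ⟨v, h⟩} := by
      rw [hA]; exact y.2
    exact hy.2
  · intro h
    obtain ⟨x₀⟩ := h.nonempty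
    refine ⟨⟨x₀, x₀.2⟩, fun A hA hne hcl => Set.Subset.antisymm hA fun b hb => ?_⟩
    obtain ⟨a, ha⟩ := hne
    obtain ⟨p⟩ := h.preconnected ⟨a, hA ha⟩ ⟨b, hb⟩
    have key : ∀ {u v : X}, (G.induce X).Walk u v → (u : V) ∈ A → (v : V) ∈ A := by
      intro u v p
      induction p with
      | nil => exact id
      | @cons a b c hab p ih => exact fun ha => ih (hcl a ha b b.2 hab)
    exact key p ha

/-- the 3-connected graphs of the final statement -/
theorem c3_iff {G : SimpleGraph V} :
    C3 G ↔ 4 ≤ Nat.card V ∧ ∀ S : Set V, S.ncard ≤ 2 → (G.induce Sᶜ).Connected := by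
  simp only [C3, cn_iff]

/-- reachability inside the spanning subgraph with edge set `H`: if `X` is connected, all edges of
`G` inside `X` belong to `H`, then any two vertices of `X` are reachable in `fromEdgeSet H` -/
theorem Cn.reachable {G : SimpleGraph V} {X : Set V} (hX : Cn G X) {H : Set (Sym2 V)}
    (hH : ∀ a ∈ X, ∀ b ∈ X, G.Adj a b → s(a, b) ∈ H) {a b : V} (ha : a ∈ X) (hb : b ∈ X) :
    (SimpleGraph.fromEdgeSet H).Reachable a b := by
  have hA := hX.2 {v | v ∈ X ∧ (SimpleGraph.fromEdgeSet H).Reachable a v} (fun v hv => hv.1)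
    ⟨a, ha, SimpleGraph.Reachable.refl _⟩ (by
      rintro c ⟨hc, hac⟩ d hd hcd
      refine ⟨hd, hac.trans (SimpleGraph.Adj.reachable ?_)⟩
      rw [SimpleGraph.fromEdgeSet_adj]
      exact ⟨hH c hc d hd hcd, hcd.ne⟩)
  have hb' : b ∈ {v | v ∈ X ∧ (SimpleGraph.fromEdgeSet H).Reachable a v} := by rw [hA]; exact hb
  exact hb'.2

/-- if no edge of `H` leaves `X`, then nothing outside `X` is reachable from `X` -/
theorem not_reachable_of_closed {H : Set (Sym2 V)} {X : Set V}
    (hH : ∀ a b, s(a, b) ∈ H → a ∈ X → b ∈ X) {a b : V} (ha : a ∈ X) (hb : b ∉ X) :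
    ¬ (SimpleGraph.fromEdgeSet H).Reachable a b := by
  rintro ⟨p⟩
  have key : ∀ {u v : V}, (SimpleGraph.fromEdgeSet H).Walk u v → u ∈ X → v ∈ X := by
    intro u v p
    induction p with
    | nil => exact id
    | @cons a b c hab p ih =>
      rw [SimpleGraph.fromEdgeSet_adj] at hab
      exact fun ha => ih (hH a b hab.1 ha)
  exact hb (key p ha)

end Pool.MP_4929df_co.H91
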