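import Pool.Agent.W_4929df_h91.Basic

/-! Step 1 (proofs row 432): contraction of a contractible edge. -/

set_option autoImplicit false

namespace Pool.MP_4929df_co.H91

section contraction

variable {V : Type}

open Classical in
/-- the contraction map -/
noncomputable def ctrMap {x y : V} (hne : x ≠ y) (v : V) : {v : V // v ≠ y} :=
  if h : v = y then ⟨x, hne⟩ else ⟨v, h⟩

theorem ctrMap_y {x y : V} (hne : x ≠ y) : ctrMap hne y = ⟨x, hne⟩ := dif_pos rfl

theorem ctrMap_of_ne {x y : V} (hne : x ≠ y) {v : V} (h : v ≠ y) : ctrMap hne v = ⟨v, h⟩ :=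
  dif_neg h

theorem ctrMap_surj {x y : V} (hne : x ≠ y) (v : {v : V // v ≠ y}) : ctrMap hne v.1 = v :=
  ctrMap_of_ne hne v.2

theorem ctrMap_eq {x y : V} (hne : x ≠ y) {u v : V} (h : ctrMap hne u = ctrMap hne v) :
    u = v ∨ (u = x ∧ v = y) ∨ (u = y ∧ v = x) := by
  by_cases hu : u = y
  · by_cases hv : v = y
    · exact Or.inl (hu.trans hv.symm)
    · rw [hu, ctrMap_y, ctrMap_of_ne hne hv] at h
      exact Or.inr (Or.inr ⟨hu, (congrArg Subtype.val h).symm⟩)
  · by_cases hv : v = y
    · rw [hv, ctrMap_y, ctrMap_of_ne hne hu] at h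
      exact Or.inr (Or.inl ⟨congrArg Subtype.val h, hv⟩)
    · rw [ctrMap_of_ne hne hu, ctrMap_of_ne hne hv] at h
      exact Or.inl (congrArg Subtype.val h)

/-- the contraction -/
def ctrGraph {x y : V} (hne : x ≠ y) (G : SimpleGraph V) : SimpleGraph {v : V // v ≠ y} where
  Adj a b := a ≠ b ∧ ∃ u v, ctrMap hne u = a ∧ ctrMap hne v = b ∧ G.Adj u v
  symm := ⟨fun _ _ ⟨h, u, v, hu, hv, huv⟩ => ⟨h.symm, v, u, hv, hu, huv.symm⟩⟩
  loopless := ⟨fun _ h => h.1 rfl⟩

theorem ctr_cn {x y : V} (hne : x ≠ y) {G : SimpleGraph V} (hxy : G.Adj x y)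
    (X : Set {v : V // v ≠ y}) : Cn (ctrGraph hne G) X ↔ Cn G (ctrMap hne ⁻¹' X) := by
  constructor
  · intro h
    refine ⟨?_, fun A hA hAne hcl => ?_⟩
    · obtain ⟨v, hv⟩ := h.1
      refine ⟨v.1, ?_⟩
      rw [Set.mem_preimage, ctrMap_surj]
      exact hv
    · have hsat : ∀ u v, ctrMap hne u = ctrMap hne v → u ∈ A → v ∈ A := by
        intro u v huv hu
        have hv : v ∈ ctrMap hne ⁻¹' X := by
          rw [Set.mem_preimage, ← huv]
          exact hA hu
        rcases ctrMap_eq hne huv with h1 | ⟨h1, h2⟩ | ⟨h1, h2⟩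
        · rwa [← h1]
        · refine hcl u hu v hv ?_
          rw [h1, h2]
          exact hxy
        · refine hcl u hu v hv ?_
          rw [h1, h2]
          exact hxy.symm
      have hA' : ctrMap hne '' A = X := by
        refine h.2 _ ?_ (hAne.image _) ?_
        · rintro _ ⟨a, ha, rfl⟩
          exact hA ha
        · rintro _ ⟨a, ha, rfl⟩ b hb ⟨_, u, v, hu, hv, huv⟩
          refine ⟨v, ?_, hv⟩
          refine hcl u (hsat a u hu.symm ha) v ?_ huv
          rw [Set.mem_preimage, hv]
          exact hb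
      refine Set.Subset.antisymm hA fun v hv => ?_
      rw [Set.mem_preimage, ← hA'] at hv
      obtain ⟨u, hu, huv⟩ := hv
      exact hsat u v huv hu
  · intro h
    refine ⟨?_, fun A hA hAne hcl => ?_⟩
    · obtain ⟨v, hv⟩ := h.1
      exact ⟨_, hv⟩
    · have hA' : ctrMap hne ⁻¹' A = ctrMap hne ⁻¹' X := by
        refine h.2 _ (Set.preimage_mono hA) ?_ ?_
        · obtain ⟨v, hv⟩ := hAne
          refine ⟨v.1, ?_⟩
          rw [Set.mem_preimage, ctrMap_surj]
          exact hv
        · intro a ha b hb hab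
          by_cases h1 : ctrMap hne a = ctrMap hne b
          · rw [Set.mem_preimage, ← h1]
            exact ha
          · exact hcl _ ha _ hb ⟨h1, a, b, rfl, rfl, hab⟩
      ext v
      have h1 : v.1 ∈ ctrMap hne ⁻¹' A ↔ v.1 ∈ ctrMap hne ⁻¹' X := by rw [hA']
      rwa [Set.mem_preimage, Set.mem_preimage, ctrMap_surj] at h1

theorem ctr_sm [Fintype V] {x y : V} [Fintype {v : V // v ≠ y}] {A : Type} [AddCommGroup A]
    (hne : x ≠ y) (f : V → A) (X : Set {v : V // v ≠ y}) :
    sm (fun v => sm f (ctrMap hne ⁻¹' {v})) X = sm f (ctrMap hne ⁻¹' X) := by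
  classical
  unfold sm
  have h1 : ∀ v : {v : V // v ≠ y},
      X.indicator (fun v => ∑ u, (ctrMap hne ⁻¹' {v}).indicator f u) v =
        ∑ u, if (ctrMap hne u = v ∧ v ∈ X) then f u else 0 := by
    intro v
    by_cases hv : v ∈ X
    · rw [Set.indicator_of_mem hv]
      refine Finset.sum_congr rfl fun u _ => ?_
      by_cases hu : ctrMap hne u = v
      · rw [if_pos ⟨hu, hv⟩, Set.indicator_of_mem (show u ∈ ctrMap hne ⁻¹' {v} from hu)]
      · rw [if_neg fun h => hu h.1,
          Set.indicator_of_notMem (show u ∉ ctrMap hne ⁻¹' {v} from hu)]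
    · rw [Set.indicator_of_notMem hv]
      refine (Finset.sum_eq_zero fun u _ => ?_).symm
      rw [if_neg fun h => hv h.2]
  rw [Finset.sum_congr rfl fun v _ => h1 v, Finset.sum_comm]
  refine Finset.sum_congr rfl fun u _ => ?_
  rw [Finset.sum_eq_single (ctrMap hne u)]
  · by_cases hu : ctrMap hne u ∈ X
    · rw [if_pos ⟨rfl, hu⟩, Set.indicator_of_mem (show u ∈ ctrMap hne ⁻¹' X from hu)]
    · rw [if_neg fun h => hu h.2, Set.indicator_of_notMem (show u ∉ ctrMap hne ⁻¹' X from hu)]
  · intro v _ hv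
    rw [if_neg fun h => hv h.1.symm]
  · intro h
    exact absurd (Finset.mem_univ _) h

theorem ctr_pre_x {x y : V} (hne : x ≠ y) :
    ctrMap hne ⁻¹' {⟨x, hne⟩} = ({x, y} : Set V) := by
  ext v
  rw [Set.mem_preimage, Set.mem_singleton_iff, Set.mem_insert_iff, Set.mem_singleton_iff]
  by_cases hv : v = y
  · rw [hv, ctrMap_y]
    simp
  · rw [ctrMap_of_ne hne hv, Subtype.mk.injEq]
    simp [hv]

theorem ctr_pre_ne {x y : V} (hne : x ≠ y) {z : {v : V // v ≠ y}} (hz : z.1 ≠ x) :
    ctrMap hne ⁻¹' {z} = ({z.1} : Set V) := by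
  ext v
  rw [Set.mem_preimage, Set.mem_singleton_iff, Set.mem_singleton_iff]
  by_cases hv : v = y
  · rw [hv, ctrMap_y]
    constructor
    · intro h
      exact absurd (congrArg Subtype.val h).symm hz
    · intro h
      exact absurd h.symm z.2
  · rw [ctrMap_of_ne hne hv]
    exact ⟨fun h => congrArg Subtype.val h, fun h => Subtype.ext h⟩

end contraction

/-- **Step 1.** If `x y` is contractible and not linked by `F`, then contraction gives a smaller
3-connected graph with a family of the same size.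

Take `V' = {v // v ≠ y}`, `G'.Adj a b ↔ a ≠ b ∧ (G.Adj a b ∨ (a = x ∧ G.Adj y b) ∨ (b = x ∧
G.Adj a y))`, `f'(x) = f x + f y`, `f' v = f v` otherwise, `F' = (f ↦ f') '' F`.
For `X' : Set V'` let `X = {v | v ∈ X'} ∪ (if x ∈ X' then {y})`. Then `Cn G' X' ↔ Cn G X`, the
complement corresponds to the complement, `sm f' X' = sm f X`. `C3 G'`: for `|S'| ≤ 2`, `X' = S'ᶜ`:
`Xᶜ` is `S'` or (if `x ∈ S'`) `{x, y} ∪ (S' \ {x})`, which has at most 3 elements: use `hxy.2` (if
`S' = {x}` use `C3` with `{x,y}`). `Nat.card V' = Nat.card V - 1 ≥ 4`.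
Injectivity: `f' = g'` gives `f v = g v` off `x, y` and `f x + f y = g x + g y`; with
`α = f x - g x` and exponent 2 (`hA`) this is `Lk F x y` unless `f = g` (note `x ≠ y`). -/
theorem contract_step {A : Type} [AddCommGroup A] [Finite A] (hA : ∀ a : A, a + a = 0)
    {V : Type} [Fintype V] (G : SimpleGraph V) (hG : C3 G) (h5 : 5 ≤ Nat.card V)
    (F : Set (V → A)) (hF : PP G F) {x y : V} (hxy : Ctr G x y) (hno : ¬ Lk F x y) :
    ∃ (V' : Type) (_ : Fintype V') (G' : SimpleGraph V') (F' : Set (V' → A)),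
      Nat.card V' + 1 = Nat.card V ∧ C3 G' ∧ PP G' F' ∧ F'.ncard = F.ncard := by
  classical
  have hne : x ≠ y := hxy.1.ne
  set P : (V → A) → ({v : V // v ≠ y} → A) := fun f v => sm f (ctrMap hne ⁻¹' {v}) with hP
  have hcard : Nat.card {v : V // v ≠ y} + 1 = Nat.card V := by
    rw [Nat.card_eq_fintype_card, Nat.card_eq_fintype_card, Fintype.card_subtype_compl,
      Fintype.card_subtype_eq]
    have : 0 < Fintype.card V := Fintype.card_pos_iff.2 ⟨x⟩
    omega
  have hPx : ∀ f, P f ⟨x, hne⟩ = f x + f y := by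
    intro f
    simp only [hP]
    rw [ctr_pre_x hne, sm_insert f (by simpa using hne), sm_singleton]
  have hPz : ∀ f v (hv : v ≠ y), v ≠ x → P f ⟨v, hv⟩ = f v := by
    intro f v hv hvx
    simp only [hP]
    rw [ctr_pre_ne hne (z := ⟨v, hv⟩) hvx, sm_singleton]
  refine ⟨{v : V // v ≠ y}, inferInstance, ctrGraph hne G, P '' F, hcard, ⟨by omega, ?_⟩,
    ⟨?_, ?_⟩, ?_⟩
  · intro S hS
    rw [ctr_cn hne hxy.1, Set.preimage_compl]
    by_cases hxS : (⟨x, hne⟩ : {v : V // v ≠ y}) ∈ S
    · have h1 : (S \ {⟨x, hne⟩}).ncard ≤ 1 := by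
        have := Set.ncard_sdiff_singleton_of_mem hxS
        omega
      have h2 : S = {⟨x, hne⟩} ∪ (S \ {⟨x, hne⟩}) := by
        rw [Set.union_sdiff_cancel (Set.singleton_subset_iff.2 hxS)]
      rcases Set.eq_empty_or_nonempty (S \ {⟨x, hne⟩}) with h3 | ⟨z, hz⟩
      · rw [h2, h3, Set.union_empty, ctr_pre_x]
        refine hG.2 _ ?_
        exact (Set.ncard_pair hne).le
      · have h4 : S \ {⟨x, hne⟩} = {z} := by
          rw [Set.ncard_le_one_iff_subsingleton] at h1
          exact h1.eq_singleton_of_mem hz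
        have hzx : z.1 ≠ x := fun h => hz.2 (Subtype.ext h)
        rw [h2, h4, Set.preimage_union, ctr_pre_x, ctr_pre_ne hne hzx]
        have h5 : ({x, y} ∪ {z.1} : Set V) = {x, y, z.1} := by
          ext v
          simp only [Set.mem_union, Set.mem_insert_iff, Set.mem_singleton_iff]
          tauto
        rw [h5]
        exact hxy.2 z.1 hzx z.2
    · have h1 : ctrMap hne ⁻¹' S = Subtype.val '' S := by
        ext v
        rw [Set.mem_preimage]
        by_cases hv : v = y
        · rw [hv, ctrMap_y]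
          constructor
          · intro h
            exact absurd h hxS
          · rintro ⟨w, _, hw⟩
            exact absurd hw w.2
        · rw [ctrMap_of_ne hne hv]
          constructor
          · intro h
            exact ⟨_, h, rfl⟩
          · rintro ⟨w, hw, hwv⟩
            have : w = ⟨v, hv⟩ := Subtype.ext hwv
            rwa [← this]
      rw [h1]
      refine hG.2 _ ?_
      rwa [Set.ncard_image_of_injective _ Subtype.val_injective]
  · rintro _ ⟨f, hf, rfl⟩
    rw [hP, ctr_sm hne f, Set.preimage_univ]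
    exact hF.1 f hf
  · intro X hX
    have hB : Bond G (ctrMap hne ⁻¹' X) := by
      refine ⟨(ctr_cn hne hxy.1 X).1 hX.1, ?_⟩
      rw [← Set.preimage_compl]
      exact (ctr_cn hne hxy.1 Xᶜ).1 hX.2
    rcases hF.2 _ hB with h | h
    · left
      rintro _ ⟨f, hf, rfl⟩
      rw [hP, ctr_sm hne f]
      exact h f hf
    · right
      rintro _ ⟨f, hf, rfl⟩
      rw [hP, ctr_sm hne f]
      exact h f hf
  · refine Set.InjOn.ncard_image ?_
    intro f hf g hg hfg
    have hv : ∀ v, v ≠ x → v ≠ y → f v = g v := by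
      intro v hvx hvy
      rw [← hPz f v hvy hvx, ← hPz g v hvy hvx, hfg]
    have hs : f x + f y = g x + g y := by
      rw [← hPx, ← hPx, hfg]
    by_contra hne'
    apply hno
    refine ⟨hne, f, hf, g, hg, f x - g x, ?_, hv, by abel, ?_⟩
    · intro h0
      apply hne'
      have h1 : f x = g x := sub_eq_zero.1 h0
      have h2 : f y = g y := by
        rw [h1] at hs
        exact add_left_cancel hs
      funext v
      by_cases h3 : v = x
      · rw [h3, h1]
      · by_cases h4 : v = y
        · rw [h4, h2]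
        · exact hv v h3 h4
    · have h1 := hA (f x - g x)
      have h2 : f y = g y - (f x - g x) := by
        have : f y = g x + g y - f x := by
          rw [← hs]
          abel
        rw [this]
        abel
      rw [h2]
      have h3 : -(f x - g x) = f x - g x := neg_eq_of_add_eq_zero_right h1
      rw [sub_eq_add_neg, h3]

end Pool.MP_4929df_co.H91
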