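import Pool.Agent.W_4929df_h91.Basic

/-! Step 4 (proofs row 432): two rings from cores. -/

set_option autoImplicit false

namespace Pool.MP_4929df_co.H91

variable {V : Type*}

/-- the bags: the core and the components assigned to it -/
private def bagOf (G : SimpleGraph V) (K : ℕ → Set V) (U : Set V) (g : Set V → ℕ) (i : ℕ) :
    Set V :=
  K i ∪ ⋃₀ {D | Comp G Uᶜ D ∧ g D = i}

private theorem rg_bagOf {G : SimpleGraph V} {N : ℕ} (hN : 3 ≤ N) {u : ℕ → V}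
    (hadj : ∀ i, i + 1 < N → G.Adj (u i) (u (i + 1))) (hclose : G.Adj (u (N - 1)) (u 0))
    {K : ℕ → Set V} (hu : ∀ i < N, u i ∈ K i) (hK : ∀ i < N, Cn G (K i))
    (hdisj : ∀ i < N, ∀ j < N, i ≠ j → Disjoint (K i) (K j)) {U : Set V}
    (hU : ∀ v, v ∈ U ↔ ∃ i < N, v ∈ K i) {g : Set V → ℕ}
    (hg : ∀ D, Comp G Uᶜ D → g D < N ∧ ∃ a ∈ K (g D), ∃ b ∈ D, G.Adj a b) :
    Rg G N (bagOf G K U g) := by
  refine ⟨?_, ?_, ?_, ?_, ?_⟩
  · intro i hi
    refine (hK i hi).union_sUnion ?_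
    rintro D ⟨hD, hgD⟩
    refine ⟨hD.2.1, Or.inr ?_⟩
    have h := (hg D hD).2
    rwa [hgD] at h
  · intro i hi j hj hij
    rw [Set.disjoint_left]
    rintro v (hv | ⟨D, ⟨hD, hgD⟩, hvD⟩) (hv' | ⟨D', ⟨hD', hgD'⟩, hvD'⟩)
    · exact Set.disjoint_left.1 (hdisj i hi j hj hij) hv hv'
    · exact hD'.1 hvD' ((hU v).2 ⟨i, hi, hv⟩)
    · exact hD.1 hvD ((hU v).2 ⟨j, hj, hv'⟩)
    · have h := hD.eq_of_inter hD' ⟨v, hvD, hvD'⟩
      rw [← h] at hgD'
      exact hij (hgD.symm.trans hgD')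
  · intro v
    by_cases hv : v ∈ U
    · obtain ⟨i, hi, hvi⟩ := (hU v).1 hv
      exact ⟨i, hi, Or.inl hvi⟩
    · obtain ⟨D, hD, hvD⟩ := exists_comp G (U := Uᶜ) (u := v) hv
      exact ⟨g D, (hg D hD).1, Or.inr ⟨D, ⟨hD, rfl⟩, hvD⟩⟩
  · intro i hi
    exact ⟨u i, Or.inl (hu i (by omega)), u (i + 1), Or.inl (hu _ hi), hadj i hi⟩
  · exact ⟨u (N - 1), Or.inl (hu _ (by omega)), u 0, Or.inl (hu 0 (by omega)), hclose⟩

/-- **Two rings from cores.** `u 0, ..., u (N-1)` a cycle, `E i` (`i < N`) a set of at most one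
vertex, adjacent to `u i`, the cores `K i = insert (u i) (E i)` pairwise disjoint (the `u i` are
distinct too). Then there are two rings `B⁰, B¹` with `K i ⊆ Bᵗ i` and `B⁰ i ∩ B¹ i ⊆ K i`.

Proof. `U = ⋃ K i`. Every component `D` of `G[Uᶜ]` has at least 3 neighbours (`C3.three_le_nb`; if
`D ∪ Nb D = V` then `Nb D = U` has at least 3 elements anyway), all in `U` (`Comp.nb_subset`), so it
is adjacent to two different cores (a core has at most 2 elements): choose `g0 D ≠ g1 D`. Let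
`Bᵗ i = K i ∪ ⋃ {D | gᵗ D = i}` (`Cn.union_sUnion`). -/
theorem rings_of_cores [Finite V] {G : SimpleGraph V} (hG : C3 G) {N : ℕ} (hN : 3 ≤ N) {u : ℕ → V}
    (hadj : ∀ i, i + 1 < N → G.Adj (u i) (u (i + 1))) (hclose : G.Adj (u (N - 1)) (u 0))
    {E : ℕ → Set V} (hE1 : ∀ i < N, (E i).Subsingleton) (hE2 : ∀ i < N, ∀ e ∈ E i, G.Adj (u i) e)
    (hdisj : ∀ i < N, ∀ j < N, i ≠ j → Disjoint (insert (u i) (E i)) (insert (u j) (E j))) :
    ∃ B0 B1 : ℕ → Set V, Rg G N B0 ∧ Rg G N B1 ∧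
      (∀ i < N, insert (u i) (E i) ⊆ B0 i ∧ insert (u i) (E i) ⊆ B1 i ∧
        B0 i ∩ B1 i ⊆ insert (u i) (E i)) := by
  classical
  set K : ℕ → Set V := fun i => insert (u i) (E i) with hKdef
  have hu : ∀ i < N, u i ∈ K i := fun i _ => Set.mem_insert _ _
  have hK : ∀ i < N, Cn G (K i) := by
    intro i hi
    rcases (hE1 i hi).eq_empty_or_singleton with h | ⟨e, h⟩
    · have e1 : K i = {u i} := by simp only [hKdef, h, insert_empty_eq]
      rw [e1]
      exact cn_singleton G _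
    · have e1 : K i = {u i, e} := by simp only [hKdef, h]
      rw [e1]
      exact cn_pair (hE2 i hi e (by rw [h]; rfl))
  have hcard : ∀ i < N, (K i).ncard ≤ 2 := by
    intro i hi
    rcases (hE1 i hi).eq_empty_or_singleton with h | ⟨e, h⟩
    · have e1 : K i = {u i} := by simp only [hKdef, h, insert_empty_eq]
      rw [e1, Set.ncard_singleton]
      omega
    · have e1 : K i = {u i, e} := by simp only [hKdef, h]
      rw [e1]
      exact Set.ncard_insert_le (u i) {e} |>.trans (by rw [Set.ncard_singleton])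
  have hd : ∀ i < N, ∀ j < N, i ≠ j → Disjoint (K i) (K j) := hdisj
  set U : Set V := {v | ∃ i < N, v ∈ K i} with hUdef
  have hU : ∀ v, v ∈ U ↔ ∃ i < N, v ∈ K i := fun v => Iff.rfl
  have key : ∀ D, Comp G Uᶜ D → ∃ p : ℕ × ℕ, p.1 ≠ p.2 ∧
      (p.1 < N ∧ ∃ a ∈ K p.1, ∃ b ∈ D, G.Adj a b) ∧
      (p.2 < N ∧ ∃ a ∈ K p.2, ∃ b ∈ D, G.Adj a b) := by
    intro D hD
    by_cases hne : ∃ v, v ∉ D ∧ v ∉ Nb G D
    · have h3 := hG.three_le_nb hD.2.1.1 hne
      have hNU : Nb G D ⊆ U := by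
        intro v hv
        have h := hD.nb_subset hv
        rwa [compl_compl] at h
      have hne2 : (Nb G D).Nonempty := by
        rw [← Set.ncard_pos]
        omega
      obtain ⟨v, hv⟩ := hne2
      obtain ⟨i, hi, hvi⟩ := hNU hv
      have hex : ∃ w ∈ Nb G D, w ∉ K i := by
        by_contra hcon
        push Not at hcon
        have h4 := Set.ncard_le_ncard (s := Nb G D) (t := K i) hcon
        have h5 := hcard i hi
        omega
      obtain ⟨w, hw, hwi⟩ := hex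
      obtain ⟨j, hj, hwj⟩ := hNU hw
      have hij : i ≠ j := fun h => hwi (h ▸ hwj)
      obtain ⟨a, ha, hav⟩ := hv.2
      obtain ⟨b, hb, hbw⟩ := hw.2
      exact ⟨(i, j), hij, ⟨hi, v, hvi, a, ha, hav.symm⟩, ⟨hj, w, hwj, b, hb, hbw.symm⟩⟩
    · push Not at hne
      have hmem : ∀ i < N, u i ∈ Nb G D := by
        intro i hi
        refine hne _ fun h => hD.1 h ?_
        exact ⟨i, hi, hu i hi⟩
      obtain ⟨a, ha, hav⟩ := (hmem 0 (by omega)).2
      obtain ⟨b, hb, hbw⟩ := (hmem 1 (by omega)).2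
      exact ⟨(0, 1), by simp, ⟨by show 0 < N; omega, u 0, hu 0 (by omega), a, ha, hav.symm⟩,
        ⟨by show 1 < N; omega, u 1, hu 1 (by omega), b, hb, hbw.symm⟩⟩
  let P : Set V → ℕ × ℕ := fun D => if h : Comp G Uᶜ D then (key D h).choose else (0, 0)
  have hP : ∀ D, Comp G Uᶜ D → (P D).1 ≠ (P D).2 ∧
      ((P D).1 < N ∧ ∃ a ∈ K (P D).1, ∃ b ∈ D, G.Adj a b) ∧
      ((P D).2 < N ∧ ∃ a ∈ K (P D).2, ∃ b ∈ D, G.Adj a b) := by
    intro D hD
    have h1 : P D = (key D hD).choose := dif_pos hD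
    rw [h1]
    exact (key D hD).choose_spec
  refine ⟨bagOf G K U fun D => (P D).1, bagOf G K U fun D => (P D).2,
    rg_bagOf hN hadj hclose hu hK hd hU fun D hD => (hP D hD).2.1,
    rg_bagOf hN hadj hclose hu hK hd hU fun D hD => (hP D hD).2.2, ?_⟩
  intro i hi
  refine ⟨Set.subset_union_left, Set.subset_union_left, ?_⟩
  rintro v ⟨hv | ⟨D, ⟨hD, hgD⟩, hvD⟩, hv' | ⟨D', ⟨hD', hgD'⟩, hvD'⟩⟩
  · exact hv
  · exact hv
  · exact hv'
  · have h := hD.eq_of_inter hD' ⟨v, hvD, hvD'⟩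
    rw [← h] at hgD'
    exact absurd (hgD.trans hgD'.symm) (hP D hD).1

end Pool.MP_4929df_co.H91
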