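import Pool.Agent.W_4929df_h91.Basic

/-! Step 4 (proofs row 432): selection of indices. -/

set_option autoImplicit false

namespace Pool.MP_4929df_co.H91

variable {V : Type*}

/-- a list cycle as a function on `ℕ` -/
theorem Cyc.fn {G : SimpleGraph V} {l : List V} (hl : Cyc G l) :
    ∃ u : ℕ → V, (∀ i < l.length, ∀ j < l.length, u i = u j → i = j) ∧
      (∀ i, i + 1 < l.length → G.Adj (u i) (u (i + 1))) ∧ G.Adj (u (l.length - 1)) (u 0) := by
  obtain ⟨h3, hnd, hch, hcl⟩ := hl
  have h0 : 0 < l.length := by omega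
  refine ⟨fun i => if h : i < l.length then l[i] else l[0], ?_, ?_, ?_⟩
  · intro i hi j hj hij
    simp only [hi, hj, dif_pos] at hij
    exact (List.Nodup.getElem_inj_iff hnd).1 hij
  · intro i hi
    have hi' : i < l.length := by omega
    simp only [hi, hi', dif_pos]
    exact List.isChain_iff_getElem.1 hch i hi
  · have hl1 : l.length - 1 < l.length := by omega
    simp only [hl1, h0, dif_pos]
    refine hcl _ ?_ _ ?_
    · rw [List.getLast?_eq_getElem?, List.getElem?_eq_getElem hl1]
      rfl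
    · rw [List.head?_eq_getElem?, List.getElem?_eq_getElem h0]
      rfl

/-- every value is taken at most three times by `a` at indices with `a i ≠ u i` -/
private theorem sel_fibre [Finite V] {G : SimpleGraph V} {N : ℕ} {u a : ℕ → V}
    (hinj : ∀ i < N, ∀ j < N, u i = u j → i = j)
    (ha : ∀ i < N, a i = u i ∨ (G.Adj (u i) (a i) ∧ (Nb G {a i}).ncard ≤ 3)) (v : V)
    (s : Finset ℕ) (hs : ∀ i ∈ s, i < N ∧ a i ≠ u i ∧ a i = v) : s.card ≤ 3 := by
  classical
  rcases s.eq_empty_or_nonempty with rfl | ⟨i₀, hi₀⟩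
  · simp
  · have h1 : (Nb G {v}).ncard ≤ 3 := by
      obtain ⟨h2, h3, h4⟩ := hs i₀ hi₀
      rcases ha i₀ h2 with h5 | h5
      · exact absurd h5 h3
      · rw [← h4]
        exact h5.2
    have hfin : (Nb G {v}).Finite := Set.toFinite _
    have h2 : s.card ≤ hfin.toFinset.card := by
      refine Finset.card_le_card_of_injOn u ?_ ?_
      · intro i hi
        obtain ⟨h2, h3, h4⟩ := hs i hi
        rcases ha i h2 with h5 | h5
        · exact absurd h5 h3
        · have h6 : u i ∈ Nb G {v} := by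
            rw [← h4]
            refine ⟨fun h7 => h3 ?_, a i, rfl, h5.1.symm⟩
            exact (Set.mem_singleton_iff.1 h7).symm
          simpa using h6
      · intro i hi j hj hij
        exact hinj i (hs i hi).1 j (hs j hj).1 hij
    rw [← Set.ncard_eq_toFinset_card _ hfin] at h2
    exact h2.trans h1

/-- **Selection.** `u 0..u (N-1)` distinct; every index `i < N` has `a i` with `a i = u i` or
(`a i` is a neighbour of `u i`, `(Nb G {a i}).ncard ≤ 3`). Suppose moreover that an index `j` with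
`u j = a i` for some `i` has itself `a j = u j` (this is arranged by the caller). Then there is a set
`W` of indices, `N ≤ 4 |W|`, such that for `i ∈ W` either `a i = u i` or `a i` is not on the cycle,
and `a` is injective on `W`.
Proof: `W₁ = {i | a i = u i}`; the indices `i` with `a i = u j`, `j ≠ i`: then `j ∈ W₁`, and every `j`
occurs at most 3 times (`u i ∈ Nb G {u j}`); the indices with `a i` off the cycle: every value occurs
at most 3 times, choose one index for each value. -/
theorem select [Finite V] {G : SimpleGraph V} {N : ℕ} {u a : ℕ → V}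
    (hinj : ∀ i < N, ∀ j < N, u i = u j → i = j)
    (ha : ∀ i < N, a i = u i ∨ (G.Adj (u i) (a i) ∧ (Nb G {a i}).ncard ≤ 3))
    (hself : ∀ i < N, ∀ j < N, a i = u j → a j = u j) :
    ∃ W : Finset ℕ, N ≤ 4 * W.card ∧ (∀ i ∈ W, i < N ∧ (a i = u i ∨ ∀ j < N, a i ≠ u j)) ∧
      ∀ i ∈ W, ∀ j ∈ W, a i = a j → i = j := by
  classical
  set W1 : Finset ℕ := (Finset.range N).filter (fun i => a i = u i) with hW1
  set O : Finset ℕ := (Finset.range N).filter (fun i => ∀ j < N, a i ≠ u j) with hO
  set R : Finset ℕ := (Finset.range N).filter (fun i => a i ≠ u i ∧ ∃ j < N, a i = u j) with hR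
  have mW1 : ∀ i, i ∈ W1 ↔ i < N ∧ a i = u i := by
    intro i
    simp [hW1]
  have mO : ∀ i, i ∈ O ↔ i < N ∧ ∀ j < N, a i ≠ u j := by
    intro i
    simp [hO]
  have mR : ∀ i, i ∈ R ↔ i < N ∧ a i ≠ u i ∧ ∃ j < N, a i = u j := by
    intro i
    simp [hR]
  have hcov : Finset.range N ⊆ W1 ∪ (O ∪ R) := by
    intro i hi
    have hi' := Finset.mem_range.1 hi
    rw [Finset.mem_union, Finset.mem_union, mW1, mO, mR]
    by_cases h1 : a i = u i
    · exact Or.inl ⟨hi', h1⟩
    · by_cases h2 : ∃ j < N, a i = u j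
      · exact Or.inr (Or.inr ⟨hi', h1, h2⟩)
      · refine Or.inr (Or.inl ⟨hi', fun j hj h3 => h2 ⟨j, hj, h3⟩⟩)
  have hN : N ≤ W1.card + (O.card + R.card) := by
    have h1 := Finset.card_le_card hcov
    rw [Finset.card_range] at h1
    have h2 := Finset.card_union_le W1 (O ∪ R)
    have h3 := Finset.card_union_le O R
    omega
  -- the indices `i` with `a i` on the cycle, not equal to `u i`
  have hRc : R.card ≤ 3 * W1.card := by
    have h1 : R.card ≤ 3 * (R.image a).card := by
      refine Finset.card_le_mul_card_image R 3 fun v _ => ?_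
      refine sel_fibre hinj ha v _ fun i hi => ?_
      obtain ⟨h2, h3⟩ := Finset.mem_filter.1 hi
      obtain ⟨h4, h5, _⟩ := (mR i).1 h2
      exact ⟨h4, h5, h3⟩
    have h2 : (R.image a).card ≤ (W1.image u).card := by
      refine Finset.card_le_card fun v hv => ?_
      obtain ⟨i, hi, rfl⟩ := Finset.mem_image.1 hv
      obtain ⟨h4, _, j, hj, h6⟩ := (mR i).1 hi
      refine Finset.mem_image.2 ⟨j, (mW1 j).2 ⟨hj, hself i h4 j hj h6⟩, h6.symm⟩
    have h3 : (W1.image u).card ≤ W1.card := Finset.card_image_le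
    omega
  -- the indices `i` with `a i` off the cycle
  have hOc : O.card ≤ 3 * (O.image a).card := by
    refine Finset.card_le_mul_card_image O 3 fun v _ => ?_
    refine sel_fibre hinj ha v _ fun i hi => ?_
    obtain ⟨h2, h3⟩ := Finset.mem_filter.1 hi
    obtain ⟨h4, h5⟩ := (mO i).1 h2
    exact ⟨h4, h5 i h4, h3⟩
  have hex : ∀ v ∈ O.image a, ∃ i ∈ O, a i = v := fun v hv => Finset.mem_image.1 hv
  choose! g hgO hga using hex
  have hginj : Set.InjOn g (O.image a : Finset V) := by
    intro v hv w hw hvw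
    rw [← hga v hv, ← hga w hw, hvw]
  have hW2c : ((O.image a).image g).card = (O.image a).card :=
    Finset.card_image_of_injOn hginj
  have mW2 : ∀ i ∈ (O.image a).image g, i ∈ O ∧ g (a i) = i := by
    intro i hi
    obtain ⟨v, hv, rfl⟩ := Finset.mem_image.1 hi
    exact ⟨hgO v hv, by rw [hga v hv]⟩
  have hdis : Disjoint W1 ((O.image a).image g) := by
    rw [Finset.disjoint_left]
    intro i h1 h2
    obtain ⟨h3, h4⟩ := (mW1 i).1 h1
    exact ((mO i).1 (mW2 i h2).1).2 i h3 h4
  refine ⟨W1 ∪ (O.image a).image g, ?_, ?_, ?_⟩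
  · rw [Finset.card_union_of_disjoint hdis, hW2c]
    omega
  · intro i hi
    rcases Finset.mem_union.1 hi with h1 | h1
    · obtain ⟨h3, h4⟩ := (mW1 i).1 h1
      exact ⟨h3, Or.inl h4⟩
    · obtain ⟨h3, h4⟩ := (mO i).1 (mW2 i h1).1
      exact ⟨h3, Or.inr h4⟩
  · intro i hi j hj hij
    rcases Finset.mem_union.1 hi with h1 | h1
    · obtain ⟨h3, h4⟩ := (mW1 i).1 h1
      rcases Finset.mem_union.1 hj with h2 | h2
      · obtain ⟨h5, h6⟩ := (mW1 j).1 h2
        exact hinj i h3 j h5 (by rw [← h4, ← h6, hij])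
      · exfalso
        obtain ⟨h5, h6⟩ := (mO j).1 (mW2 j h2).1
        exact h6 i h3 (by rw [← hij, h4])
    · rcases Finset.mem_union.1 hj with h2 | h2
      · exfalso
        obtain ⟨h3, h4⟩ := (mW1 j).1 h2
        obtain ⟨h5, h6⟩ := (mO i).1 (mW2 i h1).1
        exact h6 j h3 (by rw [hij, h4])
      · rw [← (mW2 i h1).2, ← (mW2 j h2).2, hij]

end Pool.MP_4929df_co.H91
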