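import Pool.Agent.W_4929df_h91.Ring
import Pool.Agent.W_4929df_h91.Select
import Pool.Agent.W_4929df_h91.Cores

/-! Step 4 (proofs row 432): no long cycles. -/

set_option autoImplicit false

namespace Pool.MP_4929df_co.H91

variable {V : Type*}

/-- **Step 4.** Proof: `Cyc.fn`; choose for every cycle vertex `u i` a pair `(a i, b i)`: if some
pair `Sp G h (u i) b`, `b ≠ u i` exists take `a i = u i`, otherwise the given one. (`hself`: if
`a i = u j` then `u j` is an end of an `Sp` pair.) Take `W` from `select`, cores `E i = {a i}` for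
`i ∈ W` with `a i ≠ u i`, else `∅`; `rings_of_cores`. For `i ∈ W` the partner `b i` is not in the core
`K i` (`b i ≠ a i`, and `b i ≠ u i`), so it is not in `B0 i` or not in `B1 i`. So
`|W| ≤ 16 + 16` by `ring_lemma`, `N ≤ 128`. -/
theorem no_long_cycle [Fintype V] {A : Type*} [AddCommGroup A] (h8 : Nat.card A = 8)
    {G : SimpleGraph V} (hG : C3 G) (h : V → A)
    (hw : ∀ u, ∃ a b, a ≠ b ∧ Sp G h a b ∧
      (a = u ∨ (G.Adj u a ∧ b ≠ u ∧ (Nb G {a}).ncard ≤ 3)))
    {l : List V} (hl : Cyc G l) : l.length < 136 := by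
  classical
  have h3 : 3 ≤ l.length := hl.1
  obtain ⟨u, hinj, hadj, hclose⟩ := hl.fn
  set N := l.length with hN
  have hw' : ∀ u, ∃ a b, a ≠ b ∧ Sp G h a b ∧
      (a = u ∨ (G.Adj u a ∧ b ≠ u ∧ (Nb G {a}).ncard ≤ 3)) ∧
      ((∃ b', b' ≠ u ∧ Sp G h u b') → a = u) := by
    intro u
    by_cases hb : ∃ b', b' ≠ u ∧ Sp G h u b'
    · obtain ⟨b', hb1, hb2⟩ := hb
      exact ⟨u, b', hb1.symm, hb2, Or.inl rfl, fun _ => rfl⟩
    · obtain ⟨a, b, h1, h2, h4⟩ := hw u
      exact ⟨a, b, h1, h2, h4, fun hh => absurd hh hb⟩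
  choose fa fb hab hSp hcase hpref using hw'
  set a : ℕ → V := fun i => fa (u i) with ha
  set b : ℕ → V := fun i => fb (u i) with hb
  have hself : ∀ i < N, ∀ j < N, a i = u j → a j = u j := by
    intro i _ j _ hij
    apply hpref (u j)
    refine ⟨b i, ?_, ?_⟩
    · rw [← hij]
      exact (hab (u i)).symm
    · rw [← hij]
      exact hSp (u i)
  obtain ⟨W, hW1, hW2, hW3⟩ := select hinj (fun i _ => by
    rcases hcase (u i) with h1 | h1
    · exact Or.inl h1
    · exact Or.inr ⟨h1.1, h1.2.2⟩) hself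
  set E : ℕ → Set V := fun i => {e | i ∈ W ∧ a i ≠ u i ∧ e = a i} with hE
  have hE1 : ∀ i < N, (E i).Subsingleton := by
    rintro i _ x ⟨-, -, hx⟩ y ⟨-, -, hy⟩
    rw [hx, hy]
  have hE2 : ∀ i < N, ∀ e ∈ E i, G.Adj (u i) e := by
    rintro i _ e ⟨-, h1, h2⟩
    rcases hcase (u i) with h4 | h4
    · exact absurd h4 h1
    · rw [h2]; exact h4.1
  have hdisj : ∀ i < N, ∀ j < N, i ≠ j →
      Disjoint (insert (u i) (E i)) (insert (u j) (E j)) := by
    intro i hi j hj hij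
    rw [Set.disjoint_left]
    rintro x (hx | ⟨hx1, hx2, hx3⟩) (hx' | ⟨hx1', hx2', hx3'⟩)
    · exact hij (hinj i hi j hj (hx.symm.trans hx'))
    · rcases (hW2 j hx1').2 with h1 | h1
      · exact hx2' h1
      · exact h1 i hi (hx3'.symm.trans hx)
    · rcases (hW2 i hx1).2 with h1 | h1
      · exact hx2 h1
      · exact h1 j hj (hx3.symm.trans hx')
    · exact hij (hW3 i hx1 j hx1' (hx3.symm.trans hx3'))
  obtain ⟨B0, B1, hB0, hB1, hB⟩ := rings_of_cores hG h3 hadj hclose hE1 hE2 hdisj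
  have hcore : ∀ i ∈ W, a i ∈ insert (u i) (E i) := by
    intro i hi
    by_cases h1 : a i = u i
    · exact Or.inl h1
    · exact Or.inr ⟨hi, h1, rfl⟩
  have hnb : ∀ i ∈ W, b i ∉ insert (u i) (E i) := by
    rintro i hi (h1 | ⟨-, -, h1⟩)
    · rcases hcase (u i) with h2 | h2
      · exact hab (u i) (h2.trans h1.symm)
      · exact h2.2.1 h1
    · exact hab (u i) h1.symm
  have hc0 : (W.filter (fun i => b i ∉ B0 i)).card ≤ 16 := by
    refine ring_lemma h8 (by omega) hB0 h _ ?_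
    intro j hj
    obtain ⟨hj1, hj2⟩ := Finset.mem_filter.1 hj
    exact ⟨(hW2 j hj1).1, a j, (hB j (hW2 j hj1).1).1 (hcore j hj1), b j, hj2, hSp (u j)⟩
  have hc1 : (W.filter (fun i => b i ∉ B1 i)).card ≤ 16 := by
    refine ring_lemma h8 (by omega) hB1 h _ ?_
    intro j hj
    obtain ⟨hj1, hj2⟩ := Finset.mem_filter.1 hj
    exact ⟨(hW2 j hj1).1, a j, (hB j (hW2 j hj1).1).2.1 (hcore j hj1), b j, hj2, hSp (u j)⟩
  have hsub : W ⊆ W.filter (fun i => b i ∉ B0 i) ∪ W.filter (fun i => b i ∉ B1 i) := by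
    intro i hi
    rw [Finset.mem_union, Finset.mem_filter, Finset.mem_filter]
    by_contra hcon
    push Not at hcon
    exact hnb i hi ((hB i (hW2 i hi).1).2.2 ⟨hcon.1 hi, hcon.2 hi⟩)
  have hc := (Finset.card_le_card hsub).trans (Finset.card_union_le _ _)
  omega

end Pool.MP_4929df_co.H91
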