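import Pool.Agent.W_4929df_h91.Handles

/-! Step 5 (proofs row 432): depth first search. -/

set_option autoImplicit false

namespace Pool.MP_4929df_co.H91

variable {V : Type*}

/-- a DFS state: `l = v_i :: ... :: v_1` is a path (reversed), `C` a component of `G - l` that is
adjacent to `v_i`. -/
structure Dfs (G : SimpleGraph V) (l : List V) (C : Set V) : Prop where
  chain : l.IsChain G.Adj
  nodup : l.Nodup
  comp : Comp G {v | v ∉ l} C
  adj : ∀ v ∈ l.head?, ∃ c ∈ C, G.Adj v c

/-- earlier states: `C'` is the component of `G - l` that contains `C`; it contains `v` (because `C`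
is adjacent to `v`) and `v` is adjacent to the head of `l`. -/
theorem Dfs.tail {G : SimpleGraph V} {v : V} {l : List V} {C : Set V} (h : Dfs G (v :: l) C) :
    ∃ C', Dfs G l C' ∧ C ⊆ C' ∧ v ∈ C' := by
  obtain ⟨c, hcC, hvc⟩ := h.adj v (by simp)
  have hnd := List.nodup_cons.1 h.nodup
  have hvU : v ∈ {w : V | w ∉ l} := hnd.1
  obtain ⟨C', hC', hvC'⟩ := exists_comp G hvU
  have hsub : C ⊆ {w : V | w ∉ l} := fun w hw hwl =>
    h.comp.1 hw (List.mem_cons_of_mem v hwl)
  refine ⟨C', ⟨h.chain.tail, hnd.2, hC', ?_⟩, ?_, hvC'⟩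
  · intro w hw
    cases l with
    | nil => simp at hw
    | cons x l' =>
      have e : x = w := by simpa using hw
      have h1 : G.Adj v x := (List.isChain_cons_cons.1 h.chain).1
      exact ⟨v, hvC', e ▸ h1.symm⟩
  · exact hC'.subset_of_inter h.comp.2.1 hsub ⟨c, hcC, hC'.2.2 v hvC' c (hsub hcC) hvc⟩

/-- iterate `Dfs.tail` -/
theorem Dfs.drop {G : SimpleGraph V} {l : List V} {C : Set V} (h : Dfs G l C) (j : ℕ) :
    ∃ C', Dfs G (l.drop j) C' ∧ C ⊆ C' := by
  induction j generalizing l C with
  | zero => exact ⟨C, by simpa using h, subset_rfl⟩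
  | succ j ih =>
    cases l with
    | nil => exact ⟨C, by simpa using h, subset_rfl⟩
    | cons v l' =>
      obtain ⟨C', hC', hsub, -⟩ := h.tail
      obtain ⟨C'', hC'', hsub'⟩ := ih hC'
      exact ⟨C'', by simpa using hC'', hsub.trans hsub'⟩

/-- **Window.** If all cycles are shorter than `L`, the neighbourhood of `C` lies in the last `L`
vertices of the path: if `v_m ∈ Nb G C`, then the part `v_i ... v_m` of the list and `C` form a handle
(`cyc_of_handle`). -/
theorem Dfs.window {G : SimpleGraph V} {l : List V} {C : Set V} (h : Dfs G l C) {L : ℕ}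
    (hL : 2 ≤ L) (hcyc : ∀ c, Cyc G c → c.length < L) : ∀ v ∈ Nb G C, v ∈ l.take L := by
  intro v hv
  have hvl : v ∈ l := by
    have h1 := h.comp.nb_subset hv
    by_contra h2
    exact h1 h2
  obtain ⟨l1, l2, rfl⟩ := List.append_of_mem hvl
  rcases List.eq_nil_or_concat l1 with rfl | ⟨l0, w, rfl⟩
  · obtain ⟨k, rfl⟩ : ∃ k, L = k + 1 := ⟨L - 1, by omega⟩
    simp
  · set p : List V := l0.concat w ++ [v] with hp
    have hl : l0.concat w ++ v :: l2 = p ++ l2 := by simp [hp]
    have hlen : p.length = l0.length + 2 := by simp [hp]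
    rw [hl] at h ⊢
    have hmem : ∀ x ∈ p, x ∈ p ++ l2 := fun x hx => List.mem_append_left _ hx
    obtain ⟨c, hc, hclen⟩ := cyc_of_handle (G := G) (l := p) (by omega)
      (List.isChain_append.1 h.chain).1 (List.nodup_append.1 h.nodup).1 h.comp.2.1
      (fun x hx hxC => h.comp.1 hxC (hmem x hx))
      (by
        intro x hx
        have hx' : x ∈ (p ++ l2).head? := by
          rw [List.head?_append]
          rw [Option.mem_def] at hx ⊢
          rw [hx]
          rfl
        obtain ⟨c, hc, hxc⟩ := h.adj x hx'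
        exact ⟨c, hc, hxc.symm⟩)
      (by
        intro x hx
        have e : v = x := by simpa [hp] using hx
        obtain ⟨a, ha, hav⟩ := hv.2
        exact ⟨a, ha, e ▸ hav.symm⟩)
    have hlt := hcyc c hc
    rw [List.take_append]
    refine List.mem_append_left _ ?_
    rw [List.take_of_length_le (by omega)]
    simp [hp]

/-- the first state: any vertex `v`, `C` its complement -/
theorem dfs_start [Finite V] {G : SimpleGraph V} (hG : C3 G) (v : V) : Dfs G [v] {v}ᶜ := by
  have e : {w : V | w ∉ [v]} = {v}ᶜ := by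
    ext w
    simp
  refine ⟨List.isChain_singleton v, List.nodup_singleton v, ?_, ?_⟩
  · rw [e]
    exact ⟨subset_rfl, hG.2 {v} (by simp), fun _ _ b hb _ => hb⟩
  · intro w hw
    have e2 : v = w := by simpa using hw
    have hne : ({v} : Set V) ≠ Set.univ := by
      intro h
      have h1 := hG.1
      have h2 : (Set.univ : Set V).ncard = Nat.card V := Set.ncard_univ V
      rw [← h, Set.ncard_singleton] at h2
      omega
    obtain ⟨a, ha, b, -, hb, hab⟩ := hG.univ.exists_adj (Set.subset_univ {v}) ⟨v, rfl⟩ hne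
    have e3 : a = v := ha
    exact ⟨b, hb, by rw [← e2, ← e3]; exact hab⟩

end Pool.MP_4929df_co.H91
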