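import Pool.Agent.W_4929df_h91.Basic
import Pool.Agent.W_895653_h19.MengerB

/-! Menger's theorem in set form (proofs row 432, used in steps 5 and 6). -/

set_option autoImplicit false

namespace Pool.MP_4929df_co.H91

variable {V : Type*}

/-- **Menger, set form.** `A`, `B` sets of vertices. If every set `X` that meets all connected sets
meeting `A` and `B` has at least `k` elements, then there are `k` pairwise disjoint connected sets,
each meeting `A` and `B`.

Proof (Goering), induction on the number of edges of `G`. No edges: `X = A ∩ B` separates (connected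
sets are singletons), so `k ≤ |A ∩ B|`: take singletons. Let `x y` be an edge, `G' = G - xy`. If all
separators of `A, B` in `G'` have `≥ k` elements, use `G'` (`Cn.mono`). Otherwise let `X` separate
`A, B` in `G'`, `|X| ≤ k - 1`. `X ∪ {x}` and `X ∪ {y}` separate `A, B` in `G` (a `G`-connected set
avoiding `x` (or `y`) is `G'`-connected), so `|X| = k - 1`, `x, y ∉ X`. As `X` does not separate in
`G` there is a `G`-connected `Q` meeting `A`, `B`, avoiding `X`; it is not `G'`-connected; so
(exchanging `x` and `y` if necessary) in `G'` minus `X` the component of `x` meets `A` and the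
component of `y` meets `B` (`Q` is the union of the `G'`-components of `x` and `y` in `Q`; one of them
meets `A`, the other meets `B`, and none meets both).
Every `G'`-separator `Y` of `A` and `X ∪ {x}` separates `A` and `B` in `G`: a `G`-connected set `Q`
meeting `A`, `B` and avoiding `Y`: take a minimal connected subset `Q₀` of `Q` that meets `A` and
`X ∪ {x}`; it meets `X ∪ {x}` in one vertex and does not use the edge `x y` [or: let `K` be the
`G'`-component in `Q \ (X ∪ {x})` of a vertex of `A`; ...]. So `|Y| ≥ k` and induction gives `k`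
disjoint `G'`-connected sets meeting `A` and `X ∪ {x}`; each meets `X ∪ {x}` in exactly one vertex
`z`; replace it by a minimal connected subset `P z` that contains `z` and meets `A`; then every
component of `P z \ {z}` meets `A`. In the same way `Q w`, `w ∈ X ∪ {y}`, for `B`.
If `c ∈ P z ∩ Q w`, `c ∉ X`: there are `G'`-connected sets containing `c`, avoiding `X`, one meeting
`A` (the component of `c` in `P z \ {z}`, or `P z` itself if `c = z = x`), one meeting `B`: their union
contradicts that `X` separates in `G'`. So `P z ∩ Q w = ∅` unless `z = w ∈ X`. Take `P z ∪ Q z`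
(`z ∈ X`) and `P x ∪ Q y` (connected in `G`).

You may split this into lemmas as you like. -/
theorem menger [Finite V] (G : SimpleGraph V) (k : ℕ) (A B : Set V)
    (hsep : ∀ X : Set V, (∀ Q, Cn G Q → (Q ∩ A).Nonempty → (Q ∩ B).Nonempty → (Q ∩ X).Nonempty) →
      k ≤ X.ncard) :
    ∃ Q : Fin k → Set V, (∀ i, Cn G (Q i) ∧ (Q i ∩ A).Nonempty ∧ (Q i ∩ B).Nonempty) ∧
      ∀ i j, i ≠ j → Disjoint (Q i) (Q j) := by
  classical
  obtain ⟨n, ⟨e⟩⟩ := Finite.exists_equiv_fin V
  let D : Fin n → Fin n → Prop := fun a b => G.Adj (e.symm a) (e.symm b)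
  let A' : Finset (Fin n) := Finset.univ.filter fun a => e.symm a ∈ A
  let B' : Finset (Fin n) := Finset.univ.filter fun a => e.symm a ∈ B
  have memA : ∀ a, a ∈ A' ↔ e.symm a ∈ A := fun a => by simp [A']
  have memB : ∀ a, a ∈ B' ↔ e.symm a ∈ B := fun a => by simp [B']
  obtain ⟨L⟩ := Pool.Agent.W895653.menger_thm D A' B' k (by
    intro S hS
    have hX : ({v | e v ∈ S} : Set V).ncard = S.card := by
      have h1 : ({v | e v ∈ S} : Set V) = e.symm '' (S : Set (Fin n)) := by
        ext v
        simp only [Set.mem_ofPred_eq, Set.mem_image, Finset.mem_coe]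
        constructor
        · intro h
          exact ⟨e v, h, e.symm_apply_apply v⟩
        · rintro ⟨a, ha, rfl⟩
          rwa [e.apply_symm_apply]
      rw [h1, Set.ncard_image_of_injective _ e.symm.injective, Set.ncard_coe_finset]
    by_contra hcon
    have hk := hsep {v | e v ∈ S} (by
      intro Q hQ hQA hQB
      by_contra hQX
      apply hcon
      have hav : ∀ v ∈ Q, e v ∉ S := fun v hv hvS => hQX ⟨v, hv, hvS⟩
      obtain ⟨a, haQ, haA⟩ := hQA
      obtain ⟨b, hbQ, hbB⟩ := hQB
      refine ⟨e a, (memA _).2 (by rwa [e.symm_apply_apply]), hav a haQ, e b,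
        (memB _).2 (by rwa [e.symm_apply_apply]), hav b hbQ, ?_⟩
      have hsub : Q ⊆ {v | Relation.ReflTransGen (fun x y => D x y ∧ y ∉ S) (e a) (e v)} := by
        refine hQ.subset_of_closed ⟨a, haQ, Relation.ReflTransGen.refl⟩ ?_
        intro u _ hu w hw huw
        refine Relation.ReflTransGen.tail hu ⟨?_, hav w hw⟩
        show G.Adj (e.symm (e u)) (e.symm (e w))
        rw [e.symm_apply_apply, e.symm_apply_apply]
        exact huw
      exact hsub hbQ)
    omega)
  refine ⟨fun i => {v | ∃ m ≤ L.len i, e v = L.p i m}, fun i => ⟨?_, ?_, ?_⟩, ?_⟩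
  · refine cn_of_base (x := e.symm (L.p i 0)) ⟨0, Nat.zero_le _, e.apply_symm_apply _⟩ ?_
    intro T hT h0 hcl
    refine Set.Subset.antisymm hT ?_
    have key : ∀ m, m ≤ L.len i → e.symm (L.p i m) ∈ T := by
      intro m
      induction m with
      | zero => exact fun _ => h0
      | succ m ih =>
        intro hm
        exact hcl _ (ih (by omega)) _ ⟨m + 1, hm, e.apply_symm_apply _⟩ (L.step i m (by omega))
    rintro v ⟨m, hm, hv⟩
    have h1 := key m hm
    rwa [← hv, e.symm_apply_apply] at h1
  · exact ⟨e.symm (L.p i 0), ⟨0, Nat.zero_le _, e.apply_symm_apply _⟩, (memA _).1 (L.start i)⟩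
  · exact ⟨e.symm (L.p i (L.len i)), ⟨L.len i, le_rfl, e.apply_symm_apply _⟩,
      (memB _).1 (L.stop i)⟩
  · intro i j hij
    rw [Set.disjoint_left]
    rintro v ⟨m, hm, hv⟩ ⟨m', hm', hv'⟩
    exact hij (L.inj i m j m' hm hm' (by rw [← hv, hv'])).1

/-- Menger inside a set `U`: apply `menger` to the graph with the edges of `G` inside `U`
(a connected set of this graph that meets `U` lies in `U`, or is a singleton). -/
theorem menger_in [Finite V] (G : SimpleGraph V) (k : ℕ) (U A B : Set V) (hA : A ⊆ U) (hB : B ⊆ U)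
    (hsep : ∀ X : Set V, (∀ Q, Q ⊆ U → Cn G Q → (Q ∩ A).Nonempty → (Q ∩ B).Nonempty →
      (Q ∩ X).Nonempty) → k ≤ X.ncard) :
    ∃ Q : Fin k → Set V, (∀ i, Q i ⊆ U ∧ Cn G (Q i) ∧ (Q i ∩ A).Nonempty ∧ (Q i ∩ B).Nonempty) ∧
      ∀ i j, i ≠ j → Disjoint (Q i) (Q j) := by
  let G' : SimpleGraph V :=
    { Adj := fun a b => G.Adj a b ∧ a ∈ U ∧ b ∈ U
      symm := ⟨fun a b h => ⟨h.1.symm, h.2.2, h.2.1⟩⟩
      loopless := ⟨fun a h => h.1.ne rfl⟩ }
  obtain ⟨Q, hQ, hd⟩ := menger G' k A B (by
    intro X hX
    refine hsep X fun Q hQU hQ hQA hQB => hX Q ?_ hQA hQB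
    exact ⟨hQ.1, fun T hT hne hcl => hQ.2 T hT hne fun a ha b hb hab =>
      hcl a ha b hb ⟨hab, hQU (hT ha), hQU hb⟩⟩)
  refine ⟨Q, fun i => ⟨?_, Cn.mono (G := G') (fun a b h => h.1) (hQ i).1, (hQ i).2.1, (hQ i).2.2⟩, hd⟩
  obtain ⟨a, haQ, haA⟩ := (hQ i).2.1
  exact (hQ i).1.subset_of_closed ⟨a, haQ, hA haA⟩ fun a _ _ b _ hab => hab.2.2

end Pool.MP_4929df_co.H91
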