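import Pool.Agent.W_4929df_h91.DfsBasic
import Pool.Agent.W_4929df_h91.Menger

/-! Step 5 (proofs row 432): deep states are impossible. -/

set_option autoImplicit false

namespace Pool.MP_4929df_co.H91

variable {V : Type*}

private theorem deep_window {l : List V} {a L : ℕ} {v : V} (h : v ∈ (l.drop a).take L) :
    ∃ j, ∃ hj : j < l.length, a ≤ j ∧ j < a + L ∧ l[j] = v := by
  obtain ⟨i, hi, hiv⟩ := List.mem_iff_getElem.1 h
  rw [List.getElem_take, List.getElem_drop] at hiv
  rw [List.length_take, List.length_drop] at hi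
  exact ⟨a + i, by omega, by omega, by omega, hiv⟩

private theorem deep_sep [Finite V] {G : SimpleGraph V} (hG : C3 G) {x y : V} (hxy : x ≠ y)
    {X : Set V} (hX : X.ncard ≤ 1) :
    ∃ Q, Q ⊆ ({x, y} : Set V)ᶜ ∧ Cn G Q ∧
      (Q ∩ {v | v ∈ ({x, y} : Set V)ᶜ ∧ G.Adj x v}).Nonempty ∧
      (Q ∩ {v | v ∈ ({x, y} : Set V)ᶜ ∧ G.Adj v y}).Nonempty ∧ ¬ (Q ∩ X).Nonempty := by
  have hX'c : (X ∩ ({x, y} : Set V)ᶜ).ncard ≤ 1 :=
    (Set.ncard_le_ncard Set.inter_subset_left).trans hX
  set X' : Set V := X ∩ ({x, y} : Set V)ᶜ with hX'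
  have hxX' : x ∉ X' := fun h => h.2 (by simp)
  have hyX' : y ∉ X' := fun h => h.2 (by simp)
  have hne : ((insert x (insert y X') : Set V)ᶜ).Nonempty := by
    rw [Set.nonempty_compl]
    intro e
    have h1 := Set.ncard_insert_le x (insert y X')
    have h2 := Set.ncard_insert_le y X'
    rw [e, Set.ncard_univ] at h1
    have h3 := hG.1
    omega
  obtain ⟨v, hv⟩ := hne
  obtain ⟨Q, hQ, _⟩ := exists_comp G hv
  have hQm : ∀ q ∈ Q, q ≠ x ∧ q ≠ y ∧ q ∉ X' := by
    intro q hq
    have h1 := hQ.1 hq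
    rw [Set.mem_compl_iff, Set.mem_insert_iff, Set.mem_insert_iff, not_or, not_or] at h1
    exact h1
  have hQU : ∀ q, q ≠ x → q ≠ y → q ∉ X' → q ∈ ((insert x (insert y X') : Set V)ᶜ) := by
    intro q h1 h2 h3
    rw [Set.mem_compl_iff, Set.mem_insert_iff, Set.mem_insert_iff, not_or, not_or]
    exact ⟨h1, h2, h3⟩
  have hQ2 : ∀ q ∈ Q, q ∈ ({x, y} : Set V)ᶜ := by
    intro q hq
    have h1 := hQm q hq
    simp [h1.1, h1.2.1]
  refine ⟨Q, hQ2, hQ.2.1, ?_, ?_, ?_⟩
  · have hc := hG.2 (insert y X') (by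
      have := Set.ncard_insert_le y X'
      omega)
    have hsub : Q ⊆ (insert y X')ᶜ := by
      intro q hq
      rw [Set.mem_compl_iff, Set.mem_insert_iff, not_or]
      exact (hQm q hq).2
    have hx : x ∈ (insert y X')ᶜ := by
      rw [Set.mem_compl_iff, Set.mem_insert_iff, not_or]
      exact ⟨hxy, hxX'⟩
    obtain ⟨a, ha, b, hb, hbQ, hab⟩ := hc.exists_adj hsub hQ.2.1.1
      (fun e => (hQm x (by rw [e]; exact hx)).1 rfl)
    have hbx : b = x := by
      by_contra hbx
      rw [Set.mem_compl_iff, Set.mem_insert_iff, not_or] at hb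
      exact hbQ (hQ.2.2 a ha b (hQU b hbx hb.1 hb.2) hab)
    rw [hbx] at hab
    exact ⟨a, ha, hQ2 a ha, hab.symm⟩
  · have hc := hG.2 (insert x X') (by
      have := Set.ncard_insert_le x X'
      omega)
    have hsub : Q ⊆ (insert x X')ᶜ := by
      intro q hq
      rw [Set.mem_compl_iff, Set.mem_insert_iff, not_or]
      exact ⟨(hQm q hq).1, (hQm q hq).2.2⟩
    have hy : y ∈ (insert x X')ᶜ := by
      rw [Set.mem_compl_iff, Set.mem_insert_iff, not_or]
      exact ⟨hxy.symm, hyX'⟩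
    obtain ⟨a, ha, b, hb, hbQ, hab⟩ := hc.exists_adj hsub hQ.2.1.1
      (fun e => (hQm y (by rw [e]; exact hy)).2.1 rfl)
    have hby : b = y := by
      by_contra hby
      rw [Set.mem_compl_iff, Set.mem_insert_iff, not_or] at hb
      exact hbQ (hQ.2.2 a ha b (hQU b hb.1 hby hb.2) hab)
    rw [hby] at hab
    exact ⟨a, ha, hQ2 a ha, hab⟩
  · rintro ⟨q, hq, hqX⟩
    exact (hQm q hq).2.2 ⟨hqX, hQ2 q hq⟩

/-- **Deep states are impossible.** `x ∈ C`, `y = v_1` the last element of `l`, `|l| ≥ L (L + 3)`.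
`menger_in` with `k = 2`, `U = {x,y}ᶜ`, `A = N(x) ∩ U`, `B = N(y) ∩ U`: for `|X| ≤ 1` the components of
`{x,y}ᶜ \ X` are adjacent to `x` and `y` because `V \ (X ∪ {x})` and `V \ (X ∪ {y})` are connected.
Let `C_r ⊇ C` be the component at the state `l.drop (L r)`, `r = 1, ..., L` (`Dfs.drop`); its
neighbourhood is in `(l.drop (L r)).take L`, these windows are disjoint and do not contain `y`; every
path from `N(x)` to `N(y)` together with `x` and `y` is a connected set containing `x ∈ C_r` and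
`y ∉ C_r`, so it meets `Nb G C_r` in a vertex different from `x`, `y`. So `hlong` of `cyc_of_two` holds
with `s = L`. -/
theorem Dfs.not_deep [Finite V] {G : SimpleGraph V} (hG : C3 G) {l : List V} {C : Set V}
    (h : Dfs G l C) {L : ℕ} (hL : 3 ≤ L) (hcyc : ∀ c, Cyc G c → c.length < L) :
    l.length < L * (L + 3) := by
  classical
  by_contra hlen
  push Not at hlen
  have hlen2 : L * L + 3 * L ≤ l.length := by
    calc L * L + 3 * L = L * (L + 3) := by ring
      _ ≤ l.length := hlen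
  have hlne : l ≠ [] := by
    rintro rfl
    rw [List.length_nil] at hlen2
    omega
  have hyl : l.getLast hlne ∈ l := List.getLast_mem hlne
  have hyidx : ∀ hh : l.length - 1 < l.length, l[l.length - 1] = l.getLast hlne :=
    fun hh => (List.getLast_eq_getElem hlne).symm
  set y := l.getLast hlne with hy
  obtain ⟨x, hxC⟩ := h.comp.2.1.1
  have hxl : x ∉ l := h.comp.1 hxC
  have hxy : x ≠ y := fun e => hxl (e ▸ hyl)
  obtain ⟨Q, hQ, hQd⟩ := menger_in G 2 (({x, y} : Set V)ᶜ)
    {v | v ∈ ({x, y} : Set V)ᶜ ∧ G.Adj x v} {v | v ∈ ({x, y} : Set V)ᶜ ∧ G.Adj v y}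
    (fun v hv => hv.1) (fun v hv => hv.1) (by
      intro X hX
      by_contra hX2
      obtain ⟨Q, h1, h2, h3, h4, h5⟩ := deep_sep hG hxy (X := X) (by omega)
      exact h5 (hX Q h1 h2 h3 h4))
  have hxQ : ∀ i, x ∉ Q i := fun i hi => (hQ i).1 hi (by simp)
  have hyQ : ∀ i, y ∉ Q i := fun i hi => (hQ i).1 hi (by simp)
  have hAQ : ∀ i, ∃ c ∈ Q i, G.Adj x c := fun i => by
    obtain ⟨c, hc, hc2⟩ := (hQ i).2.2.1
    exact ⟨c, hc, hc2.2⟩
  have hBQ : ∀ i, ∃ c ∈ Q i, G.Adj c y := fun i => by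
    obtain ⟨c, hc, hc2⟩ := (hQ i).2.2.2
    exact ⟨c, hc, hc2.2⟩
  have hlong : ∀ p : List V, p ≠ [] → p.Nodup → p.IsChain G.Adj → (∀ v ∈ p, v ∈ Q 0) →
      (∀ v ∈ p.head?, G.Adj x v) → (∀ v ∈ p.getLast?, G.Adj v y) → L ≤ p.length := by
    intro p hpne hpnd hpch hpQ hph hpl
    have hP := cn_of_chain hpne hpch
    have hhead : p.head hpne ∈ {v | v ∈ p} := List.head_mem hpne
    have hlast : p.getLast hpne ∈ {v | v ∈ p} := List.getLast_mem hpne
    have hadjx : G.Adj x (p.head hpne) := hph _ (List.head?_eq_some_head hpne)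
    have hadjy : G.Adj (p.getLast hpne) y := hpl _ (List.getLast?_eq_some_getLast hpne)
    have hZ : Cn G (insert y (insert x {v | v ∈ p})) :=
      (hP.insert hhead hadjx.symm).insert (Set.mem_insert_of_mem _ hlast) hadjy
    have key : ∀ r : Fin L, ∃ t j, t ∈ p ∧ ∃ hj : j < l.length,
        L * (r : ℕ) ≤ j ∧ j < L * (r : ℕ) + L ∧ l[j] = t := by
      intro r
      obtain ⟨C', hC', hCC'⟩ := h.drop (L * (r : ℕ))
      have hrL : L * (r : ℕ) + L ≤ L * L := by
        calc L * (r : ℕ) + L = L * ((r : ℕ) + 1) := by ring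
          _ ≤ L * L := Nat.mul_le_mul_left _ r.2
      have hxC' : x ∈ C' := hCC' hxC
      have hyd : y ∈ l.drop (L * (r : ℕ)) := by
        rw [List.mem_iff_getElem]
        refine ⟨l.length - 1 - L * (r : ℕ), by rw [List.length_drop]; omega, ?_⟩
        rw [List.getElem_drop, ← hyidx (by omega)]
        congr 1
        omega
      have hyC' : y ∉ C' := fun hyC' => hC'.comp.1 hyC' hyd
      obtain ⟨a, ha, b, hb, hbn, hab⟩ := hZ.exists_adj
        (A := insert y (insert x {v | v ∈ p}) ∩ C') Set.inter_subset_left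
        ⟨x, Or.inr (Or.inl rfl), hxC'⟩ (fun e => by
          have h1 : y ∈ insert y (insert x {v | v ∈ p}) ∩ C' := by
            rw [e]
            exact Or.inl rfl
          exact hyC' h1.2)
      have hbC' : b ∉ C' := fun hbC' => hbn ⟨hb, hbC'⟩
      have hbN : b ∈ Nb G C' := ⟨hbC', a, ha.2, hab⟩
      have hbw := hC'.window (by omega) hcyc b hbN
      obtain ⟨j, hj, hj1, hj2, hj3⟩ := deep_window hbw
      have hbp : b ∈ p := by
        rcases hb with hb | hb | hb
        · exfalso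
          have h1 := (List.Nodup.getElem_inj_iff h.nodup).1
            ((hj3.trans hb).trans (hyidx (by omega)).symm)
          omega
        · rw [hb] at hbC'
          exact absurd hxC' hbC'
        · exact hb
      exact ⟨b, j, hbp, hj, hj1, hj2, hj3⟩
    choose t j htp hj hj1 hj2 hj3 using key
    have hinj : Function.Injective t := by
      intro r r' hrr
      have hjj : j r = j r' := (List.Nodup.getElem_inj_iff h.nodup).1
        ((hj3 r).trans (hrr.trans (hj3 r').symm))
      by_contra hne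
      have hne' : (r : ℕ) ≠ r' := fun e => hne (Fin.ext e)
      have a1 := hj1 r
      have a2 := hj2 r
      have a3 := hj1 r'
      have a4 := hj2 r'
      rcases lt_or_gt_of_ne hne' with hlt | hlt
      · have h1 : L * ((r : ℕ) + 1) ≤ L * (r' : ℕ) := Nat.mul_le_mul_left _ hlt
        rw [Nat.mul_succ] at h1
        omega
      · have h1 : L * ((r' : ℕ) + 1) ≤ L * (r : ℕ) := Nat.mul_le_mul_left _ hlt
        rw [Nat.mul_succ] at h1
        omega
    have h1 : (Finset.univ.image t).card = L := by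
      rw [Finset.card_image_of_injective _ hinj, Finset.card_univ, Fintype.card_fin]
    have h2 : (Finset.univ.image t).card ≤ p.toFinset.card := by
      refine Finset.card_le_card fun v hv => ?_
      obtain ⟨r, _, rfl⟩ := Finset.mem_image.1 hv
      exact List.mem_toFinset.2 (htp r)
    have h3 := p.toFinset_card_le
    omega
  obtain ⟨c, hc, hcl⟩ := cyc_of_two hxy (hQ 0).2.1 (hQ 1).2.1 (hQd 0 1 (by decide)) (hxQ 0) (hxQ 1)
    (hyQ 0) (hyQ 1) (hAQ 0) (hBQ 0) (hAQ 1) (hBQ 1) L hlong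
  have := hcyc c hc
  omega

end Pool.MP_4929df_co.H91
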