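import Pool.Agent.W_4929df_h91.DfsStep
import Pool.Agent.W_4929df_h91.DfsDeep

/-! Step 5 (proofs row 432): a star. -/

set_option autoImplicit false

namespace Pool.MP_4929df_co.H91

/-- the sizes which allow `j` steps of the search -/
private def dfsSize (M : ℕ) : ℕ → ℕ
  | 0 => 0
  | j + 1 => M * dfsSize M j + 2

private theorem dfs_iter {V : Type} [Finite V] {G : SimpleGraph V} (hG : C3 G) {L k : ℕ}
    (hk : 2 ≤ k) (hL : 2 ≤ L) (hcyc : ∀ c, Cyc G c → c.length < L) (j : ℕ) :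
    ∀ (l : List V) (C : Set V), l ≠ [] → Dfs G l C → dfsSize (k * 2 ^ (L + 1)) j ≤ C.ncard →
      (∃ S T, Star G S k T ∧ S.ncard ≤ L + 1) ∨
        ∃ (l' : List V) (C' : Set V), Dfs G l' C' ∧ l'.length = l.length + j := by
  induction j with
  | zero => exact fun l C _ h _ => Or.inr ⟨l, C, h, rfl⟩
  | succ j ih =>
    intro l C hl h hs
    have hs' : k * 2 ^ (L + 1) * dfsSize (k * 2 ^ (L + 1)) j + 2 ≤ C.ncard := hs
    rcases h.step hG hl hk hL hcyc (by omega) with h1 | ⟨v, C', h', hc⟩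
    · exact Or.inl h1
    · have h2 : dfsSize (k * 2 ^ (L + 1)) j ≤ C'.ncard := by
        by_contra hlt
        have h3 : k * 2 ^ (L + 1) * C'.ncard ≤ k * 2 ^ (L + 1) * dfsSize (k * 2 ^ (L + 1)) j :=
          Nat.mul_le_mul_left _ (by omega)
        omega
      rcases ih (v :: l) C' (by simp) h' h2 with h3 | ⟨l', C'', h4, h5⟩
      · exact Or.inl h3
      · refine Or.inr ⟨l', C'', h4, ?_⟩
        rw [h5, List.length_cons]
        omega

/-- **Step 5.** Iterate `Dfs.step` from `dfs_start`; `Dfs.not_deep` stops it. -/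
theorem exists_star (L k : ℕ) (hL : 3 ≤ L) (hk : 2 ≤ k) : ∃ n1 : ℕ, ∀ (V : Type) [Fintype V]
    (G : SimpleGraph V), C3 G → n1 ≤ Nat.card V → (∀ c, Cyc G c → c.length < L) →
      ∃ S T, Star G S k T ∧ S.ncard ≤ L + 1 := by
  refine ⟨dfsSize (k * 2 ^ (L + 1)) (L * (L + 3)) + 1, fun V _ G hG hn hcyc => ?_⟩
  have hne : Nonempty V := by
    by_contra h
    rw [not_nonempty_iff] at h
    have h1 : Nat.card V = 0 := Nat.card_of_isEmpty
    omega
  obtain ⟨v⟩ := hne
  have h0 := dfs_start hG v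
  have h1 : ({v} : Set V).ncard + ({v}ᶜ : Set V).ncard = Nat.card V :=
    Set.ncard_add_ncard_compl _
  rw [Set.ncard_singleton] at h1
  rcases dfs_iter hG hk (by omega) hcyc (L * (L + 3)) [v] {v}ᶜ (by simp) h0 (by omega) with
    h2 | ⟨l', C', h3, h4⟩
  · exact h2
  · have h5 := h3.not_deep hG hL hcyc
    omega

end Pool.MP_4929df_co.H91
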