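import Pool.Agent.W_4929df_h91.DfsBasic

/-! Step 5 (proofs row 432): one step of the search. -/

set_option autoImplicit false

namespace Pool.MP_4929df_co.H91

variable {V : Type*}

/-- **Step.** In a state with `|C| ≥ 2`, either there is a star with `k` components and `|S| ≤ L + 1`,
or the search goes on with a component `C'` with `|C| ≤ (k 2^(L+1)) |C'| + 1`.
Proof: `v ∈ C` adjacent to the head of `l`; the components `K` of `G[C \ {v}]` are components of
`G - (v :: l)` adjacent to `v`; `Nb G K ⊆ insert v (Nb G C)`, a set with at most `L + 1` elements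
(`Dfs.window`); if there are at least `k 2^(L+1)` of them (so at least 2) each has `|Nb G K| ≥ 3` and
`k` of them have the same neighbourhood; otherwise the largest one has at least
`(|C| - 1) / (k 2^(L+1))` elements. (Assume `1 ≤ k`; if there is only one component there is no
problem, the second alternative holds.) -/
theorem Dfs.step [Finite V] {G : SimpleGraph V} (hG : C3 G) {l : List V} (hl : l ≠ []) {C : Set V}
    (h : Dfs G l C) {L k : ℕ} (hk : 2 ≤ k) (hL : 2 ≤ L) (hcyc : ∀ c, Cyc G c → c.length < L)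
    (h2 : 2 ≤ C.ncard) :
    (∃ S T, Star G S k T ∧ S.ncard ≤ L + 1) ∨
      ∃ v C', Dfs G (v :: l) C' ∧ C.ncard ≤ (k * 2 ^ (L + 1)) * C'.ncard + 1 := by
  classical
  cases nonempty_fintype V
  obtain ⟨v0, t, rfl⟩ : ∃ v0 t, l = v0 :: t := List.exists_cons_of_ne_nil hl
  obtain ⟨v, hvC, hv0v⟩ := h.adj v0 (by simp)
  have hCl : ∀ w ∈ C, w ∉ v0 :: t := fun w hw => h.comp.1 hw
  have hclosed : ∀ a ∈ C, ∀ b, b ∉ v0 :: t → G.Adj a b → b ∈ C := fun a ha b hb hab =>
    h.comp.2.2 a ha b hb hab
  -- the components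
  have hKne : ∀ K, Comp G (C \ {v}) K → K ≠ C := by
    intro K hK hKC
    have : v ∈ K := by
      rw [hKC]
      exact hvC
    exact (hK.1 this).2 rfl
  have hKadj : ∀ K, Comp G (C \ {v}) K → ∃ a ∈ K, G.Adj v a := by
    intro K hK
    obtain ⟨a, ha, b, hb, hbK, hab⟩ := h.comp.2.1.exists_adj
      (hK.1.trans Set.sdiff_subset) hK.2.1.1 (hKne K hK)
    refine ⟨a, ha, ?_⟩
    by_cases hbv : b = v
    · rw [← hbv]
      exact hab.symm
    · exact absurd (hK.2.2 a ha b ⟨hb, hbv⟩ hab) hbK
  have hKdfs : ∀ K, Comp G (C \ {v}) K → Dfs G (v :: v0 :: t) K := by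
    intro K hK
    refine ⟨?_, ?_, ⟨?_, hK.2.1, ?_⟩, ?_⟩
    · rw [List.isChain_cons_cons]
      exact ⟨hv0v.symm, h.chain⟩
    · rw [List.nodup_cons]
      exact ⟨hCl v hvC, h.nodup⟩
    · intro w hw
      have h1 := hK.1 hw
      simp only [Set.mem_setOf_eq, List.mem_cons, not_or]
      have h3 := hCl w h1.1
      simp only [List.mem_cons, not_or] at h3
      exact ⟨h1.2, h3⟩
    · intro a ha b hb hab
      simp only [Set.mem_setOf_eq, List.mem_cons, not_or] at hb
      refine hK.2.2 a ha b ⟨hclosed a (hK.1 ha).1 b ?_ hab, hb.1⟩ hab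
      simp only [List.mem_cons, not_or]
      exact hb.2
    · intro w hw
      simp only [List.head?_cons, Option.mem_def, Option.some.injEq] at hw
      rw [← hw]
      exact hKadj K hK
  set W : Finset V := insert v ((v0 :: t).take L).toFinset with hW
  have hWcard : W.card ≤ L + 1 := by
    refine (Finset.card_insert_le _ _).trans ?_
    have h1 := List.toFinset_card_le ((v0 :: t).take L)
    have h2 : ((v0 :: t).take L).length ≤ L := by
      rw [List.length_take]
      exact min_le_left _ _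
    omega
  have hKnb : ∀ K, Comp G (C \ {v}) K → Nb G K ⊆ (W : Set V) := by
    rintro K hK w ⟨hwK, a, ha, haw⟩
    rw [Finset.mem_coe, hW, Finset.mem_insert, List.mem_toFinset]
    by_cases hwv : w = v
    · exact Or.inl hwv
    · right
      refine h.window hL hcyc w ⟨fun hwC => ?_, a, (hK.1 ha).1, haw⟩
      exact hwK (hK.2.2 a ha w ⟨hwC, hwv⟩ haw)
  set 𝒦 : Finset (Set V) := (Set.toFinite {K | Comp G (C \ {v}) K}).toFinset with h𝒦
  have hmem : ∀ K, K ∈ 𝒦 ↔ Comp G (C \ {v}) K := by
    intro K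
    rw [h𝒦, Set.Finite.mem_toFinset, Set.mem_setOf_eq]
  by_cases hN : k * 2 ^ (L + 1) ≤ 𝒦.card
  · left
    have hpow : 0 < 2 ^ (L + 1) := by positivity
    have hK2 : 2 ≤ 𝒦.card := by nlinarith
    have hK3 : ∀ K ∈ 𝒦, 3 ≤ (Nb G K).ncard := by
      intro K hK
      have hKc := (hmem K).1 hK
      refine hG.three_le_nb hKc.2.1.1 ?_
      obtain ⟨K', hK', hne⟩ := Finset.exists_mem_ne (s := 𝒦) (by omega) K
      have hK'c := (hmem K').1 hK'
      obtain ⟨w, hw⟩ := hK'c.2.1.1
      have hd := hK'c.disjoint hKc hne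
      have hwK : w ∉ K := fun h' => Set.disjoint_left.1 hd hw h'
      refine ⟨w, hwK, ?_⟩
      rintro ⟨_, a, ha, haw⟩
      exact hwK (hKc.2.2 a ha w (hK'c.1 hw) haw)
    have hmaps : ∀ K ∈ 𝒦, (Nb G K).toFinset ∈ W.powerset := by
      intro K hK
      rw [Finset.mem_powerset]
      intro w hw
      have := hKnb K ((hmem K).1 hK) (Set.mem_toFinset.1 hw)
      exact this
    have hcardW : W.powerset.card * k ≤ 𝒦.card := by
      rw [Finset.card_powerset]
      calc 2 ^ W.card * k ≤ 2 ^ (L + 1) * k :=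
            Nat.mul_le_mul_right _ (Nat.pow_le_pow_right (by norm_num) hWcard)
        _ = k * 2 ^ (L + 1) := Nat.mul_comm _ _
        _ ≤ 𝒦.card := hN
    obtain ⟨S, hS, hSk⟩ := Finset.exists_le_card_fiber_of_mul_le_card_of_maps_to hmaps
      ⟨∅, Finset.empty_mem_powerset _⟩ hcardW
    obtain ⟨f⟩ : Nonempty (Fin k ↪ {K // K ∈ 𝒦.filter fun K => (Nb G K).toFinset = S}) := by
      rw [Function.Embedding.nonempty_iff_card_le, Fintype.card_fin, Fintype.card_coe]
      exact hSk
    have hf : ∀ i, (f i).1 ∈ 𝒦 ∧ (Nb G (f i).1).toFinset = S := fun i =>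
      Finset.mem_filter.1 (f i).2
    have hnb : ∀ i, Nb G (f i).1 = (S : Set V) := by
      intro i
      have h1 := congrArg (fun T : Finset V => (T : Set V)) (hf i).2
      simpa using h1
    have hSW : S.card ≤ L + 1 :=
      (Finset.card_le_card (Finset.mem_powerset.1 hS)).trans hWcard
    refine ⟨(S : Set V), fun i => (f i).1, ⟨?_, ?_, ?_, hnb⟩, ?_⟩
    · have h1 := hK3 _ (hf ⟨0, by omega⟩).1
      rwa [hnb] at h1
    · intro i
      exact ((hmem _).1 (hf i).1).2.1
    · intro i j hij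
      refine ((hmem _).1 (hf i).1).disjoint ((hmem _).1 (hf j).1) ?_
      intro h'
      exact hij (f.injective (Subtype.ext h'))
    · rw [Set.ncard_coe_finset]
      exact hSW
  · right
    push Not at hN
    have hnev : (C \ {v}).Nonempty := by
      by_contra hcon
      rw [Set.not_nonempty_iff_eq_empty] at hcon
      have h1 := Set.ncard_sdiff_singleton_add_one hvC
      rw [hcon, Set.ncard_empty] at h1
      omega
    obtain ⟨u, hu⟩ := hnev
    obtain ⟨K1, hK1, _⟩ := exists_comp G hu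
    obtain ⟨K0, hK0, hmax⟩ := Finset.exists_max_image 𝒦 (fun K => K.ncard)
      ⟨K1, (hmem K1).2 hK1⟩
    refine ⟨v, K0, hKdfs K0 ((hmem K0).1 hK0), ?_⟩
    have hcov : (C \ {v}).toFinset ⊆ 𝒦.biUnion fun K => K.toFinset := by
      intro w hw
      rw [Set.mem_toFinset] at hw
      obtain ⟨K, hK, hwK⟩ := exists_comp G hw
      rw [Finset.mem_biUnion]
      exact ⟨K, (hmem K).2 hK, Set.mem_toFinset.2 hwK⟩
    have h1 := (Finset.card_le_card hcov).trans Finset.card_biUnion_le
    have h3 : ∑ K ∈ 𝒦, K.toFinset.card ≤ 𝒦.card * K0.ncard := by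
      rw [← smul_eq_mul]
      refine Finset.sum_le_card_nsmul _ _ _ fun K hK => ?_
      rw [← Set.ncard_eq_toFinset_card']
      exact hmax K hK
    have h4 : (C \ {v}).toFinset.card = (C \ {v}).ncard := by
      rw [Set.ncard_eq_toFinset_card']
    have h5 := Set.ncard_sdiff_singleton_add_one hvC
    rw [h4] at h1
    have h6 : 𝒦.card * K0.ncard ≤ (k * 2 ^ (L + 1)) * K0.ncard :=
      Nat.mul_le_mul_right _ hN.le
    omega

end Pool.MP_4929df_co.H91
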