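import Pool.Agent.W_4929df_h91.FDefs

/-! Dropping isolated vertices. -/

set_option autoImplicit false

namespace Pool.MP_4929df_co.H91

open SimpleGraph

theorem acyclic_induce_iff {V : Type*} {H : SimpleGraph V} {s : Set V} (hs : H.support ⊆ s) :
    (H.induce s).IsAcyclic ↔ H.IsAcyclic := by
  refine ⟨fun h => ?_, fun h => h.induce s⟩
  intro u c hc
  have hsup : ∀ x ∈ c.support, x ∈ s := by
    intro x hx
    apply hs
    rw [Walk.mem_support_iff_exists_mem_edges] at hx
    rcases hx with rfl | ⟨e, he, hxe⟩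
    · cases c with
      | nil => exact absurd rfl hc.ne_nil
      | cons h p => exact ⟨_, h⟩
    · induction e with
      | _ a b =>
        have hab : H.Adj a b := c.edges_subset_edgeSet he
        rw [Sym2.mem_iff] at hxe
        rcases hxe with rfl | rfl
        · exact ⟨_, hab⟩
        · exact ⟨_, hab.symm⟩
  have h1 : ((c.induce s hsup).map (Embedding.induce s).toHom).IsCycle := by
    rw [Walk.map_induce]; exact hc
  exact h _ h1.of_map

/-- isolated vertices can be dropped -/
theorem drop_isolated {E : Type} {m : ℕ} (v : E → (Fin m → GaloisField 2 3)) (D : Set E)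
    {V : Type} [Fintype V] (G : SimpleGraph V) (φ : {e // e ∉ D} ≃ G.edgeSet)
    (hφ : CycleOutside v D G φ) :
    ∃ (V' : Type) (_ : Fintype V') (G' : SimpleGraph V') (φ' : {e // e ∉ D} ≃ G'.edgeSet),
      (∀ x, ∃ y, G'.Adj x y) ∧ CycleOutside v D G' φ' := by
  classical
  let s : Set V := G.support
  let ψ : (G.induce s).edgeSet → G.edgeSet := (Embedding.induce (G := G) s).mapEdgeSet
  have hψ : ∀ e, (ψ e : Sym2 V) = Sym2.map Subtype.val (e : Sym2 s) := fun e => rfl
  have hinj : Function.Injective ψ := (Embedding.induce (G := G) s).mapEdgeSet.injective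
  have hsurj : Function.Surjective ψ := by
    rintro ⟨e, he⟩
    induction e with
    | _ a b =>
      have hab : G.Adj a b := he
      exact ⟨⟨s(⟨a, ⟨b, hab⟩⟩, ⟨b, ⟨a, hab.symm⟩⟩), hab⟩, Subtype.ext rfl⟩
  let ε : (G.induce s).edgeSet ≃ G.edgeSet := Equiv.ofBijective ψ ⟨hinj, hsurj⟩
  have hε : ∀ e : G.edgeSet, (e : Sym2 V) = Sym2.map Subtype.val (ε.symm e : Sym2 s) := by
    intro e
    rw [← hψ]
    exact congrArg Subtype.val (ε.apply_symm_apply e).symm
  refine ⟨s, inferInstance, G.induce s, φ.trans ε.symm, ?_, ?_⟩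
  · rintro ⟨x, y, hxy⟩
    exact ⟨⟨y, ⟨x, hxy.symm⟩⟩, hxy⟩
  · intro S
    rw [hφ S]
    rw [← acyclic_induce_iff (s := s)]
    · have : (fromEdgeSet ((fun e => (φ e : Sym2 V)) '' S)).induce s =
          fromEdgeSet ((fun e => ((φ.trans ε.symm) e : Sym2 s)) '' S) := by
        ext x y
        rw [comap_adj, fromEdgeSet_adj, fromEdgeSet_adj]
        constructor
        · rintro ⟨⟨e, he, hee⟩, hne⟩
          refine ⟨⟨e, he, ?_⟩, fun h => hne (congrArg Subtype.val h)⟩
          apply Sym2.map.injective Subtype.val_injective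
          rw [Sym2.map_mk]
          have := hε (φ e)
          change Sym2.map Subtype.val ((ε.symm (φ e) : (G.induce s).edgeSet) : Sym2 s) = _
          rw [← this]
          exact hee
        · rintro ⟨⟨e, he, hee⟩, hne⟩
          refine ⟨⟨e, he, ?_⟩, fun h => hne (Subtype.ext h)⟩
          have h1 := hε (φ e)
          have h2 : ((ε.symm (φ e) : (G.induce s).edgeSet) : Sym2 s) = s(x, y) := hee
          rw [h2, Sym2.map_mk] at h1
          exact h1
      rw [this]
    · rintro x ⟨y, hxy⟩
      change (fromEdgeSet ((fun e => (φ e : Sym2 V)) '' S)).Adj x y at hxy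
      rw [fromEdgeSet_adj] at hxy
      obtain ⟨⟨e, -, hee⟩, -⟩ := hxy
      have h1 := (φ e).2
      have h2 : (φ e : Sym2 V) = s(x, y) := hee
      rw [h2] at h1
      exact ⟨y, h1⟩

end Pool.MP_4929df_co.H91
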