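import Pool.Agent.W_4929df_h91.Basic

/-! Definition used in the final statements. -/

set_option autoImplicit false

namespace Pool.MP_4929df_co.H91

/-- `M` delete `D` is the cycle matroid of `G`: `v` restricted to the complement of `D` is linearly
independent exactly on the edge sets of forests. -/
def CycleOutside {E : Type} {m : ℕ} (v : E → (Fin m → GaloisField 2 3)) (D : Set E) {V : Type}
    (G : SimpleGraph V) (φ : {e // e ∉ D} ≃ G.edgeSet) : Prop :=
  ∀ S : Set {e // e ∉ D}, LinearIndependent (GaloisField 2 3) (fun s : S => v (s : {e // e ∉ D})) ↔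
    (SimpleGraph.fromEdgeSet ((fun e => (φ e : Sym2 V)) '' S)).IsAcyclic

end Pool.MP_4929df_co.H91
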