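import Pool.Agent.W_4929df_h91.Menger

/-! Step 6 (proofs row 432): fans. -/

set_option autoImplicit false

namespace Pool.MP_4929df_co.H91

variable {V : Type*}

/-- a connected set that meets `S` contains, for each of its elements `c`, a connected subset that
contains `c` and exactly one element of `S` -/
theorem exists_sub_one {G : SimpleGraph V} {Q S : Set V} (hQ : Cn G Q) {c : V} (hc : c ∈ Q)
    (hS : (Q ∩ S).Nonempty) : ∃ (P : Set V) (s : V), Cn G P ∧ P ⊆ Q ∧ c ∈ P ∧ P ∩ S = {s} := by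
  by_cases hcS : c ∈ S
  · exact ⟨{c}, c, cn_singleton G c, by simpa using hc, rfl, by
      ext x
      simp only [Set.mem_inter_iff, Set.mem_singleton_iff]
      exact ⟨fun h => h.1, fun h => ⟨h, h ▸ hcS⟩⟩⟩
  · obtain ⟨K, hK, hcK⟩ := exists_comp G (U := Q \ S) (u := c) ⟨hc, hcS⟩
    obtain ⟨s₀, hs₀Q, hs₀S⟩ := hS
    have hKQ : K ⊆ Q := fun x hx => (hK.1 hx).1
    have hne : K ≠ Q := by
      intro h
      have : s₀ ∈ K := by rw [h]; exact hs₀Q
      exact (hK.1 this).2 hs₀S
    obtain ⟨d, hd, s, hsQ, hsK, hds⟩ := hQ.exists_adj hKQ ⟨c, hcK⟩ hne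
    have hsS : s ∈ S := by
      by_contra h
      exact hsK (hK.2.2 d hd s ⟨hsQ, h⟩ hds)
    refine ⟨insert s K, s, hK.2.1.insert hd hds, Set.insert_subset hsQ hKQ,
      Set.mem_insert_of_mem _ hcK, ?_⟩
    ext x
    simp only [Set.mem_inter_iff, Set.mem_insert_iff, Set.mem_singleton_iff]
    constructor
    · rintro ⟨h | h, hxS⟩
      · exact h
      · exact absurd hxS (hK.1 h).2
    · rintro rfl
      exact ⟨Or.inl rfl, hsS⟩

/-- **Fan.** In a star, `a ∈ T i`: three disjoint connected sets in `(T i \ {a}) ∪ S`, each adjacent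
to `a` and containing exactly one vertex of `S`.
Proof: `menger_in` with `k = 3`, `U = (T i \ {a}) ∪ S`, `A = N(a) ∩ U`, `B = S`. If `|X| ≤ 2` meets all
connected sets in `U` that meet `A` and `B`, let `D` be the component of `a` in `G[(T i ∪ S) \ X']`
with `X' = X \ {a}`: it contains no vertex of `S` (a component of `D \ {a}` containing one is adjacent
to `a`, or `a` is adjacent to it), so `D ⊆ T i` and `Nb G D ⊆ X'` has at most 2 elements, but
`S \ X' ≠ ∅` is outside `D ∪ Nb G D`: `C3.three_le_nb`. Then replace each set by a minimal connected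
subset that is adjacent to `a` and meets `S`; it contains exactly one vertex of `S`. -/
theorem Star.fan [Finite V] {G : SimpleGraph V} (hG : C3 G) {S : Set V} {k : ℕ}
    {T : Fin k → Set V} (h : Star G S k T) (i : Fin k) {a : V} (ha : a ∈ T i) :
    ∃ (Q : Fin 3 → Set V) (s : Fin 3 → V), (∀ j, Cn G (Q j) ∧ Q j ⊆ (T i \ {a}) ∪ S ∧
      (∃ c ∈ Q j, G.Adj a c) ∧ Q j ∩ S = {s j}) ∧ ∀ j j', j ≠ j' → Disjoint (Q j) (Q j') := by
  have hTS : ∀ x ∈ T i, x ∉ S := by
    intro x hx hxS
    rw [← h.nb i] at hxS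
    exact hxS.1 hx
  obtain ⟨Q, hQ, hQd⟩ := menger_in G 3 ((T i \ {a}) ∪ S) {c | c ∈ (T i \ {a}) ∪ S ∧ G.Adj a c} S
    (fun c hc => hc.1) Set.subset_union_right (by
      intro X hX
      by_contra hlt
      push Not at hlt
      obtain ⟨D, hD, haD⟩ := exists_comp G (U := (T i ∪ S) \ (X \ {a})) (u := a)
        ⟨Or.inl ha, fun h => h.2 rfl⟩
      have hDS : ∀ x ∈ D, x ∉ S := by
        intro s hs hsS
        have hsa : s ≠ a := fun h' => hTS a ha (h' ▸ hsS)
        obtain ⟨K, hK, hsK⟩ := exists_comp G (U := D \ {a}) (u := s) ⟨hs, hsa⟩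
        have hKD : K ⊆ D := fun x hx => (hK.1 hx).1
        have haK : a ∉ K := fun h' => (hK.1 h').2 rfl
        have hne : K ≠ D := fun h' => haK (h' ▸ haD)
        obtain ⟨c, hc, b, hb, hbK, hcb⟩ := hD.2.1.exists_adj hKD ⟨s, hsK⟩ hne
        have hba : b = a := by
          by_contra h'
          exact hbK (hK.2.2 c hc b ⟨hb, h'⟩ hcb)
        have hKU : K ⊆ (T i \ {a}) ∪ S := by
          intro x hx
          have h1 := hD.1 (hKD hx)
          rcases h1.1 with h2 | h2
          · exact Or.inl ⟨h2, (hK.1 hx).2⟩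
          · exact Or.inr h2
        obtain ⟨x, hxK, hxX⟩ := hX K hKU hK.2.1
          ⟨c, hc, hKU hc, hba ▸ hcb.symm⟩ ⟨s, hsK, hsS⟩
        have h1 := hD.1 (hKD hxK)
        exact h1.2 ⟨hxX, (hK.1 hxK).2⟩
      have hDT : D ⊆ T i := by
        intro x hx
        rcases (hD.1 hx).1 with h1 | h1
        · exact h1
        · exact absurd h1 (hDS x hx)
      have hNb : Nb G D ⊆ X := by
        rintro v ⟨hvD, c, hc, hcv⟩
        have hvU : v ∈ T i ∪ S := by
          by_cases hvT : v ∈ T i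
          · exact Or.inl hvT
          · right
            rw [← h.nb i]
            exact ⟨hvT, c, hDT hc, hcv⟩
        by_contra hvX
        exact hvD (hD.2.2 c hc v ⟨hvU, fun h' => hvX h'.1⟩ hcv)
      obtain ⟨s, hsS, hsX⟩ : ∃ s ∈ S, s ∉ X := by
        by_contra hcon
        push Not at hcon
        have := Set.ncard_le_ncard (show S ⊆ X from hcon) (Set.toFinite _)
        have := h.three
        omega
      have h3 := hG.three_le_nb (K := D) ⟨a, haD⟩ ⟨s, fun h' => hDS s h' hsS, fun h' => hsX (hNb h')⟩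
      have h4 := Set.ncard_le_ncard hNb (Set.toFinite _)
      omega)
  choose hQU hQc hQA hQS using hQ
  choose c hcQ hcA using hQA
  choose P s hPc hPQ hcP hPs using fun j => exists_sub_one (hQc j) (hcQ j) (hQS j)
  refine ⟨P, s, fun j => ⟨hPc j, (hPQ j).trans (hQU j), ⟨c j, hcP j, (hcA j).2⟩, hPs j⟩, ?_⟩
  intro j j' hj
  exact (hQd j j' hj).mono (hPQ j) (hPQ j')

end Pool.MP_4929df_co.H91
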