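import Pool.Agent.W_4929df_h91.Bridge

/-! Step 0 (proofs row 432): closures. -/

set_option autoImplicit false

namespace Pool.MP_4929df_co.H91

/-- a subset of `H` of maximal size that is linearly independent; everything in `H`
is in the span -/
theorem exists_li_base {E : Type*} [Finite E] {K M : Type*} [Field K] [AddCommGroup M] [Module K M]
    (v : E → M) (H : Set E) :
    ∃ S ⊆ H, LinearIndepOn K v S ∧ ∀ e ∈ H, v e ∈ Submodule.span K (v '' S) := by
  obtain ⟨S, ⟨hS1, hS2⟩, hmax⟩ := Set.exists_max_image
    {S : Set E | S ⊆ H ∧ LinearIndepOn K v S} Set.ncard (Set.toFinite _)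
    ⟨∅, by simp⟩
  refine ⟨S, hS1, hS2, fun e he => ?_⟩
  by_contra hcon
  have heS : e ∉ S := fun h => hcon (Submodule.subset_span ⟨e, h, rfl⟩)
  have h1 : LinearIndepOn K v (insert e S) := (linearIndepOn_insert heS).2 ⟨hS2, hcon⟩
  have h2 := hmax (insert e S) ⟨Set.insert_subset he hS1, h1⟩
  rw [Set.ncard_insert_of_notMem heS (Set.toFinite _)] at h2
  omega

theorem span_eq_of_base {E : Type*} {K M : Type*} [Field K] [AddCommGroup M] [Module K M]
    (v : E → M) {H S : Set E} (hS : S ⊆ H) (h : ∀ e ∈ H, v e ∈ Submodule.span K (v '' S)) :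
    Submodule.span K (v '' H) = Submodule.span K (v '' S) := by
  refine le_antisymm (Submodule.span_le.2 ?_) (Submodule.span_mono (Set.image_mono hS))
  rintro _ ⟨e, he, rfl⟩
  exact h e he

/-- the span of the vectors of a set is determined by the matroid: if `w` and `w'` have the same
linearly independent sets then they have the same closures. (Take `S ⊆ H` maximal with `w|S`
linearly independent; then `w e ∈ span (w '' H)` iff `e ∈ S` or `S ∪ {e}` is dependent.) -/
theorem span_transfer {K : Type*} [Field K] {M M' : Type*} [AddCommGroup M] [Module K M]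
    [AddCommGroup M'] [Module K M'] {E : Type*} [Finite E] (w : E → M) (w' : E → M')
    (h : ∀ S : Set E, LinearIndependent K (fun s : S => w s) ↔ LinearIndependent K (fun s : S => w' s))
    (H : Set E) (e : E) (he : w e ∈ Submodule.span K (w '' H)) :
    w' e ∈ Submodule.span K (w' '' H) := by
  obtain ⟨S, hSH, hS, hS2⟩ := exists_li_base (K := K) w H
  rw [span_eq_of_base w hSH hS2] at he
  refine Submodule.span_mono (Set.image_mono hSH) ?_
  by_cases heS : e ∈ S
  · exact Submodule.subset_span ⟨e, heS, rfl⟩
  · by_contra hcon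
    have h1 : LinearIndepOn K w' (insert e S) := (linearIndepOn_insert heS).2 ⟨(h S).1 hS, hcon⟩
    have h2 : LinearIndepOn K w (insert e S) := (h _).2 h1
    exact ((linearIndepOn_insert heS).1 h2).2 he

theorem fromEdgeSet_insert {V : Type*} {G : SimpleGraph V} (S : Set G.edgeSet) {x y : V}
    (hxy : G.Adj x y) :
    SimpleGraph.fromEdgeSet (Subtype.val '' (insert (⟨s(x, y), hxy⟩ : G.edgeSet) S)) =
      SimpleGraph.fromEdgeSet (Subtype.val '' S) ⊔ SimpleGraph.edge x y := by
  rw [Set.image_insert_eq, SimpleGraph.edge, ← SimpleGraph.fromEdgeSet_union, Set.union_singleton]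

/-- closure in the cycle matroid: `w e` is in the span of `w '' H` iff the ends of `e` are connected
by `H`. (Take `S ⊆ H` maximal acyclic; by maximality the ends of every edge of `H` are connected by
`S` (`SimpleGraph.isAcyclic_sup_fromEdgeSet_iff` or similar), so `S` and `H` have the same reachable
pairs; if the ends of `e` are not connected by `S` then `S ∪ {e}` is acyclic, hence independent; if
they are connected, and `e ∉ S`, then `S ∪ {e}` contains a cycle, hence is dependent and
`w e ∈ span (w '' S)`; in particular `span (w '' H) = span (w '' S)`.) -/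
theorem mem_span_iff_reachable {K : Type*} [Field K] {M : Type*} [AddCommGroup M] [Module K M]
    {V : Type*} [Finite V] {G : SimpleGraph V} (w : G.edgeSet → M)
    (hind : ∀ S : Set G.edgeSet, LinearIndependent K (fun s : S => w s) ↔
      (SimpleGraph.fromEdgeSet (Subtype.val '' S)).IsAcyclic)
    (H : Set G.edgeSet) {x y : V} (hxy : G.Adj x y) :
    w ⟨s(x, y), hxy⟩ ∈ Submodule.span K (w '' H) ↔
      (SimpleGraph.fromEdgeSet (Subtype.val '' H)).Reachable x y := by
  have hfin : Finite G.edgeSet := Subtype.finite
  obtain ⟨S, hSH, hS, hS2⟩ := exists_li_base (K := K) w H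
  -- the criterion for the independent set `S`
  have key : ∀ {a b : V} (hab : G.Adj a b), w ⟨s(a, b), hab⟩ ∈ Submodule.span K (w '' S) ↔
      (SimpleGraph.fromEdgeSet (Subtype.val '' S)).Reachable a b := by
    intro a b hab
    by_cases heS : (⟨s(a, b), hab⟩ : G.edgeSet) ∈ S
    · refine ⟨fun _ => ?_, fun _ => Submodule.subset_span ⟨_, heS, rfl⟩⟩
      refine SimpleGraph.Adj.reachable ?_
      rw [SimpleGraph.fromEdgeSet_adj]
      exact ⟨⟨_, heS, rfl⟩, hab.ne⟩
    · have h1 := (linearIndepOn_insert (K := K) (f := w) heS)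
      have h2 : LinearIndepOn K w (insert (⟨s(a, b), hab⟩ : G.edgeSet) S) ↔
          (SimpleGraph.fromEdgeSet (Subtype.val '' S) ⊔ SimpleGraph.edge a b).IsAcyclic := by
        rw [← fromEdgeSet_insert]
        exact hind _
      rw [h2, SimpleGraph.isAcyclic_sup_fromEdgeSet_iff] at h1
      have hac : (SimpleGraph.fromEdgeSet (Subtype.val '' S)).IsAcyclic := (hind S).1 hS
      have hnadj : ¬ (SimpleGraph.fromEdgeSet (Subtype.val '' S)).Adj a b := by
        rw [SimpleGraph.fromEdgeSet_adj]
        rintro ⟨⟨e, he, hee⟩, -⟩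
        exact heS (by rwa [show (⟨s(a, b), hab⟩ : G.edgeSet) = e from Subtype.ext hee.symm])
      constructor
      · intro hmem
        by_contra hr
        exact (h1.1 ⟨hac, fun h => absurd h hr⟩).2 hmem
      · intro hr
        by_contra hmem
        rcases (h1.2 ⟨hS, hmem⟩).2 hr with h | h
        · exact hab.ne h
        · exact hnadj h
  rw [span_eq_of_base w hSH hS2, key hxy]
  constructor
  · exact fun h => h.mono (SimpleGraph.fromEdgeSet_mono (Set.image_mono hSH))
  · intro hr
    refine hr.elim fun p => ?_
    clear hr hxy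
    induction p with
    | nil => exact SimpleGraph.Reachable.refl _
    | @cons a b c hab p ih =>
      have hadj : G.Adj a b := by
        rw [SimpleGraph.fromEdgeSet_adj] at hab
        obtain ⟨⟨e, -, hee⟩, -⟩ := hab
        have := e.2
        rw [hee] at this
        exact this
      have h1 : (SimpleGraph.fromEdgeSet (Subtype.val '' S)).Reachable a b := by
        rw [← key hadj]
        refine hS2 _ ?_
        rw [SimpleGraph.fromEdgeSet_adj] at hab
        obtain ⟨⟨e, he, hee⟩, -⟩ := hab
        rwa [show (⟨s(a, b), hadj⟩ : G.edgeSet) = e from Subtype.ext hee.symm]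
      exact h1.trans ih

end Pool.MP_4929df_co.H91
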