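import Pool.Agent.W_4929df_h91.FDefs
import Pool.Agent.W_4929df_h91.RepSpan

/-! 4-connected matroids. -/

set_option autoImplicit false

namespace Pool.MP_4929df_co.H91

/-- forests inside `W` have at most `|W| - 1` edges -/
theorem four_forest {V : Type} [Finite V] (F : Set (Sym2 V)) (hd : ∀ e ∈ F, ¬ e.IsDiag)
    (W : Set V) (hW : W.Nonempty) (hFW : ∀ e ∈ F, ∀ x ∈ e, x ∈ W)
    (hF : (SimpleGraph.fromEdgeSet F).IsAcyclic) : F.ncard + 1 ≤ W.ncard := by
  classical
  have hH : ((SimpleGraph.fromEdgeSet F).induce W).IsAcyclic := hF.induce W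
  have : Nonempty W := hW.to_subtype
  obtain ⟨T, hHT, -, hT⟩ :=
    (SimpleGraph.connected_top (V := W)).exists_isTree_le_of_le_of_isAcyclic le_top hH
  have h1 := (SimpleGraph.isTree_iff_connected_and_card.1 hT).2
  have h2 : F.ncard ≤ T.edgeSet.ncard := by
    have h3 : F ⊆ (Sym2.map Subtype.val) '' T.edgeSet := by
      intro e he
      induction e using Sym2.ind with
      | _ x y =>
        have hx := hFW _ he x (Sym2.mem_mk_left x y)
        have hy := hFW _ he y (Sym2.mem_mk_right x y)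
        refine ⟨s(⟨x, hx⟩, ⟨y, hy⟩), ?_, by simp⟩
        have hne : x ≠ y := by
          intro h
          exact hd _ he (by rw [h]; exact Sym2.mk_isDiag_iff.2 rfl)
        have : ((SimpleGraph.fromEdgeSet F).induce W).Adj ⟨x, hx⟩ ⟨y, hy⟩ := by
          simp only [SimpleGraph.comap_adj, Function.Embedding.subtype_apply,
            SimpleGraph.fromEdgeSet_adj]
          exact ⟨he, hne⟩
        exact hHT this
    exact (Set.ncard_le_ncard h3 (Set.toFinite _)).trans (Set.ncard_image_le (Set.toFinite _))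
  have h4 : Nat.card T.edgeSet = T.edgeSet.ncard := rfl
  have h5 : Nat.card W = W.ncard := rfl
  omega

/-- an edge set contains a forest of the size of its rank -/
theorem four_exists {E : Type} [Fintype E] {m : ℕ} (v : E → (Fin m → (GaloisField 2 3))) (e₀ : E) {V : Type}
    [Fintype V] (G : SimpleGraph V) (φ : {e // e ∉ ({e₀} : Set E)} ≃ G.edgeSet)
    (hφ : CycleOutside v {e₀} G φ) (X : Set E) (hX : e₀ ∉ X) :
    ∃ F : Set (Sym2 V), (∀ z ∈ F, ∃ e ∈ X, ∃ h, (φ ⟨e, h⟩ : Sym2 V) = z) ∧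
      (SimpleGraph.fromEdgeSet F).IsAcyclic ∧
      F.ncard = Module.finrank (GaloisField 2 3) (Submodule.span (GaloisField 2 3) (v '' X)) := by
  classical
  obtain ⟨κ, a, ha, hsp, hli⟩ := exists_linearIndependent' (GaloisField 2 3) (fun x : X => v x)
  have hne : ∀ k, (a k : E) ∉ ({e₀} : Set E) := by
    intro k h
    rw [Set.mem_singleton_iff] at h
    exact hX (h ▸ (a k).2)
  let g : κ → {e // e ∉ ({e₀} : Set E)} := fun k => ⟨a k, hne k⟩
  have hg : Function.Injective g := by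
    intro k k' h
    apply ha
    apply Subtype.ext
    exact congrArg (fun z : {e // e ∉ ({e₀} : Set E)} => (z : E)) h
  have hS : LinearIndependent (GaloisField 2 3) (fun s : Set.range g => v (s : {e // e ∉ ({e₀} : Set E)})) := by
    have := (linearIndependent_equiv (R := (GaloisField 2 3)) (Equiv.ofInjective g hg)
      (f := fun s : Set.range g => v (s : {e // e ∉ ({e₀} : Set E)})))
    rw [← this]
    exact hli
  refine ⟨(fun e => (φ e : Sym2 V)) '' (Set.range g), ?_, (hφ _).1 hS, ?_⟩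
  · rintro z ⟨_, ⟨k, rfl⟩, rfl⟩
    exact ⟨a k, (a k).2, hne k, rfl⟩
  · rw [Set.ncard_image_of_injective (Set.range g) (f := fun e => (φ e : Sym2 V))
      (fun a b h => φ.injective (Subtype.ext h))]
    have : Finite κ := Finite.of_injective a ha
    have := Fintype.ofFinite κ
    have h1 : Module.finrank (GaloisField 2 3) (Submodule.span (GaloisField 2 3) (Set.range ((fun x : X => v x) ∘ a))) =
        Fintype.card κ := finrank_span_eq_card hli
    have h2 : (Set.range fun x : X => v x) = v '' X := by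
      ext z; simp
    rw [hsp, h2] at h1
    rw [h1, ← Set.image_univ, Set.ncard_image_of_injective _ hg, Set.ncard_univ,
      Nat.card_eq_fintype_card]

/-- a forest of edges of `X` has at most the size of the rank of `X` -/
theorem four_lower {E : Type} [Fintype E] {m : ℕ} (v : E → (Fin m → (GaloisField 2 3))) (e₀ : E) {V : Type}
    [Fintype V] (G : SimpleGraph V) (φ : {e // e ∉ ({e₀} : Set E)} ≃ G.edgeSet)
    (hφ : CycleOutside v {e₀} G φ) (X : Set E) (F : Set (Sym2 V))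
    (hFX : ∀ z ∈ F, ∃ e ∈ X, ∃ h, (φ ⟨e, h⟩ : Sym2 V) = z)
    (hF : (SimpleGraph.fromEdgeSet F).IsAcyclic) :
    F.ncard ≤ Module.finrank (GaloisField 2 3) (Submodule.span (GaloisField 2 3) (v '' X)) := by
  classical
  let S : Set {e // e ∉ ({e₀} : Set E)} := {e | (φ e : Sym2 V) ∈ F}
  have hFS : F = (fun e => (φ e : Sym2 V)) '' S := by
    ext z
    constructor
    · intro hz
      obtain ⟨e, -, h, h2⟩ := hFX z hz
      exact ⟨⟨e, h⟩, by change _ ∈ F; rw [h2]; exact hz, h2⟩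
    · rintro ⟨e, he, rfl⟩
      exact he
  have hSX : ∀ e ∈ S, (e : E) ∈ X := by
    intro e he
    obtain ⟨e', he', h, h2⟩ := hFX _ he
    have : (⟨e', h⟩ : {e // e ∉ ({e₀} : Set E)}) = e := φ.injective (Subtype.ext h2)
    rw [← this]
    exact he'
  have hli : LinearIndependent (GaloisField 2 3) (fun s : S => v (s : {e // e ∉ ({e₀} : Set E)})) := by
    rw [hφ S, ← hFS]
    exact hF
  have h1 : F.ncard = S.ncard := by
    rw [hFS]
    exact Set.ncard_image_of_injective S (f := fun e => (φ e : Sym2 V))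
      (fun a b h => φ.injective (Subtype.ext h))
  have := Fintype.ofFinite S
  have h2 := finrank_span_eq_card hli
  rw [h1, ← Nat.card_coe_set_eq, Nat.card_eq_fintype_card, ← h2]
  apply Submodule.finrank_mono
  apply Submodule.span_mono
  rintro _ ⟨s, rfl⟩
  exact ⟨_, hSX s s.2, rfl⟩

/-- rank of an edge set inside `W` -/
theorem four_upper {E : Type} [Fintype E] {m : ℕ} (v : E → (Fin m → (GaloisField 2 3))) (e₀ : E) {V : Type}
    [Fintype V] (G : SimpleGraph V) (φ : {e // e ∉ ({e₀} : Set E)} ≃ G.edgeSet)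
    (hφ : CycleOutside v {e₀} G φ) (X : Set E) (W : Set V) (hW : W.Nonempty)
    (hX : ∀ e ∈ X, ∃ h : e ∉ ({e₀} : Set E), ∀ x ∈ (φ ⟨e, h⟩ : Sym2 V), x ∈ W) :
    Module.finrank (GaloisField 2 3) (Submodule.span (GaloisField 2 3) (v '' X)) + 1 ≤ W.ncard := by
  have h0 : e₀ ∉ X := by
    intro h
    obtain ⟨h1, -⟩ := hX _ h
    exact h1 rfl
  obtain ⟨F, h1, h2, h3⟩ := four_exists v e₀ G φ hφ X h0
  rw [← h3]
  refine four_forest F ?_ W hW ?_ h2
  · intro z hz
    obtain ⟨e, -, h, rfl⟩ := h1 z hz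
    exact G.not_isDiag_of_mem_edgeSet (φ ⟨e, h⟩).2
  · intro z hz x hx
    obtain ⟨e, he, h, rfl⟩ := h1 z hz
    obtain ⟨h', h''⟩ := hX e he
    exact h'' x hx

/-- the union of two forests on disjoint vertex sets -/
theorem four_union {V : Type} (F₁ F₂ : Set (Sym2 V)) (A : Set V)
    (h₁ : ∀ e ∈ F₁, ∀ x ∈ e, x ∈ A) (h₂ : ∀ e ∈ F₂, ∀ x ∈ e, x ∉ A)
    (hF₁ : (SimpleGraph.fromEdgeSet F₁).IsAcyclic) (hF₂ : (SimpleGraph.fromEdgeSet F₂).IsAcyclic) :
    (SimpleGraph.fromEdgeSet (F₁ ∪ F₂)).IsAcyclic := by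
  have key : ∀ (F₁ F₂ : Set (Sym2 V)) (A : Set V)
    (h₁ : ∀ e ∈ F₁, ∀ x ∈ e, x ∈ A) (h₂ : ∀ e ∈ F₂, ∀ x ∈ e, x ∉ A)
    (hF₁ : (SimpleGraph.fromEdgeSet F₁).IsAcyclic) (x y : V) (hne : x ≠ y) (hxy : s(x, y) ∈ F₁),
    ¬ (SimpleGraph.fromEdgeSet ((F₁ ∪ F₂) \ {s(x, y)})).Reachable x y := by
    intro F₁ F₂ A h₁ h₂ hF₁ x y hne hxy hr
    have hb : (SimpleGraph.fromEdgeSet F₁).IsBridge s(x, y) :=
      (SimpleGraph.isAcyclic_iff_forall_adj_isBridge.1 hF₁)
        ((SimpleGraph.fromEdgeSet_adj _).2 ⟨hxy, hne⟩)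
    rw [SimpleGraph.isBridge_iff] at hb
    have hb2 : ¬ (SimpleGraph.fromEdgeSet (F₁ \ {s(x, y)})).Reachable x y := by
      intro h
      apply hb
      refine h.mono ?_
      intro a b hab
      rw [SimpleGraph.fromEdgeSet_adj] at hab
      rw [SimpleGraph.deleteEdges_adj, SimpleGraph.fromEdgeSet_adj]
      exact ⟨⟨hab.1.1, hab.2⟩, hab.1.2⟩
    refine not_reachable_of_closed
      (X := {z | z ∈ A ∧ (SimpleGraph.fromEdgeSet (F₁ \ {s(x, y)})).Reachable x z}) ?_ ?_ ?_ hr
    · rintro a b ⟨hab | hab, hne2⟩ ⟨ha1, ha2⟩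
      · refine ⟨h₁ _ hab b (Sym2.mem_mk_right a b), ?_⟩
        by_cases hab3 : a = b
        · rw [← hab3]; exact ha2
        · refine ha2.trans (SimpleGraph.Adj.reachable ?_)
          rw [SimpleGraph.fromEdgeSet_adj]
          exact ⟨⟨hab, hne2⟩, hab3⟩
      · exact absurd ha1 (h₂ _ hab a (Sym2.mem_mk_left a b))
    · exact ⟨h₁ _ hxy x (Sym2.mem_mk_left x y), SimpleGraph.Reachable.refl _⟩
    · rintro ⟨-, h⟩
      exact hb2 h
  rw [SimpleGraph.isAcyclic_iff_forall_adj_isBridge]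
  intro x y hxy
  rw [SimpleGraph.fromEdgeSet_adj] at hxy
  obtain ⟨hxy, hne⟩ := hxy
  rw [SimpleGraph.isBridge_iff]
  intro hr
  have hr2 : (SimpleGraph.fromEdgeSet ((F₁ ∪ F₂) \ {s(x, y)})).Reachable x y := by
    refine hr.mono ?_
    intro a b hab
    rw [SimpleGraph.deleteEdges_adj, SimpleGraph.fromEdgeSet_adj] at hab
    rw [SimpleGraph.fromEdgeSet_adj]
    exact ⟨⟨hab.1.1, hab.2⟩, hab.1.2⟩
  rcases hxy with h | h
  · exact key F₁ F₂ A h₁ h₂ hF₁ x y hne h hr2
  · refine key F₂ F₁ Aᶜ (fun e he x hx => h₂ e he x hx) (fun e he x hx h => h (h₁ e he x hx)) hF₂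
      x y hne h ?_
    rw [Set.union_comm]
    exact hr2

/-- a 4-connected matroid with at least 8 elements and `M` delete `e₀` graphic: the graph (without
isolated vertices) is 3-connected. -/
theorem c3_of_four {E : Type} [Fintype E] (m : ℕ) (v : E → (Fin m → GaloisField 2 3))
    (h4 : ∀ X : Set E, ∀ j : ℕ, j < 4 → j ≤ X.ncard → j ≤ Xᶜ.ncard →
      Module.finrank (GaloisField 2 3) (Submodule.span (GaloisField 2 3) (Set.range v)) + j ≤
        Module.finrank (GaloisField 2 3) (Submodule.span (GaloisField 2 3) (v '' X)) +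
        Module.finrank (GaloisField 2 3) (Submodule.span (GaloisField 2 3) (v '' Xᶜ)))
    (h8 : 8 ≤ Fintype.card E) (e₀ : E) (V : Type) [Fintype V] (G : SimpleGraph V)
    (hiso : ∀ x, ∃ y, G.Adj x y) (φ : {e // e ∉ ({e₀} : Set E)} ≃ G.edgeSet)
    (hφ : CycleOutside v {e₀} G φ) : C3 G := by
  classical
  have hcE : ∀ X : Set E, X.ncard + Xᶜ.ncard = Fintype.card E := by
    intro X
    rw [Set.ncard_add_ncard_compl, Nat.card_eq_fintype_card]
  obtain ⟨r, hr⟩ : ∃ r : Set E → ℕ, ∀ X : Set E,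
      Module.finrank (GaloisField 2 3) (Submodule.span (GaloisField 2 3) (v '' X)) = r X :=
    ⟨_, fun X => rfl⟩
  have hrE : Module.finrank (GaloisField 2 3) (Submodule.span (GaloisField 2 3) (Set.range v)) =
      r Set.univ := by rw [← hr, Set.image_univ]
  have hmono : ∀ X Y : Set E, X ⊆ Y → r X ≤ r Y := by
    intro X Y h
    rw [← hr, ← hr]
    exact Submodule.finrank_mono (Submodule.span_mono (Set.image_mono h))
  have hcard : ∀ X : Set E, r X ≤ X.ncard := by
    intro X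
    rw [← hr]
    have h1 := finrank_span_le_card (R := (GaloisField 2 3)) (v '' X)
    rw [Set.toFinset_card, ← Nat.card_eq_fintype_card, Nat.card_coe_set_eq] at h1
    exact h1.trans (Set.ncard_image_le (Set.toFinite _))
  have hins : ∀ (X : Set E) (e : E), r (insert e X) ≤ r X + 1 := by
    intro X e
    rw [← hr, ← hr, Set.image_insert_eq, Submodule.span_insert]
    refine (Submodule.finrank_add_le_finrank_add_finrank _ _).trans ?_
    have := finrank_span_le_card (R := (GaloisField 2 3)) ({v e} : Set (Fin m → (GaloisField 2 3)))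
    simp only [Set.toFinset_singleton, Finset.card_singleton] at this
    omega
  have h4' : ∀ X : Set E, ∀ j : ℕ, j < 4 → j ≤ X.ncard → j ≤ Xᶜ.ncard →
      r Set.univ + j ≤ r X + r Xᶜ := by
    intro X j h1 h2 h3
    have := h4 X j h1 h2 h3
    rwa [hrE, hr, hr] at this
  have hcompl : ∀ X : Set E, e₀ ∉ X → (insert e₀ X)ᶜ.ncard + X.ncard + 1 = Fintype.card E ∧
      Xᶜ = insert e₀ (insert e₀ X)ᶜ := by
    intro X h0
    have h1 := hcE (insert e₀ X)
    rw [Set.ncard_insert_of_notMem h0] at h1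
    refine ⟨by omega, ?_⟩
    ext e
    by_cases he : e = e₀
    · rw [he]; simp [h0]
    · simp [he]
  -- the two consequences of 4-connectedness
  have sep : ∀ X : Set E, e₀ ∉ X → ∀ j < 4, j ≤ X.ncard → j ≤ (insert e₀ X)ᶜ.ncard + 1 →
      r Set.univ + j ≤ r X + r (insert e₀ X)ᶜ + 1 := by
    intro X h0 j hj h1 h2
    obtain ⟨h3, h5⟩ := hcompl X h0
    have h6 : Xᶜ.ncard = (insert e₀ X)ᶜ.ncard + 1 := by
      have := hcE X
      omega
    have h7 := h4' X j hj h1 (by omega)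
    have h8 : r Xᶜ ≤ r (insert e₀ X)ᶜ + 1 := by
      rw [h5]; exact hins _ _
    omega
  have small : ∀ X : Set E, e₀ ∉ X → X.ncard ≤ 2 → r Set.univ ≤ r (insert e₀ X)ᶜ := by
    intro X h0 h2
    obtain ⟨h3, h5⟩ := hcompl X h0
    have h6 : (insert e₀ X).ncard = X.ncard + 1 := Set.ncard_insert_of_notMem h0
    have h7 := h4' (insert e₀ X) (X.ncard + 1) (by omega) (by omega) (by omega)
    have h8 := hcard (insert e₀ X)
    omega
  -- vertices
  have hnV : 5 ≤ Fintype.card V := by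
    by_contra hlt
    have h1 := G.card_edgeFinset_le_card_choose_two
    have h2 : Fintype.card G.edgeSet + 1 = Fintype.card E := by
      have h3 : Fintype.card {e // e ∉ ({e₀} : Set E)} = Fintype.card G.edgeSet :=
        Fintype.card_congr φ
      have h4 := (hcompl ∅ (by simp)).1
      rw [Set.ncard_empty] at h4
      rw [← h3]
      have h5 : Fintype.card {e // e ∉ ({e₀} : Set E)} = (insert e₀ (∅ : Set E))ᶜ.ncard := by
        rw [← Nat.card_coe_set_eq, ← Nat.card_eq_fintype_card]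
        refine Nat.card_congr (Equiv.subtypeEquivRight ?_)
        intro e
        simp
      omega
    rw [SimpleGraph.edgeFinset_card] at h1
    have h3 : (Fintype.card V).choose 2 ≤ (4).choose 2 := Nat.choose_le_choose 2 (by omega)
    have h4 : (4).choose 2 = 6 := rfl
    omega
  have hcV : Nat.card V = Fintype.card V := Nat.card_eq_fintype_card
  -- a partition of the vertex set
  have part : ∀ S A : Set V, Disjoint A S → A.Nonempty → (A ∪ S)ᶜ.Nonempty →
      (∀ a ∈ A, ∀ b ∈ (A ∪ S)ᶜ, ¬ G.Adj a b) →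
      ∃ X : Set E, e₀ ∉ X ∧
        (∀ e (h : e ∉ ({e₀} : Set E)), e ∈ X ↔ ∃ x ∈ (φ ⟨e, h⟩ : Sym2 V), x ∈ A) ∧
        1 ≤ X.ncard ∧ 1 ≤ (insert e₀ X)ᶜ.ncard ∧
        r X + 1 ≤ A.ncard + S.ncard ∧ r (insert e₀ X)ᶜ + 1 ≤ (A ∪ S)ᶜ.ncard + S.ncard ∧
        A.ncard + S.ncard + (A ∪ S)ᶜ.ncard = Fintype.card V ∧ 1 ≤ A.ncard ∧
        1 ≤ (A ∪ S)ᶜ.ncard := by
    intro S A hAS hA hB hno
    let X : Set E := {e | ∃ h : e ∉ ({e₀} : Set E), ∃ x ∈ (φ ⟨e, h⟩ : Sym2 V), x ∈ A}
    have hX0 : e₀ ∉ X := by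
      rintro ⟨h, -⟩
      exact h rfl
    have hXiff : ∀ e (h : e ∉ ({e₀} : Set E)), e ∈ X ↔ ∃ x ∈ (φ ⟨e, h⟩ : Sym2 V), x ∈ A := by
      intro e h
      constructor
      · rintro ⟨_, h2⟩
        exact h2
      · intro h2
        exact ⟨h, h2⟩
    have hedge : ∀ x y : V, ∀ h : G.Adj x y, ∃ e, ∃ h' : e ∉ ({e₀} : Set E),
        (φ ⟨e, h'⟩ : Sym2 V) = s(x, y) := by
      intro x y h
      refine ⟨φ.symm ⟨s(x, y), h⟩, (φ.symm ⟨s(x, y), h⟩).2, ?_⟩
      simp
    have hin : ∀ e (h : e ∉ ({e₀} : Set E)), ∃ x y, (φ ⟨e, h⟩ : Sym2 V) = s(x, y) ∧ G.Adj x y := by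
      intro e h
      obtain ⟨z, hz⟩ : ∃ z, z = (φ ⟨e, h⟩ : Sym2 V) := ⟨_, rfl⟩
      induction z using Sym2.ind with
      | _ x y =>
        refine ⟨x, y, hz.symm, ?_⟩
        have := (φ ⟨e, h⟩).2
        rw [← hz] at this
        exact this
    refine ⟨X, hX0, hXiff, ?_, ?_, ?_, ?_, ?_, ?_, ?_⟩
    · obtain ⟨a, ha⟩ := hA
      obtain ⟨b, hab⟩ := hiso a
      obtain ⟨e, h, he⟩ := hedge a b hab
      rw [Nat.one_le_iff_ne_zero]
      intro h0
      rw [Set.ncard_eq_zero] at h0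
      have : e ∈ X := ⟨h, a, by rw [he]; exact Sym2.mem_mk_left a b, ha⟩
      rw [h0] at this
      exact this
    · obtain ⟨b, hb⟩ := hB
      obtain ⟨c, hbc⟩ := hiso b
      obtain ⟨e, h, he⟩ := hedge b c hbc
      rw [Nat.one_le_iff_ne_zero]
      intro h0
      rw [Set.ncard_eq_zero] at h0
      have : e ∈ (insert e₀ X)ᶜ := by
        rintro (h1 | h1)
        · exact h h1
        · rw [hXiff e h, he] at h1
          obtain ⟨x, hx, hxA⟩ := h1
          rw [Sym2.mem_iff] at hx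
          rcases hx with rfl | rfl
          · exact hb (Or.inl hxA)
          · exact hno x hxA b hb hbc.symm
      rw [h0] at this
      exact this
    · rw [← Set.ncard_union_eq hAS, ← hr]
      refine four_upper v e₀ G φ hφ X (A ∪ S) (hA.mono Set.subset_union_left) ?_
      rintro e ⟨h, x, hx, hxA⟩
      refine ⟨h, fun z hz => ?_⟩
      obtain ⟨x', y', he, hadj⟩ := hin e h
      rw [he, Sym2.mem_iff] at hx hz
      by_contra hz2
      rcases hx with rfl | rfl <;> rcases hz with rfl | rfl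
      · exact hz2 (Or.inl hxA)
      · exact hno _ hxA _ hz2 hadj
      · exact hno _ hxA _ hz2 hadj.symm
      · exact hz2 (Or.inl hxA)
    · have hd : Disjoint (A ∪ S)ᶜ S :=
        (disjoint_compl_left (a := A ∪ S)).mono_right Set.subset_union_right
      rw [← Set.ncard_union_eq hd, ← hr]
      refine four_upper v e₀ G φ hφ _ ((A ∪ S)ᶜ ∪ S) (hB.mono Set.subset_union_left) ?_
      intro e he
      have h : e ∉ ({e₀} : Set E) := fun h1 => he (Or.inl h1)
      refine ⟨h, fun z hz => ?_⟩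
      have h2 : e ∉ X := fun h1 => he (Or.inr h1)
      rw [hXiff e h] at h2
      push Not at h2
      by_cases hzS : z ∈ S
      · exact Or.inr hzS
      · refine Or.inl ?_
        rintro (h3 | h3)
        · exact h2 z hz h3
        · exact hzS h3
    · rw [← Set.ncard_union_eq hAS, Set.ncard_add_ncard_compl, hcV]
    · rw [Nat.one_le_iff_ne_zero]
      intro h0
      rw [Set.ncard_eq_zero] at h0
      rw [h0] at hA
      exact Set.not_nonempty_empty hA
    · rw [Nat.one_le_iff_ne_zero]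
      intro h0
      rw [Set.ncard_eq_zero] at h0
      rw [h0] at hB
      exact Set.not_nonempty_empty hB
  -- from a set violating connectedness to a partition
  have split : ∀ S : Set V, S.ncard ≤ 2 → ¬ Cn G Sᶜ → ∃ A : Set V, Disjoint A S ∧ A.Nonempty ∧
      (A ∪ S)ᶜ.Nonempty ∧ ∀ a ∈ A, ∀ b ∈ (A ∪ S)ᶜ, ¬ G.Adj a b := by
    intro S hS hn
    have hne : Sᶜ.Nonempty := by
      by_contra h0
      rw [Set.not_nonempty_iff_eq_empty] at h0
      have h1 := Set.ncard_add_ncard_compl S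
      rw [h0, Set.ncard_empty, hcV] at h1
      omega
    have h2 : ∃ A : Set V, A ⊆ Sᶜ ∧ A.Nonempty ∧ (∀ a ∈ A, ∀ b ∈ Sᶜ, G.Adj a b → b ∈ A) ∧
        A ≠ Sᶜ := by
      by_contra h3
      push Not at h3
      exact hn ⟨hne, h3⟩
    obtain ⟨A, hAS, hA, hcl, hneq⟩ := h2
    refine ⟨A, Set.disjoint_left.2 fun x hx hxS => hAS hx hxS, hA, ?_, ?_⟩
    · by_contra h0
      rw [Set.not_nonempty_iff_eq_empty] at h0
      apply hneq
      refine Set.Subset.antisymm hAS fun x hx => ?_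
      by_contra hxA
      have : x ∈ (A ∪ S)ᶜ := by
        rintro (h | h)
        · exact hxA h
        · exact hx h
      rw [h0] at this
      exact this
    · intro a ha b hb hab
      exact hb (Or.inl (hcl a ha b (fun h => hb (Or.inr h)) hab))
  -- `G` is connected
  have hconn : Cn G Set.univ := by
    by_contra hn
    obtain ⟨A, hAS, hA, hB, hno⟩ := split ∅ (by simp) (by rwa [Set.compl_empty])
    obtain ⟨X, hX0, hXiff, hX1, hY1, -, -, -, -, -⟩ := part ∅ A hAS hA hB hno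
    have hsum : r X + r (insert e₀ X)ᶜ ≤ r Set.univ := by
      obtain ⟨F₁, h1, h2, h3⟩ := four_exists v e₀ G φ hφ X hX0
      obtain ⟨F₂, h1', h2', h3'⟩ := four_exists v e₀ G φ hφ (insert e₀ X)ᶜ (by simp)
      rw [hr] at h3 h3'
      have hA₁ : ∀ z ∈ F₁, ∀ x ∈ z, x ∈ A := by
        intro z hz x hx
        obtain ⟨e, he, h, rfl⟩ := h1 z hz
        rw [hXiff e h] at he
        obtain ⟨y, hy, hyA⟩ := he
        by_contra hxA
        have hxB : x ∈ (A ∪ ∅)ᶜ := by simpa using hxA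
        have hadj : G.Adj y x := by
          have h9 := (φ ⟨e, h⟩).2
          have hne : y ≠ x := fun h => hxA (h ▸ hyA)
          rw [(Sym2.mem_and_mem_iff hne).1 ⟨hy, hx⟩] at h9
          exact h9
        exact hno y hyA x hxB hadj
      have hA₂ : ∀ z ∈ F₂, ∀ x ∈ z, x ∉ A := by
        intro z hz x hx hxA
        obtain ⟨e, he, h, rfl⟩ := h1' z hz
        exact he (Or.inr ((hXiff e h).2 ⟨x, hx, hxA⟩))
      have hun := four_union F₁ F₂ A hA₁ hA₂ h2 h2'
      have hlow := four_lower v e₀ G φ hφ Set.univ (F₁ ∪ F₂) (by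
        rintro z (hz | hz)
        · obtain ⟨e, -, h, h'⟩ := h1 z hz
          exact ⟨e, trivial, h, h'⟩
        · obtain ⟨e, -, h, h'⟩ := h1' z hz
          exact ⟨e, trivial, h, h'⟩) hun
      have hdis : Disjoint F₁ F₂ := by
        rw [Set.disjoint_left]
        intro z hz1 hz2
        induction z using Sym2.ind with
        | _ x y => exact hA₂ _ hz2 x (Sym2.mem_mk_left x y) (hA₁ _ hz1 x (Sym2.mem_mk_left x y))
      rw [Set.ncard_union_eq hdis, hr] at hlow
      omega
    obtain ⟨h3, h5⟩ := hcompl X hX0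
    by_cases h2 : 2 ≤ X.ncard
    · have := sep X hX0 2 (by omega) h2 (by omega)
      omega
    · have hY0 : e₀ ∉ (insert e₀ X)ᶜ := by simp
      have hYY : (insert e₀ (insert e₀ X)ᶜ)ᶜ = X := by
        rw [← h5, compl_compl]
      have := sep _ hY0 2 (by omega) (by omega) (by rw [hYY]; omega)
      rw [hYY] at this
      omega
  -- the rank is at least `n - 1`
  have hrank : Fintype.card V ≤ r Set.univ + 1 := by
    have hG : G.Connected := by
      have := cn_iff.1 hconn
      exact (SimpleGraph.induceUnivIso G).connected_iff.1 this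
    obtain ⟨T, hTG, hT⟩ := hG.exists_isTree_le
    have h1 := (SimpleGraph.isTree_iff_connected_and_card.1 hT).2
    have h2 := four_lower v e₀ G φ hφ Set.univ T.edgeSet (by
      intro z hz
      have hz' : z ∈ G.edgeSet := SimpleGraph.edgeSet_mono hTG hz
      exact ⟨φ.symm ⟨z, hz'⟩, trivial, (φ.symm ⟨z, hz'⟩).2, by simp⟩) (by
      rw [SimpleGraph.fromEdgeSet_edgeSet]
      exact hT.isAcyclic)
    rw [hr] at h2
    have h3 : Nat.card T.edgeSet = T.edgeSet.ncard := rfl
    omega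
  refine ⟨by omega, fun S hS => ?_⟩
  by_contra hn
  obtain ⟨A, hAS, hA, hB, hno⟩ := split S hS hn
  obtain ⟨X, hX0, -, hX1, hY1, hrX, hrY, hcnt, hA1, hB1⟩ := part S A hAS hA hB hno
  obtain ⟨h3, h5⟩ := hcompl X hX0
  by_cases hx : X.ncard ≤ 2
  · have := small X hX0 hx
    omega
  · by_cases hy : (insert e₀ X)ᶜ.ncard ≤ 2
    · have hY0 : e₀ ∉ (insert e₀ X)ᶜ := by simp
      have hYY : (insert e₀ (insert e₀ X)ᶜ)ᶜ = X := by
        rw [← h5, compl_compl]
      have := small _ hY0 hy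
      rw [hYY] at this
      omega
    · have := sep X hX0 3 (by omega) (by omega) (by omega)
      omega

end Pool.MP_4929df_co.H91
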