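import Pool.Agent.W_4929df_h91.RepSpan

/-! Step 0 (proofs row 432): range of the frame, bonds. -/

set_option autoImplicit false

namespace Pool.MP_4929df_co.H91

/-- the range of a frame is the space of functions with sum zero; total sums are zero -/
theorem frame_range {K : Type*} [Field K] [CharP K 2] {U : Type*} [AddCommGroup U] [Module K U]
    {V : Type*} [Fintype V] [DecidableEq V] {G : SimpleGraph V} (hG : C3 G)
    (w : G.edgeSet → U) (hspan : Submodule.span K (Set.range w) = ⊤) (Φ : U →ₗ[K] (V → K))
    (hΦ : ∀ (x y : V) (hxy : G.Adj x y), ∃ s : K, s ≠ 0 ∧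
        Φ (w ⟨s(x, y), hxy⟩) = s • (Pi.single x 1 + Pi.single y 1)) (f : V → K) :
    (∃ z, Φ z = f) ↔ ∑ x, f x = 0 := by
  constructor
  · rintro ⟨z, rfl⟩
    let σ : (V → K) →ₗ[K] K := ∑ x, LinearMap.proj x
    have hσ : ∀ g : V → K, σ g = ∑ x, g x := fun g => by simp [σ]
    have h1 : Submodule.span K (Set.range w) ≤ LinearMap.ker (σ.comp Φ) := by
      rw [Submodule.span_le]
      rintro _ ⟨⟨e, he⟩, rfl⟩
      induction e with
      | _ x y =>
        obtain ⟨s, -, hs⟩ := hΦ x y he
        rw [SetLike.mem_coe, LinearMap.mem_ker, LinearMap.comp_apply, hs, map_smul, hσ]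
        simp only [Pi.add_apply]
        rw [Finset.sum_add_distrib, Finset.sum_pi_single', Finset.sum_pi_single',
          if_pos (Finset.mem_univ _), if_pos (Finset.mem_univ _), CharTwo.add_self_eq_zero,
          smul_zero]
    have h2 : z ∈ LinearMap.ker (σ.comp Φ) := h1 (by rw [hspan]; trivial)
    rw [LinearMap.mem_ker, LinearMap.comp_apply, hσ] at h2
    exact h2
  · intro hf
    have hVne : Nonempty V := by
      have := hG.1
      by_contra h
      rw [not_nonempty_iff] at h
      rw [Nat.card_of_isEmpty] at this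
      omega
    obtain ⟨x₀⟩ := hVne
    have hs : (Set.univ : Set V) ⊆
        {x | (Pi.single x 1 + Pi.single x₀ 1 : V → K) ∈ LinearMap.range Φ} := by
      refine hG.univ.subset_of_closed ⟨x₀, trivial, ?_⟩ ?_
      · have : (Pi.single x₀ 1 + Pi.single x₀ 1 : V → K) = 0 := by
          funext z
          simp only [Pi.add_apply, Pi.zero_apply]
          exact CharTwo.add_self_eq_zero _
        change (Pi.single x₀ 1 + Pi.single x₀ 1 : V → K) ∈ LinearMap.range Φ
        rw [this]
        exact Submodule.zero_mem _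
      · intro a _ ha b _ hab
        obtain ⟨s, hs, h2⟩ := hΦ a b hab
        have h3 : (Pi.single a 1 + Pi.single b 1 : V → K) ∈ LinearMap.range Φ := by
          have : s⁻¹ • Φ (w ⟨s(a, b), hab⟩) ∈ LinearMap.range Φ :=
            Submodule.smul_mem _ _ ⟨_, rfl⟩
          rwa [h2, smul_smul, inv_mul_cancel₀ hs, one_smul] at this
        have h4 := Submodule.add_mem _ h3 ha
        have : (Pi.single a 1 + Pi.single b 1 + (Pi.single a 1 + Pi.single x₀ 1) : V → K) =
            Pi.single b 1 + Pi.single x₀ 1 := by
          funext z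
          simp only [Pi.add_apply]
          have := CharTwo.add_self_eq_zero ((Pi.single a 1 : V → K) z)
          linear_combination this
        rw [this] at h4
        exact h4
    have hfe : f = ∑ x, f x • (Pi.single x 1 + Pi.single x₀ 1 : V → K) := by
      funext z
      rw [Finset.sum_apply]
      simp only [Pi.smul_apply, Pi.add_apply, smul_eq_mul, mul_add]
      rw [Finset.sum_add_distrib, ← Finset.sum_mul, hf, zero_mul, add_zero]
      rw [Finset.sum_eq_single z]
      · simp
      · intro b _ hb
        rw [Pi.single_eq_of_ne (fun h => hb h.symm), mul_zero]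
      · intro h; exact absurd (Finset.mem_univ z) h
    have hmem : f ∈ LinearMap.range Φ := by
      rw [hfe]
      exact Submodule.sum_mem _ fun x _ => Submodule.smul_mem _ _ (hs (Set.mem_univ x))
    exact hmem

/-- **Bonds.** For a bond `X`, the sum over `X` of the coordinates of `z` vanishes iff `z` is in the
span of the edges that do not cross `X`. (`←`: each such edge has both ends in `X` (sum `2s = 0`) or
none. `→`: let `e` be an edge crossing `X` (exists, the graph is connected); every crossing edge is in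
the span of `w e` and the non-crossing edges (`Cn.reachable` for `X` and `Xᶜ`), so `z = a w e + z'`,
`z'` in the span of the non-crossing edges, and the sum over `X` is `a s_e`.) -/
theorem frame_bond {K : Type*} [Field K] [CharP K 2] {U : Type*} [AddCommGroup U] [Module K U]
    {V : Type*} [Fintype V] [DecidableEq V] {G : SimpleGraph V} (hG : C3 G)
    (w : G.edgeSet → U) (hspan : Submodule.span K (Set.range w) = ⊤)
    (hind : ∀ S : Set G.edgeSet, LinearIndependent K (fun s : S => w s) ↔
      (SimpleGraph.fromEdgeSet (Subtype.val '' S)).IsAcyclic) (Φ : U →ₗ[K] (V → K))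
    (hΦ : ∀ (x y : V) (hxy : G.Adj x y), ∃ s : K, s ≠ 0 ∧
        Φ (w ⟨s(x, y), hxy⟩) = s • (Pi.single x 1 + Pi.single y 1))
    {X : Set V} (hX : Bond G X) (z : U) :
    sm (Φ z) X = 0 ↔ z ∈ Submodule.span K
      (w '' {e | ∀ x y, (e : Sym2 V) = s(x, y) → (x ∈ X ↔ y ∈ X)}) := by
  classical
  set F : Set G.edgeSet := {e | ∀ x y, (e : Sym2 V) = s(x, y) → (x ∈ X ↔ y ∈ X)} with hF
  let σ : (V → K) →ₗ[K] K :=
    { toFun := fun g => sm g X
      map_add' := fun g h => by
        simp only [sm]
        rw [← Finset.sum_add_distrib]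
        refine Finset.sum_congr rfl fun v _ => ?_
        by_cases hv : v ∈ X
        · rw [Set.indicator_of_mem hv, Set.indicator_of_mem hv, Set.indicator_of_mem hv]; rfl
        · rw [Set.indicator_of_notMem hv, Set.indicator_of_notMem hv,
            Set.indicator_of_notMem hv, add_zero]
      map_smul' := fun c g => by
        simp only [sm, RingHom.id_apply, smul_eq_mul, Finset.mul_sum]
        refine Finset.sum_congr rfl fun v _ => ?_
        by_cases hv : v ∈ X
        · rw [Set.indicator_of_mem hv, Set.indicator_of_mem hv]; rfl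
        · rw [Set.indicator_of_notMem hv, Set.indicator_of_notMem hv, mul_zero] }
  have hσ : ∀ g : V → K, σ g = sm g X := fun g => rfl
  have hsingle : ∀ x : V, σ (Pi.single x 1) = if x ∈ X then 1 else 0 := by
    intro x
    rw [hσ, sm, Finset.sum_eq_single x]
    · by_cases hx : x ∈ X
      · rw [Set.indicator_of_mem hx, if_pos hx, Pi.single_eq_same]
      · rw [Set.indicator_of_notMem hx, if_neg hx]
    · intro b _ hb
      by_cases hx : b ∈ X
      · rw [Set.indicator_of_mem hx, Pi.single_eq_of_ne hb]
      · rw [Set.indicator_of_notMem hx]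
    · intro h; exact absurd (Finset.mem_univ x) h
  have hFle : Submodule.span K (w '' F) ≤ LinearMap.ker (σ.comp Φ) := by
    rw [Submodule.span_le]
    rintro _ ⟨⟨e, he⟩, heF, rfl⟩
    induction e with
    | _ x y =>
      obtain ⟨s, -, hs⟩ := hΦ x y he
      rw [SetLike.mem_coe, LinearMap.mem_ker, LinearMap.comp_apply, hs, map_smul, map_add,
        hsingle, hsingle]
      have := heF x y rfl
      by_cases hx : x ∈ X
      · rw [if_pos hx, if_pos (this.1 hx), CharTwo.add_self_eq_zero, smul_zero]
      · rw [if_neg hx, if_neg (fun h => hx (this.2 h)), add_zero, smul_zero]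
  constructor
  · intro hz
    have hne : X ≠ Set.univ := by
      intro h
      obtain ⟨y, hy⟩ := hX.2.1
      rw [h] at hy
      exact hy trivial
    obtain ⟨a, ha, b, -, hb, hab⟩ := hG.univ.exists_adj (Set.subset_univ X) hX.1.1 hne
    have htop : Submodule.span K (w '' (insert ⟨s(a, b), hab⟩ F)) = ⊤ := by
      rw [← top_le_iff, ← hspan, Submodule.span_le]
      have hH : ∀ Y : Set V, (Y = X ∨ Y = Xᶜ) → ∀ c ∈ Y, ∀ d ∈ Y, G.Adj c d →
          s(c, d) ∈ (Subtype.val '' (insert ⟨s(a, b), hab⟩ F) : Set (Sym2 V)) := by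
        intro Y hY c hc d hd hcd
        refine ⟨⟨s(c, d), hcd⟩, Set.mem_insert_of_mem _ ?_, rfl⟩
        intro x y hxy
        have hxy' : s(c, d) = s(x, y) := hxy
        rw [Sym2.eq_iff] at hxy'
        rcases hY with rfl | rfl
        · rcases hxy' with ⟨rfl, rfl⟩ | ⟨rfl, rfl⟩ <;> exact ⟨fun _ => ‹_›, fun _ => ‹_›⟩
        · rcases hxy' with ⟨rfl, rfl⟩ | ⟨rfl, rfl⟩
          · exact ⟨fun h => absurd h hc, fun h => absurd h hd⟩
          · exact ⟨fun h => absurd h hd, fun h => absurd h hc⟩
      have rX : ∀ c ∈ X, ∀ d ∈ X, (SimpleGraph.fromEdgeSet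
          (Subtype.val '' (insert ⟨s(a, b), hab⟩ F) : Set (Sym2 V))).Reachable c d :=
        fun c hc d hd => hX.1.reachable (hH X (Or.inl rfl)) hc hd
      have rY : ∀ c, c ∉ X → ∀ d, d ∉ X → (SimpleGraph.fromEdgeSet
          (Subtype.val '' (insert ⟨s(a, b), hab⟩ F) : Set (Sym2 V))).Reachable c d :=
        fun c hc d hd => hX.2.reachable (hH Xᶜ (Or.inr rfl)) hc hd
      have rab : (SimpleGraph.fromEdgeSet
          (Subtype.val '' (insert ⟨s(a, b), hab⟩ F) : Set (Sym2 V))).Reachable a b := by
        refine SimpleGraph.Adj.reachable ?_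
        rw [SimpleGraph.fromEdgeSet_adj]
        exact ⟨⟨_, Set.mem_insert _ _, rfl⟩, hab.ne⟩
      rintro _ ⟨⟨e, he⟩, rfl⟩
      induction e with
      | _ x y =>
        rw [SetLike.mem_coe, mem_span_iff_reachable w hind _ he]
        by_cases hx : x ∈ X
        · by_cases hy : y ∈ X
          · exact rX x hx y hy
          · exact (rX x hx a ha).trans (rab.trans (rY b hb y hy))
        · by_cases hy : y ∈ X
          · exact (rY x hx b hb).trans (rab.symm.trans (rX a ha y hy))
          · exact rY x hx y hy
    have hzt : z ∈ Submodule.span K (w '' (insert ⟨s(a, b), hab⟩ F)) := by rw [htop]; trivial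
    rw [Set.image_insert_eq, Submodule.mem_span_insert] at hzt
    obtain ⟨α, z', hz', rfl⟩ := hzt
    obtain ⟨s, hs, hs2⟩ := hΦ a b hab
    have h1 : σ (Φ z') = 0 := hFle hz'
    have h2 : σ (Φ (α • w ⟨s(a, b), hab⟩ + z')) = α * s := by
      rw [map_add, map_add, h1, add_zero, map_smul, hs2, map_smul, map_smul, map_add, hsingle,
        hsingle, if_pos ha, if_neg hb, add_zero, smul_eq_mul, smul_eq_mul, mul_one]
    rw [← hσ, h2] at hz
    rcases mul_eq_zero.1 hz with h | h
    · rw [h, zero_smul, zero_add]; exact hz'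
    · exact absurd h hs
  · intro hz
    exact hFle hz

end Pool.MP_4929df_co.H91
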