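import Pool.Agent.W_4929df_h91.RepSpan

/-! Step 0 (proofs row 432): the frame. -/

set_option autoImplicit false

namespace Pool.MP_4929df_co.H91

/-- **Frame.** A spanning representation `w` of the cycle matroid of a 3-connected graph over a field
of characteristic 2 is the incidence matrix up to column scaling: there is an injective linear map `Φ`
to `V → K` with `Φ (w xy) = s (1_x + 1_y)`, `s ≠ 0`. -/
theorem exists_frame {K : Type*} [Field K] [CharP K 2] {U : Type*} [AddCommGroup U] [Module K U]
    [FiniteDimensional K U] {V : Type*} [Fintype V] [DecidableEq V] {G : SimpleGraph V} (hG : C3 G)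
    (w : G.edgeSet → U) (hspan : Submodule.span K (Set.range w) = ⊤)
    (hind : ∀ S : Set G.edgeSet, LinearIndependent K (fun s : S => w s) ↔
      (SimpleGraph.fromEdgeSet (Subtype.val '' S)).IsAcyclic) :
    ∃ Φ : U →ₗ[K] (V → K), Function.Injective Φ ∧
      ∀ (x y : V) (hxy : G.Adj x y), ∃ s : K, s ≠ 0 ∧
        Φ (w ⟨s(x, y), hxy⟩) = s • (Pi.single x 1 + Pi.single y 1) := by
  classical
  have hnb : ∀ x : V, ∃ y, G.Adj x y := by
    intro x
    have hne : ({x} : Set V) ≠ Set.univ := by
      intro h
      have h1 : (Set.univ : Set V).ncard = 1 := by rw [← h]; simp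
      rw [Set.ncard_univ] at h1
      have := hG.1
      omega
    obtain ⟨a, ha, b, -, -, hab⟩ := hG.univ.exists_adj (Set.subset_univ {x}) ⟨x, rfl⟩ hne
    rw [Set.mem_singleton_iff] at ha
    exact ⟨b, ha ▸ hab⟩
  -- vertex functionals
  have hfun : ∀ x : V, ∃ φ : U →ₗ[K] K, (∀ (a b : V) (hab : G.Adj a b), a ≠ x → b ≠ x →
      φ (w ⟨s(a, b), hab⟩) = 0) ∧ (∀ (b : V) (hab : G.Adj x b), φ (w ⟨s(x, b), hab⟩) ≠ 0) := by
    intro x
    obtain ⟨y, hxy⟩ := hnb x
    let H : Set G.edgeSet := {e | x ∉ (e : Sym2 V)}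
    have h1 : w ⟨s(x, y), hxy⟩ ∉ Submodule.span K (w '' H) := by
      rw [mem_span_iff_reachable w hind H hxy]
      refine not_reachable_of_closed (X := {x}) ?_ rfl hxy.ne'
      rintro a b ⟨e, he, hab⟩ ha
      rw [Set.mem_singleton_iff] at ha
      exfalso
      apply he
      rw [hab, ha]
      exact Sym2.mem_mk_left x b
    obtain ⟨φ, hφ1, hφ2⟩ := Submodule.exists_le_ker_of_notMem h1
    refine ⟨φ, ?_, ?_⟩
    · intro a b hab ha hb
      have : w ⟨s(a, b), hab⟩ ∈ Submodule.span K (w '' H) := by
        refine Submodule.subset_span ⟨_, ?_, rfl⟩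
        change x ∉ s(a, b)
        rw [Sym2.mem_iff]
        rintro (h | h)
        · exact ha h.symm
        · exact hb h.symm
      exact hφ2 this
    · intro b hxb h0
      have hle : Submodule.span K (w '' (insert ⟨s(x, b), hxb⟩ H)) ≤ LinearMap.ker φ := by
        rw [Set.image_insert_eq, Submodule.span_insert]
        refine sup_le ?_ hφ2
        rw [Submodule.span_singleton_le_iff_mem, LinearMap.mem_ker]
        exact h0
      apply hφ1
      have : w ⟨s(x, y), hxy⟩ ∈ Submodule.span K (w '' (insert ⟨s(x, b), hxb⟩ H)) := by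
        rw [mem_span_iff_reachable w hind _ hxy]
        have r1 : (SimpleGraph.fromEdgeSet (Subtype.val '' (insert ⟨s(x, b), hxb⟩ H) :
            Set (Sym2 V))).Reachable x b := by
          refine SimpleGraph.Adj.reachable ?_
          rw [SimpleGraph.fromEdgeSet_adj]
          exact ⟨⟨_, Set.mem_insert _ _, rfl⟩, hxb.ne⟩
        have r2 : (SimpleGraph.fromEdgeSet (Subtype.val '' (insert ⟨s(x, b), hxb⟩ H) :
            Set (Sym2 V))).Reachable b y := by
          have hc : Cn G ({x}ᶜ : Set V) := hG.2 {x} (by simp)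
          refine hc.reachable ?_ hxb.ne' hxy.ne'
          intro c hc d hd hcd
          refine ⟨⟨s(c, d), hcd⟩, Set.mem_insert_of_mem _ ?_, rfl⟩
          change x ∉ s(c, d)
          rw [Sym2.mem_iff]
          rintro (h | h)
          · exact hc h.symm
          · exact hd h.symm
        exact r1.trans r2
      exact hle this
  choose φ hφ0 hφ1 using hfun
  -- dimension
  have hconn : G.Connected := by
    have h1 : Cn G Set.univ := hG.univ
    rw [cn_iff] at h1
    exact (SimpleGraph.induceUnivIso G).connected_iff.1 h1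
  obtain ⟨T, hTG, hT⟩ := hconn.exists_isTree_le
  have hdim : Module.finrank K U + 1 ≤ Fintype.card V := by
    let H : Set G.edgeSet := {e | (e : Sym2 V) ∈ T.edgeSet}
    have hH : (SimpleGraph.fromEdgeSet (Subtype.val '' H : Set (Sym2 V))) = T := by
      have : (Subtype.val '' H : Set (Sym2 V)) = T.edgeSet := by
        ext e
        constructor
        · rintro ⟨e, he, rfl⟩; exact he
        · intro he
          exact ⟨⟨e, SimpleGraph.edgeSet_mono hTG he⟩, he, rfl⟩
      rw [this, SimpleGraph.fromEdgeSet_edgeSet]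
    have htop : Submodule.span K (w '' H) = ⊤ := by
      rw [← top_le_iff, ← hspan, Submodule.span_le]
      rintro _ ⟨⟨e, he⟩, rfl⟩
      induction e with
      | _ x y =>
        rw [SetLike.mem_coe, mem_span_iff_reachable w hind H he, hH]
        exact hT.1 x y
    have h2 : Module.finrank K U ≤ (w '' H).ncard := by
      have := finrank_span_le_card (R := K) (w '' H)
      rw [htop, finrank_top] at this
      rw [Set.ncard_eq_toFinset_card']
      exact this
    have h3 : (w '' H).ncard ≤ H.ncard := Set.ncard_image_le (Set.toFinite _)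
    have h4 : H.ncard = T.edgeFinset.card := by
      have h5 : (Subtype.val '' H : Set (Sym2 V)).ncard = H.ncard :=
        Set.ncard_image_of_injective _ Subtype.val_injective
      have : (Subtype.val '' H : Set (Sym2 V)) = T.edgeSet := by
        ext e
        constructor
        · rintro ⟨e, he, rfl⟩; exact he
        · intro he
          exact ⟨⟨e, SimpleGraph.edgeSet_mono hTG he⟩, he, rfl⟩
      rw [← h5, this, ← SimpleGraph.coe_edgeFinset, Set.ncard_coe_finset]
    have h6 := hT.card_edgeFinset
    omega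
  -- the relation
  have hnli : ¬ LinearIndependent K φ := by
    intro h
    have := h.fintype_card_le_finrank
    rw [Subspace.dual_finrank_eq] at this
    omega
  rw [Fintype.not_linearIndependent_iff] at hnli
  obtain ⟨c, hc0, x₀, hx₀⟩ := hnli
  have hrel : ∀ (a b : V) (hab : G.Adj a b),
      c a * φ a (w ⟨s(a, b), hab⟩) + c b * φ b (w ⟨s(a, b), hab⟩) = 0 := by
    intro a b hab
    have h1 := congrArg (fun f : U →ₗ[K] K => f (w ⟨s(a, b), hab⟩)) hc0
    simp only [LinearMap.coe_sum, Finset.sum_apply, LinearMap.smul_apply, smul_eq_mul,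
      LinearMap.zero_apply] at h1
    rw [← h1]
    have h2 : ∀ x ∈ (Finset.univ : Finset V), x ∉ ({a, b} : Finset V) →
        c x * φ x (w ⟨s(a, b), hab⟩) = 0 := by
      intro x _ hx
      simp only [Finset.mem_insert, Finset.mem_singleton, not_or] at hx
      rw [hφ0 x a b hab (fun h => hx.1 h.symm) (fun h => hx.2 h.symm), mul_zero]
    rw [← Finset.sum_subset (Finset.subset_univ ({a, b} : Finset V)) h2,
      Finset.sum_pair hab.ne]
  have hsw : ∀ (a b : V) (hab : G.Adj a b), φ b (w ⟨s(a, b), hab⟩) ≠ 0 := by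
    intro a b hab
    have := hφ1 b a hab.symm
    have e : (⟨s(a, b), hab⟩ : G.edgeSet) = ⟨s(b, a), hab.symm⟩ := Subtype.ext Sym2.eq_swap
    rw [e]
    exact this
  have hc : ∀ x, c x ≠ 0 := by
    have hsub : (Set.univ : Set V) ⊆ {x | c x ≠ 0} := by
      refine hG.univ.subset_of_closed ⟨x₀, trivial, hx₀⟩ ?_
      intro a _ ha b _ hab hb
      have h1 := hrel a b hab
      rw [hb, zero_mul, add_zero] at h1
      rcases mul_eq_zero.1 h1 with h | h
      · exact ha h
      · exact hφ1 a b hab h
    exact fun x => hsub trivial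
  let Φ : U →ₗ[K] (V → K) := LinearMap.pi fun x => c x • φ x
  have hΦ : ∀ (x y : V) (hxy : G.Adj x y), ∃ s : K, s ≠ 0 ∧
      Φ (w ⟨s(x, y), hxy⟩) = s • (Pi.single x 1 + Pi.single y 1) := by
    intro x y hxy
    refine ⟨c x * φ x (w ⟨s(x, y), hxy⟩), mul_ne_zero (hc x) (hφ1 x y hxy), ?_⟩
    have h1 := hrel x y hxy
    have h2 : c y * φ y (w ⟨s(x, y), hxy⟩) = c x * φ x (w ⟨s(x, y), hxy⟩) := by
      have := eq_neg_of_add_eq_zero_right h1
      rw [this, CharTwo.neg_eq]
    funext z
    simp only [Φ, LinearMap.pi_apply, LinearMap.smul_apply, smul_eq_mul, Pi.smul_apply,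
      Pi.add_apply]
    by_cases hzx : z = x
    · subst hzx
      rw [Pi.single_eq_same, Pi.single_eq_of_ne hxy.ne, add_zero, mul_one]
    · by_cases hzy : z = y
      · subst hzy
        rw [Pi.single_eq_same, Pi.single_eq_of_ne hxy.ne', zero_add, mul_one, h2]
      · rw [Pi.single_eq_of_ne hzx, Pi.single_eq_of_ne hzy, add_zero, mul_zero,
          hφ0 z x y hxy (fun h => hzx h.symm) (fun h => hzy h.symm), mul_zero]
  refine ⟨Φ, ?_, hΦ⟩
  -- injectivity
  have htop : LinearMap.range Φ ⊔ Submodule.span K {(Pi.single x₀ 1 : V → K)} = ⊤ := by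
    set R := LinearMap.range Φ ⊔ Submodule.span K {(Pi.single x₀ 1 : V → K)} with hR
    have hs : (Set.univ : Set V) ⊆ {x | (Pi.single x 1 : V → K) ∈ R} := by
      refine hG.univ.subset_of_closed ⟨x₀, trivial, ?_⟩ ?_
      · exact Submodule.mem_sup_right (Submodule.mem_span_singleton_self _)
      · intro a _ ha b _ hab
        obtain ⟨s, hs, h2⟩ := hΦ a b hab
        have h3 : (Pi.single a 1 + Pi.single b 1 : V → K) ∈ R := by
          have : s⁻¹ • Φ (w ⟨s(a, b), hab⟩) ∈ R :=
            R.smul_mem _ (Submodule.mem_sup_left ⟨_, rfl⟩)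
          rwa [h2, smul_smul, inv_mul_cancel₀ hs, one_smul] at this
        have := R.sub_mem h3 ha
        rwa [add_sub_cancel_left] at this
    rw [eq_top_iff]
    intro f _
    rw [pi_eq_sum_univ f]
    refine R.sum_mem fun x _ => ?_
    refine R.smul_mem _ ?_
    have := hs (Set.mem_univ x)
    have e : (fun j => if x = j then (1 : K) else 0) = (Pi.single x 1 : V → K) := by
      funext j
      by_cases h : x = j
      · subst h; simp
      · rw [if_neg h, Pi.single_eq_of_ne (fun h' => h h'.symm)]
    rw [e]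
    exact this
  have h1 : Fintype.card V ≤ Module.finrank K (LinearMap.range Φ) + 1 := by
    have h2 := Submodule.finrank_add_le_finrank_add_finrank (LinearMap.range Φ)
      (Submodule.span K {(Pi.single x₀ 1 : V → K)})
    rw [htop, finrank_top, Module.finrank_fintype_fun_eq_card] at h2
    have h3 : Module.finrank K (Submodule.span K {(Pi.single x₀ 1 : V → K)}) ≤ 1 := by
      have := finrank_span_le_card (R := K) ({(Pi.single x₀ 1 : V → K)} : Set (V → K))
      simpa using this
    omega
  have h2 := Φ.finrank_range_add_finrank_ker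
  have h3 : Module.finrank K (LinearMap.ker Φ) = 0 := by omega
  rw [← LinearMap.ker_eq_bot]
  exact Submodule.finrank_eq_zero.1 h3

end Pool.MP_4929df_co.H91
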