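import Pool.Agent.W_4929df_h91.FDefs
import Pool.Agent.W_4929df_h91.RepFrame
import Pool.Agent.W_4929df_h91.RepBond

/-! The full frame of a representation of `M`, `M` delete `D` graphic (proofs row 432, step 0). -/

set_option autoImplicit false

namespace Pool.MP_4929df_co.H91


/-- linear independence of a family composed with an injective map -/
theorem li_comp_iff {K : Type*} [Field K] {M : Type*} [AddCommGroup M] [Module K M] {ι E : Type*}
    (w : E → M) (g : ι → E) (hg : Function.Injective g) :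
    LinearIndependent K (fun i => w (g i)) ↔
      LinearIndependent K (fun s : Set.range g => w s) := by
  have := (linearIndependent_equiv (R := K) (Equiv.ofInjective g hg)
    (f := fun s : Set.range g => w s))
  rw [← this]
  rfl

theorem exists_full {E : Type} [Fintype E] {r : ℕ} (w : E → (Fin r → (GaloisField 2 3))) (D D₁ : Set E)
    {V : Type} [Fintype V] [DecidableEq V] {G : SimpleGraph V} (hG : C3 G)
    (φ : {e // e ∉ D} ≃ G.edgeSet) (hw : CycleOutside w D G φ)
    (hc : IsCompl (Submodule.span (GaloisField 2 3) (w '' Dᶜ)) (Submodule.span (GaloisField 2 3) (w '' D₁)))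
    (hli : LinearIndependent (GaloisField 2 3) (fun d : D₁ => w d)) :
    ∃ Ψ : (Fin r → (GaloisField 2 3)) →ₗ[(GaloisField 2 3)] (V → (GaloisField 2 3)) × (D₁ → (GaloisField 2 3)),
      Function.Injective Ψ ∧ (∀ z, ∑ x, (Ψ z).1 x = 0) ∧
      (∀ f : V → (GaloisField 2 3), ∀ c : D₁ → (GaloisField 2 3), ∑ x, f x = 0 → ∃ z, Ψ z = (f, c)) ∧
      (∀ e : {e // e ∉ D}, ∀ x y, (φ e : Sym2 V) = s(x, y) →
        ∃ s : (GaloisField 2 3), s ≠ 0 ∧ Ψ (w e) = (s • (Pi.single x 1 + Pi.single y 1), 0)) ∧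
      (∀ X : Set V, Bond G X → ∀ z, sm (Ψ z).1 X = 0 ↔ z ∈ Submodule.span (GaloisField 2 3)
        (w '' ({e | ∃ h : e ∉ D, ∀ x y, (φ ⟨e, h⟩ : Sym2 V) = s(x, y) → (x ∈ X ↔ y ∈ X)} ∪ D₁))) := by
  classical
  set U := Submodule.span (GaloisField 2 3) (w '' Dᶜ) with hU
  set W := Submodule.span (GaloisField 2 3) (w '' D₁) with hW
  have hmem : ∀ e : G.edgeSet, w (φ.symm e) ∈ U := fun e =>
    Submodule.subset_span ⟨_, (φ.symm e).2, rfl⟩
  let w' : G.edgeSet → U := fun e => ⟨w (φ.symm e), hmem e⟩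
  have hspan : Submodule.span (GaloisField 2 3) (Set.range w') = ⊤ := by
    apply Submodule.map_injective_of_injective U.injective_subtype
    rw [Submodule.map_span, Submodule.map_top, Submodule.range_subtype]
    refine Eq.trans (congrArg (Submodule.span (GaloisField 2 3)) ?_) hU.symm
    ext z
    constructor
    · rintro ⟨_, ⟨e, rfl⟩, rfl⟩
      exact ⟨_, (φ.symm e).2, rfl⟩
    · rintro ⟨e, he, rfl⟩
      exact ⟨w' (φ ⟨e, he⟩), ⟨_, rfl⟩, by simp [w']⟩
  have hind : ∀ S : Set G.edgeSet, LinearIndependent (GaloisField 2 3) (fun s : S => w' s) ↔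
      (SimpleGraph.fromEdgeSet (Subtype.val '' S)).IsAcyclic := by
    intro S
    have h1 : LinearIndependent (GaloisField 2 3) (fun s : S => w' s) ↔
        LinearIndependent (GaloisField 2 3) (fun s : S => w (φ.symm s)) := by
      have := (U.subtype).linearIndependent_iff (v := fun s : S => w' s)
        (by rw [Submodule.ker_subtype])
      rw [← this]
      rfl
    rw [h1]
    have h2 := hw (φ ⁻¹' S)
    have h3 : (fun e => (φ e : Sym2 V)) '' (φ ⁻¹' S) = Subtype.val '' S := by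
      ext z
      constructor
      · rintro ⟨e, he, rfl⟩
        exact ⟨φ e, he, rfl⟩
      · rintro ⟨e, he, rfl⟩
        exact ⟨φ.symm e, by simpa using he, by simp⟩
    rw [h3] at h2
    rw [← h2]
    let ε : (φ ⁻¹' S : Set {e // e ∉ D}) ≃ S :=
      { toFun := fun e => ⟨φ e.1, e.2⟩
        invFun := fun e => ⟨φ.symm e.1, by simp⟩
        left_inv := fun e => by simp
        right_inv := fun e => by simp }
    have := (linearIndependent_equiv (R := (GaloisField 2 3)) ε (f := fun s : S => w (φ.symm s)))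
    rw [← this]
    have e1 : ((fun s : S => w (φ.symm s)) ∘ ε) =
        (fun s : (φ ⁻¹' S : Set {e // e ∉ D}) => w (s : {e // e ∉ D})) := by
      funext s
      simp [ε]
    rw [e1]
  obtain ⟨Φ, hΦi, hΦ⟩ := exists_frame hG w' hspan hind
  -- coordinates on `W`
  have hli' : LinearIndependent (GaloisField 2 3) (fun d : D₁ => (⟨w d, Submodule.subset_span ⟨d, d.2, rfl⟩⟩ : W)) := by
    have := (W.subtype).linearIndependent_iff
      (v := fun d : D₁ => (⟨w d, Submodule.subset_span ⟨d, d.2, rfl⟩⟩ : W))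
      (by rw [Submodule.ker_subtype])
    rw [← this]
    exact hli
  have hWspan : ⊤ ≤ Submodule.span (GaloisField 2 3)
      (Set.range (fun d : D₁ => (⟨w d, Submodule.subset_span ⟨d, d.2, rfl⟩⟩ : W))) := by
    rw [top_le_iff]
    apply Submodule.map_injective_of_injective W.injective_subtype
    rw [Submodule.map_span, Submodule.map_top, Submodule.range_subtype]
    refine Eq.trans (congrArg (Submodule.span (GaloisField 2 3)) ?_) hW.symm
    ext z
    constructor
    · rintro ⟨_, ⟨e, rfl⟩, rfl⟩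
      exact ⟨_, e.2, rfl⟩
    · rintro ⟨e, he, rfl⟩
      exact ⟨_, ⟨⟨e, he⟩, rfl⟩, rfl⟩
  let b := Module.Basis.mk hli' hWspan
  let κ : W ≃ₗ[(GaloisField 2 3)] (D₁ → (GaloisField 2 3)) := b.equivFun
  let Ψ : (Fin r → (GaloisField 2 3)) →ₗ[(GaloisField 2 3)] (V → (GaloisField 2 3)) × (D₁ → (GaloisField 2 3)) :=
    LinearMap.ofIsCompl hc ((LinearMap.inl (GaloisField 2 3) (V → (GaloisField 2 3)) (D₁ → (GaloisField 2 3))).comp Φ)
      ((LinearMap.inr (GaloisField 2 3) (V → (GaloisField 2 3)) (D₁ → (GaloisField 2 3))).comp κ.toLinearMap)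
  have hΨU : ∀ u : U, Ψ u = (Φ u, 0) := fun u => by
    simp [Ψ, LinearMap.ofIsCompl_apply_left]
  have hΨW : ∀ u : W, Ψ u = (0, κ u) := fun u => by
    simp [Ψ, LinearMap.ofIsCompl_apply_right]
  have hdec : ∀ z : Fin r → (GaloisField 2 3), ∃ (u : U) (u' : W), z = u + u' := by
    intro z
    have hz : z ∈ U ⊔ W := by rw [hc.sup_eq_top]; trivial
    obtain ⟨u, hu, u', hu', rfl⟩ := Submodule.mem_sup.1 hz
    exact ⟨⟨u, hu⟩, ⟨u', hu'⟩, rfl⟩
  have hΨ : ∀ (u : U) (u' : W), Ψ (u + u') = (Φ u, κ u') := by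
    intro u u'
    rw [map_add, hΨU, hΨW]; simp
  have hsum : ∀ u : U, ∑ x, Φ u x = 0 := fun u =>
    (frame_range hG w' hspan Φ hΦ (Φ u)).1 ⟨u, rfl⟩
  refine ⟨Ψ, ?_, ?_, ?_, ?_, ?_⟩
  · rw [injective_iff_map_eq_zero]
    intro z hz
    obtain ⟨u, u', rfl⟩ := hdec z
    rw [hΨ, Prod.mk_eq_zero] at hz
    have h1 : u = 0 := hΦi (by rw [hz.1, map_zero])
    have h2 : u' = 0 := κ.injective (by rw [hz.2, map_zero])
    rw [h1, h2]; simp
  · intro z
    obtain ⟨u, u', rfl⟩ := hdec z
    rw [hΨ]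
    exact hsum u
  · intro f c hf
    obtain ⟨u, hu⟩ := (frame_range hG w' hspan Φ hΦ f).2 hf
    exact ⟨u + κ.symm c, by rw [hΨ, hu]; simp⟩
  · intro e x y hxy
    have hadj : G.Adj x y := by
      have := (φ e).2
      rw [hxy] at this
      exact this
    obtain ⟨s, hs, hs2⟩ := hΦ x y hadj
    refine ⟨s, hs, ?_⟩
    have e1 : φ e = ⟨s(x, y), hadj⟩ := Subtype.ext hxy
    have e2 : w' ⟨s(x, y), hadj⟩ = ⟨w e, Submodule.subset_span ⟨_, e.2, rfl⟩⟩ := by
      apply Subtype.ext
      simp [w', ← e1]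
    rw [e2] at hs2
    have := hΨU ⟨w e, Submodule.subset_span ⟨_, e.2, rfl⟩⟩
    rw [hs2] at this
    exact this
  · intro X hX z
    obtain ⟨u, u', rfl⟩ := hdec z
    rw [hΨ]
    have hb := frame_bond hG w' hspan hind Φ hΦ hX u
    change sm (Φ u) X = 0 ↔ _
    rw [hb]
    set HX : Set E := {e | ∃ h : e ∉ D, ∀ x y, (φ ⟨e, h⟩ : Sym2 V) = s(x, y) → (x ∈ X ↔ y ∈ X)}
      with hHX
    set FX : Set G.edgeSet := {e | ∀ x y, (e : Sym2 V) = s(x, y) → (x ∈ X ↔ y ∈ X)} with hFX
    have hmap : Submodule.map U.subtype (Submodule.span (GaloisField 2 3) (w' '' FX)) =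
        Submodule.span (GaloisField 2 3) (w '' HX) := by
      rw [Submodule.map_span]
      congr 1
      ext z
      constructor
      · rintro ⟨_, ⟨e, he, rfl⟩, rfl⟩
        refine ⟨φ.symm e, ⟨(φ.symm e).2, ?_⟩, rfl⟩
        intro x y hxy
        refine he x y ?_
        rw [← hxy]
        congr 1
        exact (φ.apply_symm_apply e).symm
      · rintro ⟨e, ⟨he, he2⟩, rfl⟩
        exact ⟨w' (φ ⟨e, he⟩), ⟨_, fun x y hxy => he2 x y hxy, rfl⟩, by simp [w']⟩
    have hHU : Submodule.span (GaloisField 2 3) (w '' HX) ≤ U := Submodule.span_mono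
      (Set.image_mono fun e he => he.1)
    have h1 : u ∈ Submodule.span (GaloisField 2 3) (w' '' FX) ↔ (u : Fin r → (GaloisField 2 3)) ∈ Submodule.span (GaloisField 2 3) (w '' HX) := by
      rw [← hmap, Submodule.mem_map]
      constructor
      · intro h; exact ⟨u, h, rfl⟩
      · rintro ⟨u2, h, h2⟩
        have : u2 = u := Subtype.ext h2
        rwa [this] at h
    rw [h1, Set.image_union, Submodule.span_union, ← hW]
    constructor
    · intro h
      exact Submodule.add_mem_sup h u'.2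
    · intro h
      obtain ⟨a, ha, a', ha', h2⟩ := Submodule.mem_sup.1 h
      have h3 : (u : Fin r → (GaloisField 2 3)) - a = a' - u' := by
        rw [sub_eq_sub_iff_add_eq_add, h2.symm]; abel
      have h4 : (u : Fin r → (GaloisField 2 3)) - a ∈ U ⊓ W :=
        ⟨U.sub_mem u.2 (hHU ha), by rw [h3]; exact W.sub_mem ha' u'.2⟩
      rw [hc.inf_eq_bot, Submodule.mem_bot, sub_eq_zero] at h4
      rwa [h4]

end Pool.MP_4929df_co.H91
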