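import Pool.Agent.W_4929df_h91.Basic

/-! Step 6 (proofs row 432): triples of connected sets. -/

set_option autoImplicit false

namespace Pool.MP_4929df_co.H91

variable {V : Type*}

/-- the induction behind `extend3` -/
theorem Part3_ext [Finite V] {G : SimpleGraph V} {J : Set V} (n : ℕ) :
    ∀ P Q R : Set V, ((J ∪ P ∪ Q ∪ R)ᶜ).ncard = n → Cn G P → Cn G Q →
    Cn G R → Disjoint P Q → Disjoint P R → Disjoint Q R →
    Disjoint J P → Disjoint J Q → Disjoint J R →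
    (∀ P' Q' R' D : Set V, P ⊆ P' → Q ⊆ Q' → R ⊆ R' → Comp G (J ∪ P' ∪ Q' ∪ R')ᶜ D →
      (Nb G D ∩ (P' ∪ Q' ∪ R')).Nonempty) →
    ∃ P' Q' R' : Set V, P ⊆ P' ∧ Q ⊆ Q' ∧ R ⊆ R' ∧ Cn G P' ∧ Cn G Q' ∧ Cn G R' ∧ Disjoint P' Q' ∧
      Disjoint P' R' ∧ Disjoint Q' R' ∧ Disjoint J P' ∧ Disjoint J Q' ∧ Disjoint J R' ∧
      ∀ v, v ∈ J ∨ v ∈ P' ∨ v ∈ Q' ∨ v ∈ R' := by
  classical
  induction n using Nat.strong_induction_on with
  | _ n ih =>
    intro P Q R hn hP hQ hR hPQ hPR hQR hJP hJQ hJR hD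
    rcases Set.eq_empty_or_nonempty (J ∪ P ∪ Q ∪ R)ᶜ with hemp | ⟨u, hu⟩
    · refine ⟨P, Q, R, subset_rfl, subset_rfl, subset_rfl, hP, hQ, hR, hPQ, hPR, hQR, hJP, hJQ,
        hJR, fun v => ?_⟩
      have hv : v ∈ J ∪ P ∪ Q ∪ R := by
        by_contra hcon
        have : v ∈ (J ∪ P ∪ Q ∪ R)ᶜ := hcon
        rw [hemp] at this
        exact this
      simp only [Set.mem_union] at hv
      tauto
    · obtain ⟨D, hDc, huD⟩ := exists_comp G hu
      have hDsub : ∀ z ∈ D, z ∉ J ∧ z ∉ P ∧ z ∉ Q ∧ z ∉ R := by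
        intro z hz
        have h1 := hDc.1 hz
        simp only [Set.mem_compl_iff, Set.mem_union, not_or] at h1
        tauto
      have hDJ : Disjoint J D := Set.disjoint_right.2 fun z hz => (hDsub z hz).1
      have hDP : Disjoint D P := Set.disjoint_left.2 fun z hz => (hDsub z hz).2.1
      have hDQ : Disjoint D Q := Set.disjoint_left.2 fun z hz => (hDsub z hz).2.2.1
      have hDR : Disjoint D R := Set.disjoint_left.2 fun z hz => (hDsub z hz).2.2.2
      have hlt : ∀ P' Q' R' : Set V, P ⊆ P' → Q ⊆ Q' → R ⊆ R' → u ∈ P' ∪ Q' ∪ R' →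
          ((J ∪ P' ∪ Q' ∪ R')ᶜ).ncard < n := by
        intro P' Q' R' h1 h2 h3 hu'
        rw [← hn]
        refine Set.ncard_lt_ncard ⟨?_, fun hsub => ?_⟩ (Set.toFinite _)
        · intro z hz
          simp only [Set.mem_compl_iff, Set.mem_union, not_or] at hz ⊢
          exact ⟨⟨⟨hz.1.1.1, fun h => hz.1.1.2 (h1 h)⟩, fun h => hz.1.2 (h2 h)⟩,
            fun h => hz.2 (h3 h)⟩
        · have h4 := hsub hu
          simp only [Set.mem_compl_iff, Set.mem_union, not_or] at h4 hu'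
          tauto
      obtain ⟨w, ⟨hwD, a, haD, haw⟩, hw⟩ := hD P Q R D subset_rfl subset_rfl subset_rfl hDc
      rcases hw with (hwP | hwQ) | hwR
      · obtain ⟨P', Q', R', h1, h2⟩ := ih _ (hlt (P ∪ D) Q R Set.subset_union_left subset_rfl
          subset_rfl (Or.inl (Or.inl (Or.inr huD)))) (P ∪ D) Q R rfl
          (hP.union_adj hDc.2.1 hwP haD haw.symm) hQ hR
          (Set.disjoint_union_left.2 ⟨hPQ, hDQ⟩) (Set.disjoint_union_left.2 ⟨hPR, hDR⟩) hQR
          (Set.disjoint_union_right.2 ⟨hJP, hDJ⟩) hJQ hJR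
          (fun P' Q' R' D' k1 k2 k3 => hD P' Q' R' D' (Set.subset_union_left.trans k1) k2 k3)
        exact ⟨P', Q', R', Set.subset_union_left.trans h1, h2⟩
      · obtain ⟨P', Q', R', h1, h2, h3⟩ := ih _ (hlt P (Q ∪ D) R subset_rfl Set.subset_union_left
          subset_rfl (Or.inl (Or.inr (Or.inr huD)))) P (Q ∪ D) R rfl
          hP (hQ.union_adj hDc.2.1 hwQ haD haw.symm) hR
          (Set.disjoint_union_right.2 ⟨hPQ, hDP.symm⟩) hPR (Set.disjoint_union_left.2 ⟨hQR, hDR⟩)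
          hJP (Set.disjoint_union_right.2 ⟨hJQ, hDJ⟩) hJR
          (fun P' Q' R' D' k1 k2 k3 => hD P' Q' R' D' k1 (Set.subset_union_left.trans k2) k3)
        exact ⟨P', Q', R', h1, Set.subset_union_left.trans h2, h3⟩
      · obtain ⟨P', Q', R', h1, h2, h3, h4⟩ := ih _ (hlt P Q (R ∪ D) subset_rfl subset_rfl
          Set.subset_union_left (Or.inr (Or.inr huD))) P Q (R ∪ D) rfl
          hP hQ (hR.union_adj hDc.2.1 hwR haD haw.symm)
          hPQ (Set.disjoint_union_right.2 ⟨hPR, hDP.symm⟩)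
          (Set.disjoint_union_right.2 ⟨hQR, hDQ.symm⟩)
          hJP hJQ (Set.disjoint_union_right.2 ⟨hJR, hDJ⟩)
          (fun P' Q' R' D' k1 k2 k3 => hD P' Q' R' D' k1 k2 (Set.subset_union_left.trans k3))
        exact ⟨P', Q', R', h1, h2, Set.subset_union_left.trans h3, h4⟩

/-- a connected set with three different vertices is the union of three disjoint connected sets
containing them (maximal triple) -/
theorem Cn.part3 [Finite V] {G : SimpleGraph V} {U : Set V} (hU : Cn G U) {p q r : V} (hp : p ∈ U)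
    (hq : q ∈ U) (hr : r ∈ U) (hpq : p ≠ q) (hpr : p ≠ r) (hqr : q ≠ r) :
    ∃ P Q R : Set V, Cn G P ∧ Cn G Q ∧ Cn G R ∧ p ∈ P ∧ q ∈ Q ∧ r ∈ R ∧ Disjoint P Q ∧
      Disjoint P R ∧ Disjoint Q R ∧ P ∪ Q ∪ R = U := by
  have hdisj : ∀ z ∈ U, Disjoint Uᶜ ({z} : Set V) := fun z hz =>
    Set.disjoint_right.2 fun w hw h => h (by rw [Set.mem_singleton_iff.1 hw]; exact hz)
  obtain ⟨P, Q, R, h1, h2, h3, hP, hQ, hR, hPQ, hPR, hQR, hJP, hJQ, hJR, hcov⟩ :=
    Part3_ext (G := G) (J := Uᶜ) _ {p} {q} {r} rfl (cn_singleton G p) (cn_singleton G q)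
      (cn_singleton G r) (Set.disjoint_singleton.2 hpq) (Set.disjoint_singleton.2 hpr)
      (Set.disjoint_singleton.2 hqr) (hdisj p hp) (hdisj q hq) (hdisj r hr) (by
        intro P' Q' R' D k1 k2 k3 hD
        have hDU : D ⊆ U := by
          intro z hz
          have h := hD.1 hz
          simp only [Set.mem_compl_iff, Set.mem_union, not_or, not_not] at h
          exact h.1.1.1
        have hne : D ≠ U := by
          intro h
          have hpD : p ∈ D := by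
            rw [h]
            exact hp
          have h' := hD.1 hpD
          simp only [Set.mem_compl_iff, Set.mem_union, not_or, not_not] at h'
          exact h'.1.1.2 (k1 rfl)
        obtain ⟨a, ha, b, hb, hbD, hab⟩ := hU.exists_adj hDU hD.2.1.1 hne
        refine ⟨b, ⟨hbD, a, ha, hab⟩, ?_⟩
        by_contra hcon
        apply hbD
        refine hD.2.2 a ha b ?_ hab
        simp only [Set.mem_compl_iff, Set.mem_union, not_or, not_not] at hcon ⊢
        exact ⟨⟨⟨hb, hcon.1.1⟩, hcon.1.2⟩, hcon.2⟩)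
  have hsub : ∀ X : Set V, Disjoint Uᶜ X → X ⊆ U := by
    intro X hX z hz
    by_contra hcon
    exact Set.disjoint_left.1 hX hcon hz
  refine ⟨P, Q, R, hP, hQ, hR, h1 rfl, h2 rfl, h3 rfl, hPQ, hPR, hQR, ?_⟩
  refine Set.Subset.antisymm
    (Set.union_subset (Set.union_subset (hsub P hJP) (hsub Q hJQ)) (hsub R hJR)) ?_
  intro z hz
  rcases hcov z with h | h | h | h
  · exact absurd hz h
  · exact Or.inl (Or.inl h)
  · exact Or.inl (Or.inr h)
  · exact Or.inr h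

/-- a maximal disjoint triple of connected sets avoiding `J` covers `Jᶜ`, if every nonempty connected
set `D` disjoint from `J ∪ P ∪ Q ∪ R` that is a component of the complement is adjacent to
`P ∪ Q ∪ R` -/
theorem extend3 [Finite V] {G : SimpleGraph V} {J P Q R : Set V} (hP : Cn G P) (hQ : Cn G Q)
    (hR : Cn G R) (hPQ : Disjoint P Q) (hPR : Disjoint P R) (hQR : Disjoint Q R)
    (hJP : Disjoint J P) (hJQ : Disjoint J Q) (hJR : Disjoint J R)
    (hD : ∀ P' Q' R' D : Set V, P ⊆ P' → Q ⊆ Q' → R ⊆ R' → Comp G (J ∪ P' ∪ Q' ∪ R')ᶜ D →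
      (Nb G D ∩ (P' ∪ Q' ∪ R')).Nonempty) :
    ∃ P' Q' R' : Set V, P ⊆ P' ∧ Q ⊆ Q' ∧ R ⊆ R' ∧ Cn G P' ∧ Cn G Q' ∧ Cn G R' ∧ Disjoint P' Q' ∧
      Disjoint P' R' ∧ Disjoint Q' R' ∧ Disjoint J P' ∧ Disjoint J Q' ∧ Disjoint J R' ∧
      ∀ v, v ∈ J ∨ v ∈ P' ∨ v ∈ Q' ∨ v ∈ R' := by
  exact Part3_ext _ P Q R rfl hP hQ hR hPQ hPR hQR hJP hJQ hJR hD

end Pool.MP_4929df_co.H91
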