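import Pool.Agent.W_4929df_h91.Fan
import Pool.Agent.W_4929df_h91.Part3

/-! Step 6 (proofs row 432): from a star to a `K_{3,m}` model. -/

set_option autoImplicit false

namespace Pool.MP_4929df_co.H91

variable {V : Type*}

/-- the sets of a star avoid its centre -/
private theorem Model_not_mem {G : SimpleGraph V} {S : Set V} {k : ℕ}
    {T : Fin k → Set V} (h : Star G S k T) (i : Fin k) {v : V} (hv : v ∈ S) : v ∉ T i := by
  rw [← h.nb i] at hv
  exact hv.1

/-- leaving a set of a star one arrives in the centre -/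
private theorem Model_step {G : SimpleGraph V} {S : Set V} {k : ℕ}
    {T : Fin k → Set V} (h : Star G S k T) (i : Fin k) {v w : V} (hv : v ∈ T i)
    (hvw : G.Adj v w) (hw : w ∉ T i) : w ∈ S := by
  rw [← h.nb i]
  exact ⟨hw, v, hv, hvw⟩

/-- the complement of some sets of a star is connected, if one is kept -/
private theorem Model_rest [Finite V] {G : SimpleGraph V} (hG : C3 G) {S : Set V} {k : ℕ}
    {T : Fin k → Set V} (h : Star G S k T) (i₀ : Fin k) (I : Set (Fin k)) (hI : i₀ ∉ I) :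
    Cn G (⋃ i ∈ I, T i)ᶜ := by
  obtain ⟨t, ht⟩ := (h.conn i₀).1
  have hT0 : T i₀ ⊆ (⋃ i ∈ I, T i)ᶜ := by
    intro z hz hz2
    simp only [Set.mem_iUnion, exists_prop] at hz2
    obtain ⟨i, hi, hzi⟩ := hz2
    have hne : i₀ ≠ i := fun e => hI (e ▸ hi)
    exact Set.disjoint_left.1 (h.disj i₀ i hne) hz hzi
  have hS0 : S ⊆ (⋃ i ∈ I, T i)ᶜ := by
    intro z hz hz2
    simp only [Set.mem_iUnion, exists_prop] at hz2
    obtain ⟨i, hi, hzi⟩ := hz2
    exact Model_not_mem h i hz hzi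
  refine cn_of_base (x := t) (hT0 ht) fun A hA htA hcl => ?_
  have h1 : T i₀ ⊆ A := (h.conn i₀).subset_of_closed ⟨t, ht, htA⟩
    (fun a _ haA b hb hab => hcl a haA b (hT0 hb) hab)
  have h2 : S ⊆ A := by
    intro s hs
    have hs' := hs
    rw [← h.nb i₀] at hs'
    obtain ⟨_, b, hb, hbs⟩ := hs'
    exact hcl b (h1 hb) s (hS0 hs) hbs
  by_contra hne
  have hss : ∃ z ∈ (⋃ i ∈ I, T i)ᶜ, z ∉ A := by
    by_contra hcon
    push Not at hcon
    exact hne (Set.Subset.antisymm hA hcon)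
  obtain ⟨z, hz, hzA⟩ := hss
  have hB := (hG.univ).2 ((⋃ i ∈ I, T i)ᶜ \ A) (Set.subset_univ _) ⟨z, hz, hzA⟩ (by
    rintro a ⟨ha, haA⟩ b _ hab
    have hbV : b ∈ (⋃ i ∈ I, T i)ᶜ := by
      intro hb
      simp only [Set.mem_iUnion, exists_prop] at hb
      obtain ⟨i, hi, hbi⟩ := hb
      have haT : a ∉ T i := by
        intro h3
        apply ha
        simp only [Set.mem_iUnion, exists_prop]
        exact ⟨i, hi, h3⟩
      exact haA (h2 (Model_step h i hbi hab.symm haT))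
    refine ⟨hbV, fun hbA => haA ?_⟩
    exact hcl b hbA a ha hab.symm)
  have : t ∈ (⋃ i ∈ I, T i)ᶜ \ A := by
    rw [hB]
    trivial
  exact this.2 htA

/-- **Step 6.** Proof in row 432: fans for all `i`; `i₀ = 0` is set aside; pigeonhole on the triples
`(s 0, s 1, s 2)`: 41 indices `I` with the same triple `(p,q,r)`; `V₀ = (⋃ i ∈ I, T i)ᶜ` is connected
(`S ∪ T 0` is connected and every vertex of `V₀` reaches `S` inside `V₀`); `Cn.part3`; add the fan
sets; `extend3` with `J = {a i | i ∈ I}` (`a` is injective, the `T i` are disjoint). -/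
theorem star_model [Finite V] {G : SimpleGraph V} (hG : C3 G) {S : Set V} {k : ℕ}
    {T : Fin k → Set V} (h : Star G S k T) (hk : 41 * S.ncard ^ 3 + 1 ≤ k) (a : Fin k → V)
    (ha : ∀ i, a i ∈ T i) :
    ∃ J P Q R, K3 G J P Q R ∧ 41 ≤ J.ncard ∧ ∀ x ∈ J, ∃ i, x = a i := by
  classical
  have hfan := fun i => Star.fan hG h i (ha i)
  choose Q s hQ hQd using hfan
  have hsS : ∀ i j, s i j ∈ S := by
    intro i j
    have h1 : s i j ∈ Q i j ∩ S := by
      rw [(hQ i j).2.2.2]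
      rfl
    exact h1.2
  have hsQ : ∀ i j, s i j ∈ Q i j := by
    intro i j
    have h1 : s i j ∈ Q i j ∩ S := by
      rw [(hQ i j).2.2.2]
      rfl
    exact h1.1
  have hQT : ∀ i j v, v ∈ Q i j → (v ∈ T i ∧ v ≠ a i) ∨ v = s i j := by
    intro i j v hv
    rcases (hQ i j).2.1 hv with h1 | h1
    · exact Or.inl ⟨h1.1, h1.2⟩
    · right
      have h2 : v ∈ Q i j ∩ S := ⟨hv, h1⟩
      rw [(hQ i j).2.2.2] at h2
      exact h2
  have hs_ne : ∀ i j j', j ≠ j' → s i j ≠ s i j' := by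
    intro i j j' hjj' he
    exact Set.disjoint_left.1 (hQd i j j' hjj') (hsQ i j) (he ▸ hsQ i j')
  have hk0 : 0 < k := by omega
  obtain ⟨i₀, hi₀⟩ : ∃ i₀ : Fin k, i₀ = ⟨0, hk0⟩ := ⟨_, rfl⟩
  -- pigeonhole
  have hSf : S.Finite := Set.toFinite S
  have hSc : hSf.toFinset.card = S.ncard := (Set.ncard_eq_toFinset_card S hSf).symm
  obtain ⟨y, hy, hyc⟩ := Finset.exists_le_card_fiber_of_mul_le_card_of_maps_to
    (s := (Finset.univ : Finset (Fin k)).erase i₀)
    (t := hSf.toFinset ×ˢ (hSf.toFinset ×ˢ hSf.toFinset)) (f := fun i => (s i 0, s i 1, s i 2))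
    (n := 41) (by
      intro i _
      simp only [Finset.mem_product, Set.Finite.mem_toFinset]
      exact ⟨hsS i 0, hsS i 1, hsS i 2⟩) (by
      have h3 := h.three
      refine ⟨(s i₀ 0, s i₀ 1, s i₀ 2), ?_⟩
      simp only [Finset.mem_product, Set.Finite.mem_toFinset]
      exact ⟨hsS i₀ 0, hsS i₀ 1, hsS i₀ 2⟩) (by
      rw [Finset.card_erase_of_mem (Finset.mem_univ _), Finset.card_univ, Fintype.card_fin,
        Finset.card_product, Finset.card_product, hSc]
      have : S.ncard * (S.ncard * S.ncard) * 41 = 41 * S.ncard ^ 3 := by ring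
      omega)
  obtain ⟨p, q, r⟩ := y
  obtain ⟨I, hIdef⟩ : ∃ I : Finset (Fin k), I = {x ∈ (Finset.univ : Finset (Fin k)).erase i₀ |
    (s x 0, s x 1, s x 2) = (p, q, r)} := ⟨_, rfl⟩
  rw [← hIdef] at hyc
  have hIm : ∀ i ∈ I, i ≠ i₀ ∧ s i 0 = p ∧ s i 1 = q ∧ s i 2 = r := by
    intro i hi
    rw [hIdef, Finset.mem_filter, Finset.mem_erase] at hi
    simp only [Prod.mk.injEq] at hi
    exact ⟨hi.1.1, hi.2.1, hi.2.2.1, hi.2.2.2⟩
  have hIne : I.Nonempty := by
    rw [← Finset.card_pos]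
    omega
  obtain ⟨i₁, hi₁⟩ := hIne
  obtain ⟨-, hp1, hq1, hr1⟩ := hIm i₁ hi₁
  have hpS : p ∈ S := hp1 ▸ hsS i₁ 0
  have hqS : q ∈ S := hq1 ▸ hsS i₁ 1
  have hrS : r ∈ S := hr1 ▸ hsS i₁ 2
  have hpq : p ≠ q := by
    rw [← hp1, ← hq1]
    exact hs_ne i₁ 0 1 (by decide)
  have hpr : p ≠ r := by
    rw [← hp1, ← hr1]
    exact hs_ne i₁ 0 2 (by decide)
  have hqr : q ≠ r := by
    rw [← hq1, ← hr1]
    exact hs_ne i₁ 1 2 (by decide)
  -- the rest
  have hV0 : Cn G (⋃ i ∈ (I : Set (Fin k)), T i)ᶜ := Model_rest hG h i₀ I (by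
    intro hmem
    exact (hIm i₀ (by simpa using hmem)).1 rfl)
  obtain ⟨V0, hV0def⟩ : ∃ V0 : Set V, V0 = (⋃ i ∈ (I : Set (Fin k)), T i)ᶜ := ⟨_, rfl⟩
  rw [← hV0def] at hV0
  have hV0m : ∀ v, v ∈ V0 ↔ ∀ i ∈ I, v ∉ T i := by
    intro v
    rw [hV0def]
    simp only [Set.mem_compl_iff, Set.mem_iUnion, Finset.mem_coe, exists_prop, not_exists, not_and]
  have hSV0 : ∀ v ∈ S, v ∈ V0 := fun v hv => (hV0m v).2 fun i _ => Model_not_mem h i hv
  obtain ⟨P0, Q0, R0, hP0, hQ0, hR0, hpP, hqQ, hrR, dPQ, dPR, dQR, hU⟩ :=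
    hV0.part3 (hSV0 p hpS) (hSV0 q hqS) (hSV0 r hrS) hpq hpr hqr
  have hP0V : P0 ⊆ V0 := by
    rw [← hU]
    exact fun z hz => Or.inl (Or.inl hz)
  have hQ0V : Q0 ⊆ V0 := by
    rw [← hU]
    exact fun z hz => Or.inl (Or.inr hz)
  have hR0V : R0 ⊆ V0 := by
    rw [← hU]
    exact fun z hz => Or.inr hz
  -- generic facts on adding the fan sets
  have conn_add : ∀ (X : Set V) (j : Fin 3) (z : V), Cn G X → z ∈ X → (∀ i ∈ I, s i j = z) →
      Cn G (X ∪ ⋃ i : {i // i ∈ I}, Q i.1 j) := by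
    intro X j z hX hzX hz
    refine hX.union_iUnion fun i => ⟨(hQ i.1 j).1, Or.inl ⟨z, hzX, ?_⟩⟩
    rw [← hz i.1 i.2]
    exact hsQ i.1 j
  have mem_add : ∀ (X : Set V) (j : Fin 3) (v : V), v ∈ (X ∪ ⋃ i : {i // i ∈ I}, Q i.1 j) →
      v ∈ X ∨ ∃ i ∈ I, v ∈ Q i j := by
    intro X j v hv
    rcases hv with hv | hv
    · exact Or.inl hv
    · simp only [Set.mem_iUnion] at hv
      obtain ⟨i, hi⟩ := hv
      exact Or.inr ⟨i.1, i.2, hi⟩
  have disj_add : ∀ (X Y : Set V) (j j' : Fin 3) (z z' : V), j ≠ j' → X ⊆ V0 → Y ⊆ V0 →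
      Disjoint X Y → z ∈ X → z' ∈ Y → (∀ i ∈ I, s i j = z) → (∀ i ∈ I, s i j' = z') →
      Disjoint (X ∪ ⋃ i : {i // i ∈ I}, Q i.1 j) (Y ∪ ⋃ i : {i // i ∈ I}, Q i.1 j') := by
    intro X Y j j' z z' hjj' hXV hYV hXY hzX hzY hz hz'
    rw [Set.disjoint_left]
    intro v hv hv'
    have hzz : z ≠ z' := fun e => Set.disjoint_left.1 hXY hzX (e ▸ hzY)
    rcases mem_add X j v hv with h1 | ⟨i, hi, h1⟩
    · rcases mem_add Y j' v hv' with h2 | ⟨i', hi', h2⟩
      · exact Set.disjoint_left.1 hXY h1 h2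
      · rcases hQT i' j' v h2 with h3 | h3
        · exact (hV0m v).1 (hXV h1) i' hi' h3.1
        · rw [hz' i' hi'] at h3
          exact Set.disjoint_left.1 hXY h1 (h3 ▸ hzY)
    · rcases mem_add Y j' v hv' with h2 | ⟨i', hi', h2⟩
      · rcases hQT i j v h1 with h3 | h3
        · exact (hV0m v).1 (hYV h2) i hi h3.1
        · rw [hz i hi] at h3
          exact Set.disjoint_left.1 hXY (h3 ▸ hzX) h2
      · by_cases hii : i = i'
        · subst hii
          exact Set.disjoint_left.1 (hQd i j j' hjj') h1 h2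
        · rcases hQT i j v h1 with h3 | h3
          · rcases hQT i' j' v h2 with h4 | h4
            · exact Set.disjoint_left.1 (h.disj i i' hii) h3.1 h4.1
            · refine Model_not_mem h i ?_ h3.1
              rw [h4]
              exact hsS _ _
          · rcases hQT i' j' v h2 with h4 | h4
            · refine Model_not_mem h i' ?_ h4.1
              rw [h3]
              exact hsS _ _
            · rw [hz i hi] at h3
              rw [hz' i' hi'] at h4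
              exact hzz (h3.symm.trans h4)
  obtain ⟨J, hJ⟩ : ∃ J : Set V, J = a '' (I : Set (Fin k)) := ⟨_, rfl⟩
  have hJm : ∀ x ∈ J, ∃ i ∈ I, x = a i := by
    intro x hx
    rw [hJ] at hx
    obtain ⟨i, hi, rfl⟩ := hx
    exact ⟨i, by simpa using hi, rfl⟩
  have disjJ : ∀ (X : Set V) (j : Fin 3), X ⊆ V0 →
      Disjoint J (X ∪ ⋃ i : {i // i ∈ I}, Q i.1 j) := by
    intro X j hXV
    rw [Set.disjoint_left]
    intro v hv hv'
    obtain ⟨i, hi, rfl⟩ := hJm v hv
    rcases mem_add X j _ hv' with h1 | ⟨i', hi', h1⟩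
    · exact (hV0m _).1 (hXV h1) i hi (ha i)
    · rcases hQT i' j _ h1 with h3 | h3
      · by_cases hii : i = i'
        · subst hii
          exact h3.2 rfl
        · exact Set.disjoint_left.1 (h.disj i i' hii) (ha i) h3.1
      · refine Model_not_mem h i ?_ (ha i)
        rw [h3]
        exact hsS _ _
  have hsp : ∀ i ∈ I, s i 0 = p := fun i hi => (hIm i hi).2.1
  have hsq : ∀ i ∈ I, s i 1 = q := fun i hi => (hIm i hi).2.2.1
  have hsr : ∀ i ∈ I, s i 2 = r := fun i hi => (hIm i hi).2.2.2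
  obtain ⟨P, Q', R, h1, h2, h3, cP, cQ, cR, ePQ, ePR, eQR, eJP, eJQ, eJR, hcov⟩ :=
    extend3 (G := G) (J := J) (conn_add P0 0 p hP0 hpP hsp) (conn_add Q0 1 q hQ0 hqQ hsq)
      (conn_add R0 2 r hR0 hrR hsr)
      (disj_add P0 Q0 0 1 p q (by decide) hP0V hQ0V dPQ hpP hqQ hsp hsq)
      (disj_add P0 R0 0 2 p r (by decide) hP0V hR0V dPR hpP hrR hsp hsr)
      (disj_add Q0 R0 1 2 q r (by decide) hQ0V hR0V dQR hqQ hrR hsq hsr)
      (disjJ P0 0 hP0V) (disjJ Q0 1 hQ0V) (disjJ R0 2 hR0V) (by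
      intro P' Q' R' D k1 k2 k3 hD
      have hDV : ∀ v ∈ D, v ∉ V0 := by
        intro v hv hv0
        have h4 := hD.1 hv
        simp only [Set.mem_compl_iff, Set.mem_union, not_or] at h4
        rw [← hU] at hv0
        rcases hv0 with (h5 | h5) | h5
        · exact h4.1.1.2 (k1 (Or.inl h5))
        · exact h4.1.2 (k2 (Or.inl h5))
        · exact h4.2 (k3 (Or.inl h5))
      obtain ⟨d, hd⟩ := hD.2.1.1
      have hd2 := hDV d hd
      rw [hV0m] at hd2
      push Not at hd2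
      obtain ⟨i, hi, hdi⟩ := hd2
      have hDT : D ⊆ T i := by
        refine hD.2.1.subset_of_closed ⟨d, hd, hdi⟩ ?_
        intro v hv hvT w hw hvw
        by_contra hwT
        exact hDV w hw (hSV0 w (Model_step h i hvT hvw hwT))
      have hi0 : i ≠ i₀ := (hIm i hi).1
      have hcard : 3 ≤ (Nb G D).ncard := by
        refine hG.three_le_nb ⟨d, hd⟩ ⟨a i₀, ?_, ?_⟩
        · intro h4
          exact Set.disjoint_left.1 (h.disj i i₀ hi0) (hDT h4) (ha i₀)
        · rintro ⟨_, w, hw, hwa⟩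
          have h5 : a i₀ ∉ T i := fun h6 => Set.disjoint_left.1 (h.disj i i₀ hi0) h6 (ha i₀)
          exact Model_not_mem h i₀ (Model_step h i (hDT hw) hwa h5) (ha i₀)
      by_contra hcon
      have hsub : Nb G D ⊆ {a i} := by
        intro v hv
        have h4 := hD.nb_subset hv
        rw [compl_compl] at h4
        have h5 : v ∈ J := by
          by_contra h6
          apply hcon
          refine ⟨v, hv, ?_⟩
          simp only [Set.mem_union] at h4 ⊢
          tauto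
        obtain ⟨i', hi', rfl⟩ := hJm v h5
        obtain ⟨_, w, hw, hwa⟩ := hv
        by_cases hii : i = i'
        · rw [hii]
          rfl
        · exfalso
          have h7 : a i' ∉ T i := fun h6 => Set.disjoint_left.1 (h.disj i i' hii) h6 (ha i')
          exact Model_not_mem h i' (Model_step h i (hDT hw) hwa h7) (ha i')
      have := Set.ncard_le_ncard hsub (Set.toFinite _)
      rw [Set.ncard_singleton] at this
      omega)
  have mem_fan : ∀ (X Y : Set V) (j : Fin 3), (X ∪ ⋃ i : {i // i ∈ I}, Q i.1 j) ⊆ Y →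
      ∀ x ∈ J, ∃ c ∈ Y, G.Adj x c := by
    intro X Y j hXY x hx
    obtain ⟨i, hi, rfl⟩ := hJm x hx
    obtain ⟨c, hc, hac⟩ := (hQ i j).2.2.1
    exact ⟨c, hXY (Or.inr (Set.mem_iUnion.2 ⟨⟨i, hi⟩, hc⟩)), hac⟩
  refine ⟨J, P, Q', R, ⟨cP, cQ, cR, ePQ, ePR, eQR, eJP, eJQ, eJR, hcov, mem_fan P0 P 0 h1,
    mem_fan Q0 Q' 1 h2, mem_fan R0 R 2 h3⟩, ?_, ?_⟩
  · have hinj : Set.InjOn a (I : Set (Fin k)) := by
      intro i _ i' _ he
      by_contra hne
      exact Set.disjoint_left.1 (h.disj i i' hne) (ha i) (he ▸ ha i')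
    rw [hJ, hinj.ncard_image, Set.ncard_coe_finset]
    exact hyc
  · intro x hx
    obtain ⟨i, _, hi⟩ := hJm x hx
    exact ⟨i, hi⟩

end Pool.MP_4929df_co.H91
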