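import Pool.Agent.W_4929df_h91.ParityCore

/-! Step 7 (proofs row 432): the parity argument. -/

set_option autoImplicit false

namespace Pool.MP_4929df_co.H91

theorem K3.swapPQ {V : Type*} {G : SimpleGraph V} {J P Q R : Set V} (h : K3 G J P Q R) :
    K3 G J Q P R where
  cP := h.cQ
  cQ := h.cP
  cR := h.cR
  PQ := h.PQ.symm
  PR := h.QR
  QR := h.PR
  JP := h.JQ
  JQ := h.JP
  JR := h.JR
  cover := fun v => by
    rcases h.cover v with h1 | h1 | h1 | h1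
    · exact Or.inl h1
    · exact Or.inr (Or.inr (Or.inl h1))
    · exact Or.inr (Or.inl h1)
    · exact Or.inr (Or.inr (Or.inr h1))
  adjP := h.adjQ
  adjQ := h.adjP
  adjR := h.adjR

theorem K3.swapPR {V : Type*} {G : SimpleGraph V} {J P Q R : Set V} (h : K3 G J P Q R) :
    K3 G J R Q P where
  cP := h.cR
  cQ := h.cQ
  cR := h.cP
  PQ := h.QR.symm
  PR := h.PR.symm
  QR := h.PQ.symm
  JP := h.JR
  JQ := h.JQ
  JR := h.JP
  cover := fun v => by
    rcases h.cover v with h1 | h1 | h1 | h1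
    · exact Or.inl h1
    · exact Or.inr (Or.inr (Or.inr h1))
    · exact Or.inr (Or.inr (Or.inl h1))
    · exact Or.inr (Or.inl h1)
  adjP := h.adjR
  adjQ := h.adjQ
  adjR := h.adjP

/-- move the elements outside `J'` into the hub `P` -/
theorem K3.move {V : Type*} {G : SimpleGraph V} {J P Q R : Set V} (h : K3 G J P Q R) {J' : Set V}
    (hJ : J' ⊆ J) : K3 G J' (P ∪ (J \ J')) Q R where
  cP := by
    have h1 := h.cP.union_sUnion (𝒴 := (fun v => ({v} : Set V)) '' (J \ J')) (by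
      rintro _ ⟨a, ha, rfl⟩
      refine ⟨cn_singleton G a, Or.inr ?_⟩
      obtain ⟨p, hp, hap⟩ := h.adjP a ha.1
      exact ⟨p, hp, a, rfl, hap.symm⟩)
    have h2 : ⋃₀ ((fun v => ({v} : Set V)) '' (J \ J')) = J \ J' := by
      ext x
      simp
    rwa [h2] at h1
  cQ := h.cQ
  cR := h.cR
  PQ := Disjoint.union_left h.PQ (h.JQ.mono_left Set.sdiff_subset)
  PR := Disjoint.union_left h.PR (h.JR.mono_left Set.sdiff_subset)
  QR := h.QR
  JP := by
    refine Disjoint.union_right (h.JP.mono_left hJ) ?_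
    exact Set.disjoint_left.2 fun x hx h2 => h2.2 hx
  JQ := h.JQ.mono_left hJ
  JR := h.JR.mono_left hJ
  cover := fun v => by
    rcases h.cover v with h1 | h1 | h1 | h1
    · by_cases hv : v ∈ J'
      · exact Or.inl hv
      · exact Or.inr (Or.inl (Or.inr ⟨h1, hv⟩))
    · exact Or.inr (Or.inl (Or.inl h1))
    · exact Or.inr (Or.inr (Or.inl h1))
    · exact Or.inr (Or.inr (Or.inr h1))
  adjP := fun a ha => by
    obtain ⟨p, hp, hap⟩ := h.adjP a (hJ ha)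
    exact ⟨p, Or.inl hp, hap⟩
  adjQ := fun a ha => h.adjQ a (hJ ha)
  adjR := fun a ha => h.adjR a (hJ ha)

variable {V : Type*} [Fintype V] {A : Type*} [AddCommGroup A]

theorem K3_core' (hA : ∀ a : A, a + a = 0) (h8 : Nat.card A = 8) {G : SimpleGraph V} (hG : C3 G)
    {F : Set (V → A)} (hF : PP G F) {J J' P Q R : Set V} (hK : K3 G J P Q R) (hJ : J' ⊆ J)
    (h5 : 5 ≤ J'.ncard)
    (hPQ : ∃ p ∈ P, ∃ q ∈ Q, G.Adj p q) (hPR : ∃ p ∈ P, ∃ q ∈ R, G.Adj p q)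
    (hQR : ∃ p ∈ Q, ∃ q ∈ R, G.Adj p q) (hb : ∀ a ∈ J', ∃ b ∈ P, Lk F a b) : False := by
  refine K3_core hA h8 hG hF (hK.move hJ) h5 ?_ ?_ hQR ?_
  · obtain ⟨p, hp, h⟩ := hPQ
    exact ⟨p, Or.inl hp, h⟩
  · obtain ⟨p, hp, h⟩ := hPR
    exact ⟨p, Or.inl hp, h⟩
  · intro a ha
    obtain ⟨b, hb1, hb2⟩ := hb a ha
    exact ⟨b, Or.inl hb1, hb2⟩

/-- **Step 7.** Proof in row 432: put one element of `J` into `P`, one into `Q` (hubs pairwise
adjacent), `exists_indep`, put the rest into `P`, pigeonhole on the hub that contains the partner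
(`13 ≤`, three hubs, so 5 in one), put the rest into `P` again, rename the hubs, `K3_core`. -/
theorem K3_false (hA : ∀ a : A, a + a = 0) (h8 : Nat.card A = 8) {G : SimpleGraph V} (hG : C3 G)
    {F : Set (V → A)} (hF : PP G F) {J P Q R : Set V} (hK : K3 G J P Q R) (h41 : 41 ≤ J.ncard)
    (hb : ∀ a ∈ J, ∃ b, Lk F a b) : False := by
  classical
  obtain ⟨c, hc, d, hd, hcd⟩ := Set.one_lt_ncard (s := J) |>.1 (by omega)
  -- hubs pairwise adjacent
  have hK1 : K3 G (J \ {c, d}) (P ∪ {c}) (Q ∪ {d}) R := by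
    have h1 := hK.move (J' := J \ {c}) Set.sdiff_subset
    have e1 : J \ (J \ {c}) = {c} := by
      ext x
      simp only [Set.mem_sdiff, Set.mem_singleton_iff, not_and, not_not]
      constructor
      · rintro ⟨h1, h2⟩
        exact h2 h1
      · rintro rfl
        exact ⟨hc, fun _ => rfl⟩
    rw [e1] at h1
    have h2 := (h1.swapPQ.move (J' := J \ {c, d}) (by
      intro x hx
      exact ⟨hx.1, fun h => hx.2 (Or.inl h)⟩)).swapPQ
    have e2 : (J \ {c}) \ (J \ {c, d}) = {d} := by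
      ext x
      simp only [Set.mem_sdiff, Set.mem_singleton_iff, Set.mem_insert_iff, not_and, not_not]
      constructor
      · rintro ⟨⟨h1, h2⟩, h3⟩
        rcases h3 h1 with h | h
        · exact absurd h h2
        · exact h
      · rintro rfl
        exact ⟨⟨hd, fun h => hcd h.symm⟩, fun _ => Or.inr rfl⟩
    rwa [e2] at h2
  have hPQ : ∃ p ∈ P ∪ {c}, ∃ q ∈ Q ∪ {d}, G.Adj p q := by
    obtain ⟨q, hq, h⟩ := hK.adjQ c hc
    exact ⟨c, Or.inr rfl, q, Or.inl hq, h⟩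
  have hPR : ∃ p ∈ P ∪ {c}, ∃ q ∈ R, G.Adj p q := by
    obtain ⟨q, hq, h⟩ := hK.adjR c hc
    exact ⟨c, Or.inr rfl, q, hq, h⟩
  have hQR : ∃ p ∈ Q ∪ {d}, ∃ q ∈ R, G.Adj p q := by
    obtain ⟨q, hq, h⟩ := hK.adjR d hd
    exact ⟨d, Or.inr rfl, q, hq, h⟩
  -- partners
  have hb' : ∀ a, ∃ b, a ∈ J → Lk F a b := by
    intro a
    by_cases ha : a ∈ J
    · obtain ⟨b, h⟩ := hb a ha
      exact ⟨b, fun _ => h⟩
    · exact ⟨a, fun h => absurd h ha⟩
  choose b hb2 using hb'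
  have hfin : (J \ {c, d}).Finite := Set.toFinite _
  obtain ⟨J₁, hJ₁, hJ₁c, hJ₁b⟩ := exists_indep hfin.toFinset b (by
    intro a ha h
    rw [Set.Finite.mem_toFinset] at ha
    exact (hb2 a ha.1).1 h.symm)
  have hJ39 : 39 ≤ (J \ {c, d}).ncard := by
    have h1 := Set.ncard_le_ncard (s := J) (t := (J \ {c, d}) ∪ {c, d}) (by
      intro x hx
      by_cases h : x ∈ ({c, d} : Set V)
      · exact Or.inr h
      · exact Or.inl ⟨hx, h⟩) (Set.toFinite _)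
    have h2 := Set.ncard_union_le (J \ {c, d}) {c, d}
    have h3 : ({c, d} : Set V).ncard = 2 := Set.ncard_pair hcd
    omega
  have h13 : 13 ≤ J₁.card := by
    rw [Set.ncard_eq_toFinset_card _ hfin] at hJ39
    omega
  have hsub : (J₁ : Set V) ⊆ J \ {c, d} := by
    intro x hx
    exact (Set.Finite.mem_toFinset hfin).1 (hJ₁ hx)
  have hK2 := hK1.move hsub
  set P₂ : Set V := P ∪ {c} ∪ (J \ {c, d}) \ (J₁ : Set V) with hP₂
  have hPQ2 : ∃ p ∈ P₂, ∃ q ∈ Q ∪ {d}, G.Adj p q := by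
    obtain ⟨p, hp, h⟩ := hPQ
    exact ⟨p, Or.inl hp, h⟩
  have hPR2 : ∃ p ∈ P₂, ∃ q ∈ R, G.Adj p q := by
    obtain ⟨p, hp, h⟩ := hPR
    exact ⟨p, Or.inl hp, h⟩
  -- the three classes
  let S : Set V → Set V := fun H => {a | a ∈ J₁ ∧ b a ∈ H}
  have hcov : (J₁ : Set V) ⊆ S P₂ ∪ (S (Q ∪ {d}) ∪ S R) := by
    intro a ha
    rcases hK2.cover (b a) with h | h | h | h
    · exact absurd h (hJ₁b a ha)
    · exact Or.inl ⟨ha, h⟩
    · exact Or.inr (Or.inl ⟨ha, h⟩)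
    · exact Or.inr (Or.inr ⟨ha, h⟩)
  have hSsub : ∀ H, S H ⊆ (J₁ : Set V) := fun H a ha => ha.1
  have hSLk : ∀ H, ∀ a ∈ S H, ∃ b' ∈ H, Lk F a b' := fun H a ha =>
    ⟨b a, ha.2, hb2 a (hsub ha.1).1⟩
  have hsum : 13 ≤ (S P₂).ncard + ((S (Q ∪ {d})).ncard + (S R).ncard) := by
    have h1 := Set.ncard_le_ncard hcov (Set.toFinite _)
    rw [Set.ncard_coe_finset] at h1
    have h2 := Set.ncard_union_le (S P₂) (S (Q ∪ {d}) ∪ S R)
    have h3 := Set.ncard_union_le (S (Q ∪ {d})) (S R)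
    omega
  have hcases : 5 ≤ (S P₂).ncard ∨ 5 ≤ (S (Q ∪ {d})).ncard ∨ 5 ≤ (S R).ncard := by omega
  have hsw : ∀ {X Y : Set V}, (∃ p ∈ X, ∃ q ∈ Y, G.Adj p q) → ∃ p ∈ Y, ∃ q ∈ X, G.Adj p q := by
    rintro X Y ⟨p, hp, q, hq, h⟩
    exact ⟨q, hq, p, hp, h.symm⟩
  rcases hcases with h | h | h
  · exact K3_core' hA h8 hG hF hK2 (hSsub P₂) h hPQ2 hPR2 hQR (hSLk P₂)
  · exact K3_core' hA h8 hG hF hK2.swapPQ (hSsub (Q ∪ {d})) h (hsw hPQ2) hQR hPR2
      (hSLk (Q ∪ {d}))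
  · exact K3_core' hA h8 hG hF hK2.swapPR (hSsub R) h (hsw hQR) (hsw hPR2) (hsw hPQ2) (hSLk R)

end Pool.MP_4929df_co.H91
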