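import Pool.Agent.W_4929df_h91.Near
import Pool.Agent.W_4929df_h91.Contract
import Pool.Agent.W_4929df_h91.Cycle
import Pool.Agent.W_4929df_h91.DfsStar
import Pool.Agent.W_4929df_h91.Model
import Pool.Agent.W_4929df_h91.Parity

/-! Step 8 (proofs row 432): the main graph theorem. -/

set_option autoImplicit false

namespace Pool.MP_4929df_co.H91

/-- **Main graph theorem.** Proof in row 432, steps 1 and 8: `C = 8 ^ n0`,
`n0 = max 5 (n1 136 (41 * 137 ^ 3 + 1))`. Strong induction on `Nat.card V`: if `|F| > C` then
`n > n0` (`|F| ≤ 8 ^ n`); if some contractible edge is not linked use `contract_step` and the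
induction hypothesis; otherwise all contractible edges are linked; `exists_ctr_near`, `Lk.sep`,
`no_long_cycle` (for one `h ∈ F`), `exists_star`, an element `a i ∈ T i` with a partner (a vertex of
`S` has neighbours in all `T i`, so its degree is at least `k > 3`), `star_model`, `K3_false`. -/
theorem graph_bound {A : Type} [AddCommGroup A] (hA : ∀ a : A, a + a = 0) (h8 : Nat.card A = 8) :
    ∃ C : ℕ, ∀ (V : Type) [Fintype V] (G : SimpleGraph V) (F : Set (V → A)), C3 G → PP G F →
      F.ncard ≤ C := by
  classical
  have hfinA : Finite A := Nat.finite_of_card_ne_zero (by omega)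
  obtain ⟨n1, hn1⟩ := exists_star 136 (41 * 137 ^ 3 + 1) (by norm_num) (by norm_num)
  refine ⟨8 ^ (max 5 n1), ?_⟩
  have key : ∀ N : ℕ, ∀ (V : Type) [Fintype V] (G : SimpleGraph V) (F : Set (V → A)),
      Nat.card V = N → C3 G → PP G F → F.ncard ≤ 8 ^ (max 5 n1) := by
    intro N
    induction N using Nat.strong_induction_on with
    | _ N ih =>
      intro V _ G F hN hG hF
      by_cases hsmall : Nat.card V ≤ max 5 n1
      · have h1 : F.ncard ≤ Nat.card (V → A) := by
          rw [← Set.ncard_univ]
          exact Set.ncard_le_ncard (Set.subset_univ F) (Set.toFinite _)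
        have h2 : Nat.card (V → A) = 8 ^ Nat.card V := by
          rw [Nat.card_fun, h8]
        rw [h2] at h1
        exact h1.trans (Nat.pow_le_pow_right (by norm_num) hsmall)
      · push Not at hsmall
        have h5 : 5 ≤ Nat.card V := (le_max_left 5 n1).trans hsmall.le
        have hn1V : n1 ≤ Nat.card V := (le_max_right 5 n1).trans hsmall.le
        by_cases hex : ∃ x y, Ctr G x y ∧ ¬ Lk F x y
        · obtain ⟨x, y, hxy, hno⟩ := hex
          obtain ⟨V', hV', G', F', hc, hG', hF', hcard⟩ :=
            contract_step hA G hG h5 F hF hxy hno
          rw [← hcard]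
          exact ih (Nat.card V') (by omega) V' G' F' rfl hG' hF'
        · push Not at hex
          rcases Set.eq_empty_or_nonempty F with hFe | ⟨h, hh⟩
          · rw [hFe, Set.ncard_empty]
            exact Nat.zero_le _
          · exfalso
            have hw : ∀ u, ∃ a b, a ≠ b ∧ Sp G h a b ∧
                (a = u ∨ (G.Adj u a ∧ b ≠ u ∧ (Nb G {a}).ncard ≤ 3)) := by
              intro u
              obtain ⟨a, b, hab, h2⟩ := exists_ctr_near G hG h5 u
              exact ⟨a, b, hab.1.ne, (hex a b hab).sep hF h hh, h2⟩
            have hcyc : ∀ c, Cyc G c → c.length < 136 := fun c hc =>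
              no_long_cycle h8 hG h hw hc
            obtain ⟨S, T, hST, hS⟩ := hn1 V G hG hn1V hcyc
            have ha : ∀ i, ∃ a, a ∈ T i ∧ ∃ b, Lk F a b := by
              intro i
              obtain ⟨u, hu⟩ := (hST.conn i).1
              obtain ⟨a, b, hab, h2⟩ := exists_ctr_near G hG h5 u
              refine ⟨a, ?_, b, hex a b hab⟩
              rcases h2 with h2 | ⟨h2, _, h3⟩
              · rw [h2]
                exact hu
              · by_contra haT
                have haS : a ∈ S := by
                  rw [← hST.nb i]
                  exact ⟨haT, u, hu, h2⟩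
                have ht : ∀ j, ∃ t ∈ T j, G.Adj t a := by
                  intro j
                  have h4 : a ∈ Nb G (T j) := by
                    rw [hST.nb j]
                    exact haS
                  exact h4.2
                choose t htT hta using ht
                have hinj : Function.Injective t := by
                  intro j j' hj
                  by_contra hne
                  have h5' := hST.disj j j' hne
                  refine Set.disjoint_left.1 h5' (htT j) ?_
                  rw [hj]
                  exact htT j'
                have hsub : Set.range t ⊆ Nb G {a} := by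
                  rintro _ ⟨j, rfl⟩
                  refine ⟨?_, a, rfl, (hta j).symm⟩
                  rw [Set.mem_singleton_iff]
                  exact (hta j).ne
                have h6 := Set.ncard_le_ncard hsub (Set.toFinite _)
                have h7 : (Set.range t).ncard = 41 * 137 ^ 3 + 1 := by
                  rw [← Set.image_univ, Set.ncard_image_of_injective _ hinj, Set.ncard_univ,
                    Nat.card_fin]
                omega
            choose a haT b hb using ha
            have hk : 41 * S.ncard ^ 3 + 1 ≤ 41 * 137 ^ 3 + 1 := by
              have h4 : S.ncard ^ 3 ≤ 137 ^ 3 := Nat.pow_le_pow_left hS 3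
              omega
            obtain ⟨J, P, Q, R, hK, h41, hJ⟩ := star_model hG hST hk a haT
            refine K3_false hA h8 hG hF hK h41 ?_
            intro x hx
            obtain ⟨i, rfl⟩ := hJ x hx
            exact ⟨b i, hb i⟩
  intro V _ G F hG hF
  exact key (Nat.card V) V G F rfl hG hF

end Pool.MP_4929df_co.H91
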