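import Pool.Agent.W_4929df_h91.PartTwo

/-!
MP_4929df_co. GF(8)-representations of matroids `M` such that `M` delete `D` is the cycle matroid of a
graph `G`, where `D` has at most `t` elements, in two cases: `G` is 3-connected, or `D` is a single
element and `M` is 4-connected. The number of inequivalent GF(8)-representations is bounded by a
constant that depends only on `t`.
-/

set_option autoImplicit false

namespace Pool.Agent.Results.MP_4929df_co.GraphicExtensions

/-- 3-connected graphs: at least 4 vertices, and connected after the deletion of at most 2 vertices -/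
def ThreeConnected {V : Type} (G : SimpleGraph V) : Prop :=
  4 ≤ Nat.card V ∧ ∀ S : Set V, S.ncard ≤ 2 → (G.induce Sᶜ).Connected

/-- the matroid of the vectors `v` is 4-connected (the hypothesis of the frozen statement) -/
def FourConnected {E : Type} {m : ℕ} (v : E → (Fin m → GaloisField 2 3)) : Prop :=
  ∀ X : Set E, ∀ j : ℕ, j < 4 → j ≤ X.ncard → j ≤ Xᶜ.ncard →
    Module.finrank (GaloisField 2 3) (Submodule.span (GaloisField 2 3) (Set.range v)) + j ≤
      Module.finrank (GaloisField 2 3) (Submodule.span (GaloisField 2 3) (v '' X)) +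
      Module.finrank (GaloisField 2 3) (Submodule.span (GaloisField 2 3) (v '' Xᶜ))

/-- the matroid of the vectors `v`, with the set `D` deleted, is the cycle matroid of `G`: `φ`
identifies the elements outside `D` with the edges of `G`, and a set of elements outside `D` is
independent iff its edges form a forest -/
def DeleteIsCycleMatroid {E : Type} {m : ℕ} (v : E → (Fin m → GaloisField 2 3)) (D : Set E)
    {V : Type} (G : SimpleGraph V) (φ : {e // e ∉ D} ≃ G.edgeSet) : Prop :=
  ∀ S : Set {e // e ∉ D},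
    LinearIndependent (GaloisField 2 3) (fun s : S => v (s : {e // e ∉ D})) ↔
      (SimpleGraph.fromEdgeSet ((fun e => (φ e : Sym2 V)) '' S)).IsAcyclic

theorem result (t : ℕ) : ∃ k : ℕ, ∀ (E : Type) [Fintype E] (m : ℕ)
    (v : E → (Fin m → GaloisField 2 3)) (D : Set E), D.ncard ≤ t →
    ∀ (V : Type) [Fintype V] (G : SimpleGraph V) (φ : {e // e ∉ D} ≃ G.edgeSet),
      DeleteIsCycleMatroid v D G φ → (ThreeConnected G ∨ (D.ncard = 1 ∧ FourConnected v)) →
    ∀ r : ℕ, ∀ w : Fin (k + 1) → E → (Fin r → GaloisField 2 3),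
      (∀ i, Submodule.span (GaloisField 2 3) (Set.range (w i)) = ⊤ ∧
        ∀ S : Set E, (LinearIndependent (GaloisField 2 3) (fun s : S => w i (s : E)) ↔
          LinearIndependent (GaloisField 2 3) (fun s : S => v (s : E)))) →
      ∃ i j : Fin (k + 1), i ≠ j ∧
        ∃ g : (Fin r → GaloisField 2 3) ≃ₗ[GaloisField 2 3] (Fin r → GaloisField 2 3),
        ∃ c : E → GaloisField 2 3, (∀ e, c e ≠ 0) ∧ ∀ e, w i e = c e • g (w j e) := by
  obtain ⟨k1, hk1⟩ := Pool.MP_4929df_co.H91.part_one t
  obtain ⟨k2, hk2⟩ := Pool.MP_4929df_co.H91.part_two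
  refine ⟨max k1 k2, ?_⟩
  intro E _ m v D hD V _ G φ hφ hcase r w hw
  have hle1 : k1 + 1 ≤ max k1 k2 + 1 := Nat.succ_le_succ (le_max_left _ _)
  have hle2 : k2 + 1 ≤ max k1 k2 + 1 := Nat.succ_le_succ (le_max_right _ _)
  rcases hcase with h3 | ⟨hD1, h4⟩
  · obtain ⟨i, j, hij, g, c, hc, h⟩ := hk1 E m v D hD V G
      (Pool.MP_4929df_co.H91.c3_iff.2 h3) φ hφ r (fun i => w (Fin.castLE hle1 i)) (fun i => hw _)
    exact ⟨Fin.castLE hle1 i, Fin.castLE hle1 j, fun h' => hij (Fin.castLE_injective hle1 h'), g, c,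
      hc, h⟩
  · obtain ⟨e₀, rfl⟩ := Set.ncard_eq_one.1 hD1
    obtain ⟨i, j, hij, g, c, hc, h⟩ := hk2 E m v h4 e₀ V G φ hφ r
      (fun i => w (Fin.castLE hle2 i)) (fun i => hw _)
    exact ⟨Fin.castLE hle2 i, Fin.castLE hle2 j, fun h' => hij (Fin.castLE_injective hle2 h'), g, c,
      hc, h⟩

end Pool.Agent.Results.MP_4929df_co.GraphicExtensions
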