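import Pool.Agent.W_4929df_h91.Paths

/-! Cycles from handles (proofs row 432, step 5). -/

set_option autoImplicit false

namespace Pool.MP_4929df_co.H91

variable {V : Type*}

/-- **Handle.** A path `w_1 w_2 ... w_s` (`s ≥ 2`) and a connected set `C` disjoint from it and
adjacent to both ends give a cycle with at least `s + 1` vertices. -/
theorem cyc_of_handle {G : SimpleGraph V} {l : List V} (h2 : 2 ≤ l.length) (hch : l.IsChain G.Adj)
    (hnd : l.Nodup) {C : Set V} (hC : Cn G C) (hdis : ∀ v ∈ l, v ∉ C)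
    (hfirst : ∀ v ∈ l.head?, ∃ c ∈ C, G.Adj c v) (hlast : ∀ v ∈ l.getLast?, ∃ c ∈ C, G.Adj v c) :
    ∃ c, Cyc G c ∧ l.length + 1 ≤ c.length := by
  have hne : l ≠ [] := by
    rintro rfl
    simp at h2
  obtain ⟨w1, hw1⟩ : ∃ v, l.head? = some v := ⟨l.head hne, List.head?_eq_some_head hne⟩
  obtain ⟨w2, hw2⟩ : ∃ v, l.getLast? = some v := ⟨l.getLast hne, List.getLast?_eq_some_getLast hne⟩
  obtain ⟨c1, hc1, hc1'⟩ := hfirst w1 hw1
  obtain ⟨c2, hc2, hc2'⟩ := hlast w2 hw2
  obtain ⟨p, hpne, hpnd, hpch, hpC, hph, hpl⟩ := hC.exists_path hc2 hc1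
  have hlen : 1 ≤ p.length := List.length_pos_of_ne_nil hpne
  refine ⟨l ++ p, ⟨?_, ?_, ?_, ?_⟩, ?_⟩
  · rw [List.length_append]
    omega
  · rw [List.nodup_append]
    exact ⟨hnd, hpnd, fun a ha b hb e => hdis a ha (e ▸ hpC b hb)⟩
  · rw [List.isChain_append]
    refine ⟨hch, hpch, fun a ha b hb => ?_⟩
    rw [hw2] at ha
    rw [hph] at hb
    cases ha
    cases hb
    exact hc2'
  · intro a ha b hb
    rw [List.getLast?_append_of_ne_nil _ hpne, hpl] at ha
    rw [List.head?_append_of_ne_nil _ hne, hw1] at hb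
    cases ha
    cases hb
    exact hc1'
  · rw [List.length_append]
    omega

/-- **Cycle through two vertices.** `x ≠ y`, two disjoint connected sets avoiding `x, y`, each
adjacent to `x` and to `y`; the first one contains `s` different vertices on every path from the
neighbours of `x` to the neighbours of `y` (`hlong`). Then there is a cycle with at least `s + 3`
vertices: `x`, a path in `Q1`, `y`, a path in `Q2`. -/
theorem cyc_of_two {G : SimpleGraph V} {x y : V} (hxy : x ≠ y) {Q1 Q2 : Set V} (h1 : Cn G Q1)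
    (h2 : Cn G Q2) (hd : Disjoint Q1 Q2) (hx1 : x ∉ Q1) (hx2 : x ∉ Q2) (hy1 : y ∉ Q1) (hy2 : y ∉ Q2)
    (a1 : ∃ c ∈ Q1, G.Adj x c) (b1 : ∃ c ∈ Q1, G.Adj c y) (a2 : ∃ c ∈ Q2, G.Adj x c)
    (b2 : ∃ c ∈ Q2, G.Adj c y) (s : ℕ)
    (hlong : ∀ l : List V, l ≠ [] → l.Nodup → l.IsChain G.Adj → (∀ v ∈ l, v ∈ Q1) →
      (∀ v ∈ l.head?, G.Adj x v) → (∀ v ∈ l.getLast?, G.Adj v y) → s ≤ l.length) :
    ∃ c, Cyc G c ∧ s + 3 ≤ c.length := by
  obtain ⟨c1, hc1, hc1'⟩ := a1
  obtain ⟨d1, hd1, hd1'⟩ := b1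
  obtain ⟨c2, hc2, hc2'⟩ := a2
  obtain ⟨d2, hd2, hd2'⟩ := b2
  obtain ⟨p, hpne, hpnd, hpch, hpQ, hph, hpl⟩ := h1.exists_path hc1 hd1
  obtain ⟨q, hqne, hqnd, hqch, hqQ, hqh, hql⟩ := h2.exists_path hd2 hc2
  have hs : s ≤ p.length := by
    refine hlong p hpne hpnd hpch hpQ ?_ ?_
    · intro v hv
      rw [hph] at hv
      cases hv
      exact hc1'
    · intro v hv
      rw [hpl] at hv
      cases hv
      exact hd1'
  have hpl1 : 1 ≤ p.length := List.length_pos_of_ne_nil hpne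
  have hql1 : 1 ≤ q.length := List.length_pos_of_ne_nil hqne
  refine ⟨(x :: p) ++ (y :: q), ⟨?_, ?_, ?_, ?_⟩, ?_⟩
  · rw [List.length_append, List.length_cons, List.length_cons]
    omega
  · rw [List.nodup_append, List.nodup_cons, List.nodup_cons]
    refine ⟨⟨fun h => hx1 (hpQ x h), hpnd⟩, ⟨fun h => hy2 (hqQ y h), hqnd⟩, ?_⟩
    intro a ha b hb e
    subst e
    rcases List.mem_cons.1 ha with ha | ha <;> rcases List.mem_cons.1 hb with hb | hb
    · exact hxy (ha.symm.trans hb)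
    · exact hx2 (ha ▸ hqQ a hb)
    · exact hy1 (hb ▸ hpQ a ha)
    · exact Set.disjoint_left.1 hd (hpQ a ha) (hqQ a hb)
  · rw [List.isChain_append]
    refine ⟨?_, ?_, ?_⟩
    · rw [List.isChain_cons]
      refine ⟨fun v hv => ?_, hpch⟩
      rw [hph] at hv
      cases hv
      exact hc1'
    · rw [List.isChain_cons]
      refine ⟨fun v hv => ?_, hqch⟩
      rw [hqh] at hv
      cases hv
      exact hd2'.symm
    · intro a ha b hb
      rw [List.getLast?_cons_of_ne_nil hpne, hpl] at ha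
      rw [List.head?_cons] at hb
      cases ha
      cases hb
      exact hd1'
  · intro a ha b hb
    rw [List.getLast?_append_of_ne_nil _ (List.cons_ne_nil y q),
      List.getLast?_cons_of_ne_nil hqne, hql] at ha
    rw [List.head?_append_of_ne_nil _ (List.cons_ne_nil x p), List.head?_cons] at hb
    cases ha
    cases hb
    exact hc2'.symm
  · rw [List.length_append, List.length_cons, List.length_cons]
    omega

end Pool.MP_4929df_co.H91
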