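import Pool.Agent.W_4929df_h91.Basic

/-! Step 2 (proofs row 432): contractible edges near every vertex. -/

set_option autoImplicit false

namespace Pool.MP_4929df_co.H91

variable {V : Type*}

private theorem near_two {G : SimpleGraph V} {U K : Set V} (h : ¬ Cn G U) (hK : Comp G U K) :
    ∃ L, Comp G U L ∧ L ≠ K := by
  have hne : K ≠ U := fun e => h (e ▸ hK.2.1)
  obtain ⟨v, hvU, hvK⟩ : ∃ v ∈ U, v ∉ K := by
    by_contra hcon
    push Not at hcon
    exact hne (Set.Subset.antisymm hK.1 hcon)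
  obtain ⟨L, hL, hvL⟩ := exists_comp G hvU
  exact ⟨L, hL, fun e => hvK (e ▸ hvL)⟩

private theorem near_card (a b c : V) : ({a, b, c} : Set V).ncard ≤ 3 := by
  have h1 := Set.ncard_insert_le a ({b, c} : Set V)
  have h2 := Set.ncard_insert_le b ({c} : Set V)
  have h3 := Set.ncard_singleton c
  omega

private theorem near_compl (h5 : 5 ≤ Nat.card V) (a b c : V) :
    (({a, b, c} : Set V)ᶜ).Nonempty := by
  rw [Set.nonempty_compl]
  intro e
  have := near_card a b c
  rw [e, Set.ncard_univ] at this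
  omega

private theorem near_nb [Finite V] {G : SimpleGraph V} (hG : C3 G) {a b c : V} {K : Set V}
    (hK : Comp G ({a, b, c} : Set V)ᶜ K) (hne : K ≠ ({a, b, c} : Set V)ᶜ) :
    Nb G K = {a, b, c} := by
  have h1 : Nb G K ⊆ {a, b, c} := by
    have := hK.nb_subset
    rwa [compl_compl] at this
  have h2 : 3 ≤ (Nb G K).ncard := by
    refine hG.three_le_nb hK.2.1.1 ?_
    by_contra hcon
    push Not at hcon
    refine hne (Set.Subset.antisymm hK.1 fun v hv => ?_)
    by_contra hvK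
    exact hv (h1 (hcon v hvK))
  exact Set.eq_of_subset_of_ncard_le h1 ((near_card a b c).trans h2)

/-- **Step 2.** Every vertex `u` of a 3-connected graph with at least 5 vertices is an end of a
contractible edge or has a neighbour `a` of degree 3 that is an end of a contractible edge `a b`
with `b ≠ u`.

Proof. Assume no edge at `u` is contractible: for every `x ∈ N(u)` there is `z ≠ u, x` such that
`{u,x,z}ᶜ` is not connected. Choose a triple `(x, z, K)` with `G.Adj u x`, `z ≠ u`, `z ≠ x`,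
`Comp G {u,x,z}ᶜ K`, `K ≠ {u,x,z}ᶜ` and `K.ncard` minimal. `Nb G K = {u,x,z}` (`C3.three_le_nb` and
`Comp.nb_subset`). Let `y ∈ K`, `G.Adj u y`. There is `w` with `{u,y,w}ᶜ` not connected; every
component `L` of it has `Nb G L = {u,y,w}`. Let `R = ({u,x,z} ∪ K)ᶜ` (nonempty).
(i) `w ∉ R`: every component `R'` of `G[R]` has `Nb = {u,x,z}`, so `R ∪ ({x,z} \ {w})` is connected,
hence lies in one component of `{u,y,w}ᶜ`; another component `L` lies in `K \ {y}`: smaller triple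
`(y,w,L)`.
(ii) `w ∈ R`: if a component `L` of `{u,y,w}ᶜ` contains neither `x` nor `z`: `y` has a neighbour in
`L`, `N(y) ⊆ K ∪ {u,x,z}`, so `L` meets `K` and `L ⊆ K \ {y}`: smaller. So there are exactly two
components `L_x ∋ x` and `L_z ∋ z`. If `K ∩ L_x ≠ ∅` let `K''` be a component of `G[K ∩ L_x]`:
`Nb K'' ⊆ {u,x,y}`, `z ∉ K'' ∪ Nb K''`, so `Nb K'' = {u,x,y}` and `(x,y,K'')` is a smaller triple.
If `K ∩ L_z ≠ ∅`: `Nb K'' ⊆ {u,z,y}`: smaller triple `(y,z,K'')`. So `K = {y}` and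
`Nb G {y} = {u,x,z}`. The edge `y z` is contractible: if `{y,z,v}ᶜ` is not connected then every
component has `y` in its neighbourhood, so `u` and `x` are in different components (`y` has only the
neighbours `u,x,z`), but `u x` is an edge. Take `a = y`, `b = z`. -/
theorem exists_ctr_near [Finite V] (G : SimpleGraph V) (hG : C3 G) (h5 : 5 ≤ Nat.card V) (u : V) :
    ∃ a b, Ctr G a b ∧ (a = u ∨ (G.Adj u a ∧ b ≠ u ∧ (Nb G {a}).ncard ≤ 3)) := by
  classical
  by_contra hcon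
  have hno : ∀ x, G.Adj u x → ∃ z, z ≠ u ∧ z ≠ x ∧ ¬ Cn G ({u, x, z} : Set V)ᶜ := by
    intro x hx
    by_contra h
    push Not at h
    exact hcon ⟨u, x, ⟨hx, fun z h1 h2 => h z h1 h2⟩, Or.inl rfl⟩
  have hex : ∃ n, ∃ x z K, G.Adj u x ∧ z ≠ u ∧ z ≠ x ∧ Comp G ({u, x, z} : Set V)ᶜ K ∧
      K ≠ ({u, x, z} : Set V)ᶜ ∧ K.ncard = n := by
    have huniv : ({u} : Set V) ≠ Set.univ := by
      intro e
      have h1 := Set.ncard_singleton u
      rw [e, Set.ncard_univ] at h1
      omega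
    obtain ⟨u', hu', x, _, _, hux⟩ :=
      hG.univ.exists_adj (Set.subset_univ ({u} : Set V)) ⟨u, rfl⟩ huniv
    rw [Set.mem_singleton_iff.1 hu'] at hux
    obtain ⟨z, hzu, hzx, hnc⟩ := hno x hux
    obtain ⟨v, hv⟩ := near_compl h5 u x z
    obtain ⟨K, hK, _⟩ := exists_comp G hv
    exact ⟨K.ncard, x, z, K, hux, hzu, hzx, hK, fun e => hnc (e ▸ hK.2.1), rfl⟩
  obtain ⟨x, z, K, hux, hzu, hzx, hK, hKne, hKn⟩ := Nat.find_spec hex
  have hmin : ∀ x' z' L, G.Adj u x' → z' ≠ u → z' ≠ x' → Comp G ({u, x', z'} : Set V)ᶜ L →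
      L ≠ ({u, x', z'} : Set V)ᶜ → ∀ y ∈ K, L ⊆ K → y ∉ L → False := by
    intro x' z' L h1 h2 h3 h4 h5' y hy hLK hyL
    have h6 : L.ncard < K.ncard := Set.ncard_lt_ncard ⟨hLK, fun h => hyL (h hy)⟩
    exact Nat.find_min hex (by rw [← hKn]; exact h6) ⟨x', z', L, h1, h2, h3, h4, h5', rfl⟩
  have hNbK : Nb G K = {u, x, z} := near_nb hG hK hKne
  have huN : u ∈ Nb G K := by rw [hNbK]; simp
  have hxN : x ∈ Nb G K := by rw [hNbK]; simp
  have hzN : z ∈ Nb G K := by rw [hNbK]; simp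
  have huK : u ∉ K := huN.1
  have hxK : x ∉ K := hxN.1
  have hzK : z ∉ K := hzN.1
  obtain ⟨y, hyK, hyu⟩ := huN.2
  have huy : G.Adj u y := hyu.symm
  obtain ⟨w, hwu, hwy, hnc⟩ := hno y huy
  have hTL : ∀ L, Comp G ({u, y, w} : Set V)ᶜ L → L ≠ ({u, y, w} : Set V)ᶜ :=
    fun L hL e => hnc (e ▸ hL.2.1)
  have hTNb : ∀ L, Comp G ({u, y, w} : Set V)ᶜ L → Nb G L = {u, y, w} :=
    fun L hL => near_nb hG hL (hTL L hL)
  have hyx : y ≠ x := fun h => hxK (h ▸ hyK)
  have hyz : y ≠ z := fun h => hzK (h ▸ hyK)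
  have hxu : x ≠ u := hux.ne'
  have hyu' : y ≠ u := huy.ne'
  have hKcl : ∀ a ∈ K, ∀ b, G.Adj a b → b ∈ K ∨ b = u ∨ b = x ∨ b = z := by
    intro a ha b hab
    by_cases hb : b ∈ K
    · exact Or.inl hb
    · right
      have h1 : b ∈ Nb G K := ⟨hb, a, ha, hab⟩
      rw [hNbK] at h1
      simpa using h1
  have memT : ∀ t, t ∈ (({u, y, w} : Set V)ᶜ) ↔ t ≠ u ∧ t ≠ y ∧ t ≠ w := by
    intro t
    simp
  have memU : ∀ t, t ∈ (({u, x, z} : Set V)ᶜ) ↔ t ≠ u ∧ t ≠ x ∧ t ≠ z := by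
    intro t
    simp
  by_cases hwR : w ∈ K ∨ w = x ∨ w = z
  · obtain ⟨x', hx'1, hx'2⟩ : ∃ x', (x' = x ∨ x' = z) ∧ x' ≠ w := by
      by_cases h : x = w
      · exact ⟨z, Or.inr rfl, fun h' => hzx (h'.trans h.symm)⟩
      · exact ⟨x, Or.inl rfl, h⟩
    have hx'T : x' ∈ ({u, y, w} : Set V)ᶜ := by
      rw [memT]
      rcases hx'1 with rfl | rfl
      · exact ⟨hxu, hyx.symm, hx'2⟩
      · exact ⟨hzu, hyz.symm, hx'2⟩
    obtain ⟨L0, hL0, hx'L0⟩ := exists_comp G hx'T
    have hRc : ∀ v, v ∉ K → v ≠ u → v ≠ x → v ≠ z → ∃ R', Comp G ({u, x, z} : Set V)ᶜ R' ∧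
        v ∈ R' ∧ Disjoint R' K ∧ Nb G R' = {u, x, z} := by
      intro v hvK hvu hvx hvz
      obtain ⟨R', hR', hvR'⟩ := exists_comp G ((memU v).2 ⟨hvu, hvx, hvz⟩)
      have hne : R' ≠ K := fun e => hvK (e ▸ hvR')
      have hdis := hR'.disjoint hK hne
      refine ⟨R', hR', hvR', hdis, near_nb hG hR' fun e => ?_⟩
      have h1 : y ∈ R' := by
        rw [e]
        exact hK.1 hyK
      exact Set.disjoint_left.1 hdis h1 hyK
    have hR : ∀ v, v ∉ K → v ≠ u → v ≠ x → v ≠ z → v ∈ L0 := by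
      intro v hvK hvu hvx hvz
      obtain ⟨R', hR', hvR', hdis, hNbR'⟩ := hRc v hvK hvu hvx hvz
      have hx'N : x' ∈ Nb G R' := by
        rw [hNbR']
        rcases hx'1 with rfl | rfl <;> simp
      obtain ⟨_, r, hr, hrx'⟩ := hx'N
      have hsub : R' ⊆ ({u, y, w} : Set V)ᶜ := by
        intro t ht
        have ht1 := (memU t).1 (hR'.1 ht)
        have ht2 : t ∉ K := Set.disjoint_left.1 hdis ht
        rw [memT]
        refine ⟨ht1.1, fun e => ht2 (e ▸ hyK), fun e => ?_⟩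
        rcases hwR with h | h | h
        · exact ht2 (e ▸ h)
        · exact ht1.2.1 (e.trans h)
        · exact ht1.2.2 (e.trans h)
      have hrL0 : r ∈ L0 := hL0.2.2 x' hx'L0 r (hsub hr) hrx'.symm
      exact hL0.subset_of_inter hR'.2.1 hsub ⟨r, hr, hrL0⟩ hvR'
    obtain ⟨L, hL, hne⟩ := near_two hnc hL0
    have hdis := hL.disjoint hL0 hne
    obtain ⟨v0, hv0U, hv0K⟩ : ∃ v ∈ ({u, x, z} : Set V)ᶜ, v ∉ K := by
      by_contra hcon2
      push Not at hcon2
      exact hKne (Set.Subset.antisymm hK.1 hcon2)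
    have hv0 := (memU v0).1 hv0U
    obtain ⟨R0, hR0, hv0R0, hdis0, hNbR0⟩ := hRc v0 hv0K hv0.1 hv0.2.1 hv0.2.2
    have hp : ∀ p, (p = x ∨ p = z) → p ∉ L := by
      intro p hp hpL
      have hpT := (memT p).1 (hL.1 hpL)
      have hpN : p ∈ Nb G R0 := by
        rw [hNbR0]
        rcases hp with rfl | rfl <;> simp
      obtain ⟨_, r, hr, hrp⟩ := hpN
      have hr1 := (memU r).1 (hR0.1 hr)
      have hrL0 : r ∈ L0 := hR r (Set.disjoint_left.1 hdis0 hr) hr1.1 hr1.2.1 hr1.2.2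
      have hpL0 : p ∈ L0 := hL0.2.2 r hrL0 p (hL.1 hpL) hrp
      exact Set.disjoint_left.1 hdis hpL hpL0
    have hLK : L ⊆ K := by
      intro t ht
      by_contra htK
      have ht1 := (memT t).1 (hL.1 ht)
      have h1 : t ∈ L0 := hR t htK ht1.1 (fun e => hp x (Or.inl rfl) (e ▸ ht))
        (fun e => hp z (Or.inr rfl) (e ▸ ht))
      exact Set.disjoint_left.1 hdis ht h1
    exact hmin y w L huy hwu hwy hL (hTL L hL) y hyK hLK
      (fun h => ((memT y).1 (hL.1 h)).2.1 rfl)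
  · push Not at hwR
    obtain ⟨hwK, hwx, hwz⟩ := hwR
    have ha : ∀ L, Comp G ({u, y, w} : Set V)ᶜ L → x ∈ L ∨ z ∈ L := by
      intro L hL
      by_contra hxz
      push Not at hxz
      have hyN : y ∈ Nb G L := by
        rw [hTNb L hL]
        simp
      obtain ⟨hyL, l, hl, hly⟩ := hyN
      have hl1 := (memT l).1 (hL.1 hl)
      have hlK : l ∈ K := by
        rcases hKcl y hyK l hly.symm with h | h | h | h
        · exact h
        · exact absurd h hl1.1
        · exact absurd (h ▸ hl) hxz.1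
        · exact absurd (h ▸ hl) hxz.2
      have hLU : L ⊆ ({u, x, z} : Set V)ᶜ := by
        intro t ht
        rw [memU]
        exact ⟨((memT t).1 (hL.1 ht)).1, fun e => hxz.1 (e ▸ ht), fun e => hxz.2 (e ▸ ht)⟩
      have hLK := hK.subset_of_inter hL.2.1 hLU ⟨l, hl, hlK⟩
      exact hmin y w L huy hwu hwy hL (hTL L hL) y hyK hLK hyL
    have hxT : x ∈ ({u, y, w} : Set V)ᶜ := (memT x).2 ⟨hxu, hyx.symm, hwx.symm⟩
    have hzT : z ∈ ({u, y, w} : Set V)ᶜ := (memT z).2 ⟨hzu, hyz.symm, hwz.symm⟩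
    obtain ⟨Lx, hLx, hxLx⟩ := exists_comp G hxT
    obtain ⟨Lz, hLz, hzLz⟩ := exists_comp G hzT
    have hne : Lx ≠ Lz := by
      intro e
      obtain ⟨L, hL, hLne⟩ := near_two hnc hLx
      rcases ha L hL with h | h
      · exact hLne (hL.eq_of_inter hLx ⟨x, h, hxLx⟩)
      · exact hLne ((hL.eq_of_inter hLz ⟨z, h, hzLz⟩).trans e.symm)
    have hzLx : z ∉ Lx := fun h => hne (hLx.eq_of_inter hLz ⟨z, h, hzLz⟩)
    have hxLz : x ∉ Lz := fun h => hne (hLx.eq_of_inter hLz ⟨x, hxLx, h⟩)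
    have hcov : ∀ v ∈ ({u, y, w} : Set V)ᶜ, v ∈ Lx ∨ v ∈ Lz := by
      intro v hv
      obtain ⟨L, hL, hvL⟩ := exists_comp G hv
      rcases ha L hL with h | h
      · left
        rw [← hL.eq_of_inter hLx ⟨x, h, hxLx⟩]
        exact hvL
      · right
        rw [← hL.eq_of_inter hLz ⟨z, h, hzLz⟩]
        exact hvL
    have hgen : ∀ (p q : V) (Lp : Set V), ((p = x ∧ q = z) ∨ (p = z ∧ q = x)) →
        Comp G ({u, y, w} : Set V)ᶜ Lp → q ∉ Lp → ∀ v ∈ K, v ∉ Lp := by
      intro p q Lp hpq hLp hqL v hvK hvL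
      obtain ⟨K', hK', hvK'⟩ := exists_comp G (U := K ∩ Lp) (u := v) ⟨hvK, hvL⟩
      have hqT : q ≠ u ∧ q ≠ y ∧ q ≠ w := by
        rcases hpq with ⟨_, rfl⟩ | ⟨_, rfl⟩
        · exact ⟨hzu, hyz.symm, hwz.symm⟩
        · exact ⟨hxu, hyx.symm, hwx.symm⟩
      have hNb' : Nb G K' ⊆ {u, p, y} := by
        intro t ht
        have ht2 : t ∉ K ∩ Lp := hK'.nb_subset ht
        obtain ⟨_, a, haK', hat⟩ := ht
        have haK : a ∈ K := (hK'.1 haK').1
        have haL : a ∈ Lp := (hK'.1 haK').2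
        have h2 : t ∈ Lp ∨ t = u ∨ t = y ∨ t = w := by
          by_cases h : t ∈ ({u, y, w} : Set V)ᶜ
          · exact Or.inl (hLp.2.2 a haL t h hat)
          · right
            rw [memT] at h
            tauto
        have h1 : t ∈ K ∨ t = u ∨ t = p ∨ t = q := by
          rcases hKcl a haK t hat with h | h | h | h
          · exact Or.inl h
          · exact Or.inr (Or.inl h)
          · rcases hpq with ⟨h3, h4⟩ | ⟨h3, h4⟩
            · exact Or.inr (Or.inr (Or.inl (h.trans h3.symm)))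
            · exact Or.inr (Or.inr (Or.inr (h.trans h4.symm)))
          · rcases hpq with ⟨h3, h4⟩ | ⟨h3, h4⟩
            · exact Or.inr (Or.inr (Or.inr (h.trans h4.symm)))
            · exact Or.inr (Or.inr (Or.inl (h.trans h3.symm)))
        rcases h1 with h1 | h1 | h1 | h1
        · rcases h2 with h2 | h2 | h2 | h2
          · exact absurd ⟨h1, h2⟩ ht2
          · simp [h2]
          · simp [h2]
          · exact absurd (h2 ▸ h1) hwK
        · simp [h1]
        · simp [h1]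
        · subst h1
          rcases h2 with h2 | h2 | h2 | h2
          · exact absurd h2 hqL
          · exact absurd h2 hqT.1
          · exact absurd h2 hqT.2.1
          · exact absurd h2 hqT.2.2
      have hpK : p ∉ K := by
        rcases hpq with ⟨rfl, _⟩ | ⟨rfl, _⟩
        · exact hxK
        · exact hzK
      have hqK : q ∉ K := by
        rcases hpq with ⟨_, rfl⟩ | ⟨_, rfl⟩
        · exact hzK
        · exact hxK
      have hyK' : y ∉ K' := fun h => ((memT y).1 (hLp.1 (hK'.1 h).2)).2.1 rfl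
      have hc : Comp G ({u, p, y} : Set V)ᶜ K' := by
        refine comp_of_nb hK'.2.1 ?_ (by rw [compl_compl]; exact hNb')
        intro t ht ht2
        rcases ht2 with h | h | h
        · exact huK (h ▸ (hK'.1 ht).1)
        · exact hpK (h ▸ (hK'.1 ht).1)
        · exact hyK' (h ▸ ht)
      have hpq' : q ≠ p := by
        rcases hpq with ⟨rfl, rfl⟩ | ⟨rfl, rfl⟩
        · exact hzx
        · exact hzx.symm
      have hcne : K' ≠ ({u, p, y} : Set V)ᶜ := by
        intro e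
        have h1 : q ∈ ({u, p, y} : Set V)ᶜ := by
          simp [hqT.1, hqT.2.1, hpq']
        rw [← e] at h1
        exact hqK (hK'.1 h1).1
      have hK'K : K' ⊆ K := fun t ht => (hK'.1 ht).1
      rcases hpq with ⟨rfl, rfl⟩ | ⟨rfl, rfl⟩
      · exact hmin p y K' hux hyu' hyx hc hcne y hyK hK'K hyK'
      · rw [Set.pair_comm p y] at hc hcne
        exact hmin y p K' huy hzu hyz.symm hc hcne y hyK hK'K hyK'
    have hKy : K = {y} := by
      refine Set.Subset.antisymm (fun v hv => ?_) (Set.singleton_subset_iff.2 hyK)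
      rw [Set.mem_singleton_iff]
      by_contra hvy
      have hvT : v ∈ ({u, y, w} : Set V)ᶜ :=
        (memT v).2 ⟨fun e => huK (e ▸ hv), hvy, fun e => hwK (e ▸ hv)⟩
      rcases hcov v hvT with h | h
      · exact hgen x z Lx (Or.inl ⟨rfl, rfl⟩) hLx hzLx v hv h
      · exact hgen z x Lz (Or.inr ⟨rfl, rfl⟩) hLz hxLz v hv h
    have hNy : Nb G {y} = {u, x, z} := by
      rw [← hKy]
      exact hNbK
    refine hcon ⟨y, z, ⟨?_, ?_⟩, Or.inr ⟨huy, hzu, ?_⟩⟩
    · have h1 : z ∈ Nb G {y} := by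
        rw [hNy]
        simp
      obtain ⟨_, a, ha', haz⟩ := h1
      rw [Set.mem_singleton_iff.1 ha'] at haz
      exact haz
    · intro v hvy hvz
      by_contra hnc2
      have hMp : ∀ M, Comp G ({y, z, v} : Set V)ᶜ M → u ∈ M ∨ x ∈ M := by
        intro M hM
        have hN := near_nb hG hM (fun e => hnc2 (e ▸ hM.2.1))
        have hyN : y ∈ Nb G M := by
          rw [hN]
          simp
        obtain ⟨_, m, hm, hmy⟩ := hyN
        have h1 : m ∈ Nb G {y} := ⟨by simpa using hmy.ne, y, rfl, hmy.symm⟩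
        rw [hNy] at h1
        rcases h1 with h | h | h
        · left
          exact h ▸ hm
        · right
          exact h ▸ hm
        · exfalso
          refine hM.1 hm ?_
          rw [Set.mem_singleton_iff.1 h]
          simp
      obtain ⟨t, ht⟩ := near_compl h5 y z v
      obtain ⟨M1, hM1, _⟩ := exists_comp G ht
      obtain ⟨M2, hM2, hne2⟩ := near_two hnc2 hM1
      have hdis := hM2.disjoint hM1 hne2
      rcases hMp M1 hM1 with h1 | h1 <;> rcases hMp M2 hM2 with h2 | h2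
      · exact Set.disjoint_left.1 hdis h2 h1
      · exact Set.disjoint_left.1 hdis h2 (hM1.2.2 u h1 x (hM2.1 h2) hux)
      · exact Set.disjoint_left.1 hdis h2 (hM1.2.2 x h1 u (hM2.1 h2) hux.symm)
      · exact Set.disjoint_left.1 hdis h2 h1
    · rw [hNy]
      exact near_card u x z

end Pool.MP_4929df_co.H91
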