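import Pool.Agent.W_4929df_h91.Basic

/-! Step 7 (proofs row 432): small lemmas. -/

set_option autoImplicit false

namespace Pool.MP_4929df_co.H91

/-- in a group of order 8 and exponent 2: if `p, q, r ∉ W` and `p + q + r ∈ W` then `W` has at most
two elements (the index of `W` is not 1 and not 2) -/
theorem card_le_two {A : Type*} [AddCommGroup A] (hA : ∀ a : A, a + a = 0) (h8 : Nat.card A = 8)
    (W : AddSubgroup A) {p q r : A} (hp : p ∉ W) (hq : q ∉ W) (hr : r ∉ W)
    (hs : p + q + r ∈ W) : ∀ x ∈ W, ∀ y ∈ W, x ≠ 0 → y ≠ 0 → x = y := by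
  classical
  intro x hx y hy hx0 hy0
  by_contra hxy
  have hfin : Finite A := Nat.finite_of_card_ne_zero (by omega)
  have hidx : W.index * Nat.card W = 8 := by
    rw [AddSubgroup.index_mul_card, h8]
  have hne1 : W.index ≠ 1 := by
    intro h
    rw [AddSubgroup.index_eq_one] at h
    rw [h] at hp
    exact hp (AddSubgroup.mem_top p)
  have hne0 : W.index ≠ 0 := by
    intro h
    rw [h] at hidx
    omega
  have hyx : y + x ≠ 0 := by
    intro h
    apply hxy
    have h1 : y + x = x + x := by rw [h, hA]
    exact (add_right_cancel h1).symm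
  have hc : 4 ≤ Nat.card W := by
    have n1 : (0 : A) ∉ ({x, y, y + x} : Finset A) := by
      rw [Finset.mem_insert, Finset.mem_insert, Finset.mem_singleton]
      rintro (h | h | h)
      · exact hx0 h.symm
      · exact hy0 h.symm
      · exact hyx h.symm
    have n2 : x ∉ ({y, y + x} : Finset A) := by
      rw [Finset.mem_insert, Finset.mem_singleton]
      rintro (h | h)
      · exact hxy h
      · exact hy0 (by simpa using h)
    have n3 : y ∉ ({y + x} : Finset A) := by
      rw [Finset.mem_singleton]
      intro h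
      exact hx0 (by simpa using h)
    have hF : ({0, x, y, y + x} : Finset A).card = 4 := by
      rw [Finset.card_insert_of_notMem n1, Finset.card_insert_of_notMem n2,
        Finset.card_insert_of_notMem n3, Finset.card_singleton]
    have hsub : ((({0, x, y, y + x} : Finset A) : Set A)) ⊆ (W : Set A) := by
      intro z hz
      rw [Finset.mem_coe, Finset.mem_insert, Finset.mem_insert, Finset.mem_insert,
        Finset.mem_singleton] at hz
      rcases hz with rfl | rfl | rfl | rfl
      · exact W.zero_mem
      · exact hx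
      · exact hy
      · exact W.add_mem hy hx
    have h1 := Set.ncard_le_ncard hsub (Set.toFinite _)
    rw [Set.ncard_coe_finset, hF] at h1
    exact h1
  have h2 : W.index = 2 := by
    have h3 : W.index ≤ 2 := by
      by_contra h
      have : 3 * 4 ≤ W.index * Nat.card W := Nat.mul_le_mul (by omega) hc
      omega
    omega
  have hpq : p + q ∈ W := by
    rw [AddSubgroup.add_mem_iff_of_index_two h2]
    exact ⟨fun h => absurd h hp, fun h => absurd h hq⟩
  exact hr ((W.add_mem_cancel_left hpq).1 hs)

/-- any four (or more) elements of a group of order 8 and exponent 2 have a nonempty subset with sum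
zero, of size at most 4 -/
theorem exists_zero_sum {A : Type*} [AddCommGroup A] (hA : ∀ a : A, a + a = 0)
    (h8 : Nat.card A = 8) {ι : Type*} [DecidableEq ι] (s : Finset ι) (hs : 4 ≤ s.card) (f : ι → A) :
    ∃ t ⊆ s, t.Nonempty ∧ t.card ≤ 4 ∧ ∑ i ∈ t, f i = 0 := by
  classical
  have hfin : Finite A := Nat.finite_of_card_ne_zero (by omega)
  have := Fintype.ofFinite A
  obtain ⟨s', hs', hc⟩ := Finset.exists_subset_card_eq hs
  obtain ⟨t1, ht1, t2, ht2, hne, heq⟩ := Finset.exists_ne_map_eq_of_card_lt_of_maps_to
    (s := s'.powerset) (t := (Finset.univ : Finset A)) (f := fun t => ∑ i ∈ t, f i)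
    (by
      rw [Finset.card_powerset, hc, Finset.card_univ, ← Nat.card_eq_fintype_card, h8]
      norm_num)
    (fun t _ => Finset.mem_coe.2 (Finset.mem_univ _))
  rw [Finset.mem_powerset] at ht1 ht2
  refine ⟨(t1 \ t2) ∪ (t2 \ t1), ?_, ?_, ?_, ?_⟩
  · intro i hi
    rw [Finset.mem_union, Finset.mem_sdiff, Finset.mem_sdiff] at hi
    rcases hi with ⟨h, -⟩ | ⟨h, -⟩
    · exact hs' (ht1 h)
    · exact hs' (ht2 h)
  · rw [Finset.nonempty_iff_ne_empty]
    intro h
    rw [Finset.union_eq_empty, Finset.sdiff_eq_empty_iff_subset,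
      Finset.sdiff_eq_empty_iff_subset] at h
    exact hne (Finset.Subset.antisymm h.1 h.2)
  · rw [← hc]
    refine Finset.card_le_card ?_
    intro i hi
    rw [Finset.mem_union, Finset.mem_sdiff, Finset.mem_sdiff] at hi
    rcases hi with ⟨h, -⟩ | ⟨h, -⟩
    · exact ht1 h
    · exact ht2 h
  · have hd : Disjoint (t1 \ t2) (t2 \ t1) := by
      rw [Finset.disjoint_left]
      intro i hi hi'
      rw [Finset.mem_sdiff] at hi hi'
      exact hi.2 hi'.1
    rw [Finset.sum_union hd]
    have h1 := (add_comm _ _).trans (Finset.sum_inter_add_sum_sdiff t1 t2 f)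
    have h2 := (add_comm _ _).trans (Finset.sum_inter_add_sum_sdiff t2 t1 f)
    rw [Finset.inter_comm t2 t1] at h2
    have h3 : ∑ i ∈ t1 \ t2, f i = ∑ i ∈ t2 \ t1, f i := by
      have : ∑ i ∈ t1 \ t2, f i + ∑ i ∈ t1 ∩ t2, f i
          = ∑ i ∈ t2 \ t1, f i + ∑ i ∈ t1 ∩ t2, f i := by
        rw [h1, h2, heq]
      exact add_right_cancel this
    rw [h3, hA]

/-- functional graphs: a set `J` with partners `b`, `b a ≠ a`, contains a third without a partner
inside (induction: some `a ∈ J` is the partner of at most one element; remove `a`, `b a` and that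
element) -/
theorem exists_indep {V : Type*} [DecidableEq V] (J : Finset V) (b : V → V)
    (hb : ∀ a ∈ J, b a ≠ a) :
    ∃ J' ⊆ J, J.card ≤ 3 * J'.card ∧ ∀ a ∈ J', b a ∉ J' := by
  induction J using Finset.strongInduction with
  | H J ih =>
    rcases J.eq_empty_or_nonempty with rfl | hne
    · exact ⟨∅, Finset.Subset.refl _, by simp, by simp⟩
    obtain ⟨a, ha, hf⟩ := Finset.exists_card_fiber_le_of_card_le_mul (s := J) (t := J) (f := b)
      (n := 1) hne (by omega)
    set F := J.filter (fun x => b x = a) with hF
    set J1 := (J \ {a, b a}) \ F with hJ1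
    have hsub : J1 ⊆ J := fun x hx => (Finset.mem_sdiff.1 (Finset.mem_sdiff.1 hx).1).1
    have haJ1 : a ∉ J1 := by
      intro h
      have := (Finset.mem_sdiff.1 (Finset.mem_sdiff.1 h).1).2
      simp at this
    have hbJ1 : b a ∉ J1 := by
      intro h
      have := (Finset.mem_sdiff.1 (Finset.mem_sdiff.1 h).1).2
      simp at this
    have hss : J1 ⊂ J := Finset.ssubset_iff_subset_ne.2 ⟨hsub, fun h => haJ1 (h ▸ ha)⟩
    obtain ⟨J', hJ', hc, hi⟩ := ih J1 hss (fun x hx => hb x (hsub hx))
    refine ⟨insert a J', ?_, ?_, ?_⟩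
    · intro x hx
      rcases Finset.mem_insert.1 hx with rfl | h
      · exact ha
      · exact hsub (hJ' h)
    · rw [Finset.card_insert_of_notMem (fun h => haJ1 (hJ' h))]
      have h1 : J.card ≤ J1.card + 3 := by
        have e1 : J.card ≤ (J \ {a, b a}).card + ({a, b a} : Finset V).card := by
          have := Finset.le_card_sdiff {a, b a} J
          omega
        have e2 : (J \ {a, b a}).card ≤ J1.card + F.card := by
          have := Finset.le_card_sdiff F (J \ {a, b a})
          rw [← hJ1] at this
          omega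
        have e3 : ({a, b a} : Finset V).card ≤ 2 := Finset.card_le_two
        omega
      omega
    · intro x hx
      rcases Finset.mem_insert.1 hx with rfl | h
      · intro h
        rcases Finset.mem_insert.1 h with h | h
        · exact hb x ha h
        · exact hbJ1 (hJ' h)
      · intro h'
        rcases Finset.mem_insert.1 h' with h' | h'
        · have h1 := hJ' h
          have h2 := (Finset.mem_sdiff.1 h1).2
          exact h2 (Finset.mem_filter.2 ⟨hsub h1, h'⟩)
        · exact hi x h h'

end Pool.MP_4929df_co.H91
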