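import Pool.Agent.W_4929df_h91.ParityA

/-! Step 7 (proofs row 432): the core of the parity argument. -/

set_option autoImplicit false

namespace Pool.MP_4929df_co.H91

variable {V : Type*} [Fintype V] {A : Type*} [AddCommGroup A]

omit [Fintype V] in
private theorem cn_attach {G : SimpleGraph V} {X S : Set V} (hX : Cn G X)
    (hS : ∀ a ∈ S, ∃ p ∈ X, G.Adj a p) : Cn G (X ∪ S) := by
  have h := hX.union_sUnion (𝒴 := {Y | ∃ a ∈ S, Y = {a}}) (by
    rintro Y ⟨a, ha, rfl⟩
    obtain ⟨p, hp, hap⟩ := hS a ha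
    exact ⟨cn_singleton G a, Or.inr ⟨p, hp, a, rfl, hap.symm⟩⟩)
  have e : ⋃₀ {Y : Set V | ∃ a ∈ S, Y = {a}} = S := by
    ext v
    constructor
    · rintro ⟨Y, ⟨a, ha, rfl⟩, hv⟩
      have e1 : v = a := hv
      rwa [e1]
    · intro hv
      exact ⟨{v}, ⟨v, hv, rfl⟩, rfl⟩
  rwa [e] at h

omit [Fintype V] in
private theorem bond_hub {G : SimpleGraph V} {J P Q R : Set V} (hK : K3 G J P Q R)
    (hQR : ∃ p ∈ Q, ∃ q ∈ R, G.Adj p q) {S : Set V} (hS : S ⊆ J) : Bond G (P ∪ S) := by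
  refine ⟨cn_attach hK.cP fun a ha => hK.adjP a (hS ha), ?_⟩
  obtain ⟨q, hq, r, hr, hqr⟩ := hQR
  have h1 : Cn G ((Q ∪ R) ∪ (J \ S)) :=
    cn_attach (hK.cQ.union_adj hK.cR hq hr hqr) fun a ha => by
      obtain ⟨p, hp, hap⟩ := hK.adjQ a ha.1
      exact ⟨p, Or.inl hp, hap⟩
  have e : (P ∪ S)ᶜ = (Q ∪ R) ∪ (J \ S) := by
    ext v
    constructor
    · intro hv
      have hvP : v ∉ P := fun h => hv (Or.inl h)
      have hvS : v ∉ S := fun h => hv (Or.inr h)
      rcases hK.cover v with h | h | h | h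
      · exact Or.inr ⟨h, hvS⟩
      · exact absurd h hvP
      · exact Or.inl (Or.inl h)
      · exact Or.inl (Or.inr h)
    · rintro ((h | h) | h) (h' | h')
      · exact Set.disjoint_left.1 hK.PQ h' h
      · exact Set.disjoint_left.1 hK.JQ (hS h') h
      · exact Set.disjoint_left.1 hK.PR h' h
      · exact Set.disjoint_left.1 hK.JR (hS h') h
      · exact Set.disjoint_left.1 hK.JP h.1 h'
      · exact h.2 h'
  rw [e]
  exact h1

private theorem sm_coe (h : V → A) (S : Finset V) : sm h (S : Set V) = ∑ v ∈ S, h v := by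
  classical
  unfold sm
  rw [← Finset.sum_indicator_subset h (Finset.subset_univ S)]

private theorem two_torsion_eq (hA : ∀ a : A, a + a = 0) {x y : A} : x + y = 0 ↔ x = y := by
  constructor
  · intro h
    have h1 : x = x + (y + y) := by rw [hA, add_zero]
    rw [h1, ← add_assoc, h, zero_add]
  · intro h
    rw [h, hA]

/-- sums over the symmetric difference -/
private theorem sum_symm [DecidableEq V] (hA : ∀ a : A, a + a = 0) (h : V → A) (S T : Finset V) :
    ∑ v ∈ (S \ T) ∪ (T \ S), h v = ∑ v ∈ S, h v + ∑ v ∈ T, h v := by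
  rw [Finset.sum_union (by
    rw [Finset.disjoint_left]
    intro a ha hb
    exact (Finset.mem_sdiff.1 ha).2 (Finset.mem_sdiff.1 hb).1)]
  have h1 := Finset.sum_inter_add_sum_sdiff S T h
  have h2 := Finset.sum_inter_add_sum_sdiff T S h
  rw [← h1, ← h2, Finset.inter_comm T S]
  have h3 : ∀ a b c : A, c + a + (c + b) = a + b + (c + c) := fun a b c => by abel
  rw [h3, hA, add_zero]

/-- the subset sums of `h` on `J` form a subgroup -/
private def subSums [DecidableEq V] (hA : ∀ a : A, a + a = 0) (h : V → A) (J : Finset V) :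
    AddSubgroup A where
  carrier := {w | ∃ S ⊆ J, w = ∑ v ∈ S, h v}
  zero_mem' := ⟨∅, Finset.empty_subset _, by simp⟩
  add_mem' := by
    rintro a b ⟨S, hS, rfl⟩ ⟨T, hT, rfl⟩
    refine ⟨(S \ T) ∪ (T \ S), Finset.union_subset (Finset.sdiff_subset.trans hS)
      (Finset.sdiff_subset.trans hT), (sum_symm hA h S T).symm⟩
  neg_mem' := by
    rintro a ⟨S, hS, rfl⟩
    refine ⟨S, hS, ?_⟩
    exact neg_eq_of_add_eq_zero_right (hA _)

/-- the core: hubs pairwise adjacent, five elements whose partners all lie in `P` -/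
theorem K3_core (hA : ∀ a : A, a + a = 0) (h8 : Nat.card A = 8) {G : SimpleGraph V} (hG : C3 G)
    {F : Set (V → A)} (hF : PP G F) {J P Q R : Set V} (hK : K3 G J P Q R) (h5 : 5 ≤ J.ncard)
    (hPQ : ∃ p ∈ P, ∃ q ∈ Q, G.Adj p q) (hPR : ∃ p ∈ P, ∃ q ∈ R, G.Adj p q)
    (hQR : ∃ p ∈ Q, ∃ q ∈ R, G.Adj p q) (hb : ∀ a ∈ J, ∃ b ∈ P, Lk F a b) : False := by
  classical
  let J' : Finset V := J.toFinset
  have hJ' : (J' : Set V) = J := by simp [J']
  have hcard : 5 ≤ J'.card := by
    rw [Set.ncard_eq_toFinset_card'] at h5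
    exact h5
  have hJne : J.Nonempty := by
    rw [← Set.ncard_pos]
    omega
  have hmem : ∀ a, a ∈ J' ↔ a ∈ J := fun a => by rw [← hJ', Finset.mem_coe]
  -- the two facts about bonds
  have hKQ : K3 G J Q P R := ⟨hK.cQ, hK.cP, hK.cR, hK.PQ.symm, hK.QR, hK.PR, hK.JQ, hK.JP, hK.JR,
    fun v => by rcases hK.cover v with h | h | h | h <;> simp [h], hK.adjQ, hK.adjP, hK.adjR⟩
  have hKR : K3 G J R P Q := ⟨hK.cR, hK.cP, hK.cQ, hK.PR.symm, hK.QR.symm, hK.PQ, hK.JR, hK.JP,
    hK.JQ, fun v => by rcases hK.cover v with h | h | h | h <;> simp [h], hK.adjR, hK.adjP,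
    hK.adjQ⟩
  have main : ∀ h ∈ F, ∀ a ∈ J, ∀ a' ∈ J, h a = h a' := by
    intro h hh
    have hdP : ∀ S : Finset V, S ⊆ J' → Disjoint P (S : Set V) := fun S hS =>
      Set.disjoint_left.2 fun v hv hvS =>
        Set.disjoint_left.1 hK.JP ((hmem v).1 (hS hvS)) hv
    have hdQ : ∀ S : Finset V, S ⊆ J' → Disjoint Q (S : Set V) := fun S hS =>
      Set.disjoint_left.2 fun v hv hvS =>
        Set.disjoint_left.1 hK.JQ ((hmem v).1 (hS hvS)) hv
    have hdR : ∀ S : Finset V, S ⊆ J' → Disjoint R (S : Set V) := fun S hS =>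
      Set.disjoint_left.2 fun v hv hvS =>
        Set.disjoint_left.1 hK.JR ((hmem v).1 (hS hvS)) hv
    have hsub : ∀ S : Finset V, S ⊆ J' → (S : Set V) ⊆ J := fun S hS v hv => (hmem v).1 (hS hv)
    have hP : ∀ S : Finset V, S ⊆ J' → S ≠ J' → sm h P + ∑ v ∈ S, h v ≠ 0 := by
      intro S hS hne
      have hex : ∃ a ∈ J', a ∉ S := by
        by_contra hcon
        push Not at hcon
        exact hne (Finset.Subset.antisymm hS hcon)
      obtain ⟨a, haJ, haS⟩ := hex
      have haJ2 := (hmem a).1 haJ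
      obtain ⟨b, hbP, hL⟩ := hb a haJ2
      have h1 := hL.sep hF h hh (P ∪ (S : Set V)) (bond_hub hK hQR (hsub S hS))
        (Or.inr ⟨Or.inl hbP, by
          rintro (h2 | h2)
          · exact Set.disjoint_left.1 hK.JP haJ2 h2
          · exact haS h2⟩)
      rwa [sm_union h (hdP S hS), sm_coe] at h1
    have hQ : ∀ S : Finset V, S ⊆ J' → S.Nonempty → sm h Q + ∑ v ∈ S, h v ≠ 0 := by
      intro S hS hne
      obtain ⟨a, haS⟩ := hne
      have haJ2 := (hmem a).1 (hS haS)
      obtain ⟨b, hbP, hL⟩ := hb a haJ2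
      have h1 := hL.sep hF h hh (Q ∪ (S : Set V)) (bond_hub hKQ hPR (hsub S hS))
        (Or.inl ⟨Or.inr haS, by
          rintro (h2 | h2)
          · exact Set.disjoint_left.1 hK.PQ hbP h2
          · exact Set.disjoint_left.1 hK.JP (hsub S hS h2) hbP⟩)
      rwa [sm_union h (hdQ S hS), sm_coe] at h1
    have hR : ∀ S : Finset V, S ⊆ J' → S.Nonempty → sm h R + ∑ v ∈ S, h v ≠ 0 := by
      intro S hS hne
      obtain ⟨a, haS⟩ := hne
      have haJ2 := (hmem a).1 (hS haS)
      obtain ⟨b, hbP, hL⟩ := hb a haJ2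
      have h1 := hL.sep hF h hh (R ∪ (S : Set V)) (bond_hub hKR hPQ (hsub S hS))
        (Or.inl ⟨Or.inr haS, by
          rintro (h2 | h2)
          · exact Set.disjoint_left.1 hK.PR hbP h2
          · exact Set.disjoint_left.1 hK.JP (hsub S hS h2) hbP⟩)
      rwa [sm_union h (hdR S hS), sm_coe] at h1
    obtain ⟨t, htJ, htne, ht4, ht0⟩ := exists_zero_sum hA h8 J' (by omega) h
    have htJ2 : t ≠ J' := by
      intro e
      rw [e] at ht4
      omega
    have hne : ∀ S ⊆ J', ∃ S' ⊆ J', S'.Nonempty ∧ ∑ v ∈ S', h v = ∑ v ∈ S, h v := by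
      intro S hS
      by_cases hSe : S.Nonempty
      · exact ⟨S, hS, hSe, rfl⟩
      · rw [Finset.not_nonempty_iff_eq_empty] at hSe
        exact ⟨t, htJ, htne, by rw [ht0, hSe, Finset.sum_empty]⟩
    have hpr : ∀ S ⊆ J', ∃ S' ⊆ J', S' ≠ J' ∧ ∑ v ∈ S', h v = ∑ v ∈ S, h v := by
      intro S hS
      by_cases hSe : S = J'
      · refine ⟨J' \ t, Finset.sdiff_subset, ?_, ?_⟩
        · intro e
          obtain ⟨x, hx⟩ := htne
          have h1 : x ∈ J' \ t := by rw [e]; exact htJ hx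
          exact (Finset.mem_sdiff.1 h1).2 hx
        · have h1 := Finset.sum_sdiff (f := h) htJ
          rw [ht0, add_zero] at h1
          rw [h1, hSe]
      · exact ⟨S, hS, hSe, rfl⟩
    let W := subSums hA h J'
    have hPW : sm h P ∉ W := by
      rintro ⟨S, hS, he⟩
      obtain ⟨S', hS', hn', he'⟩ := hpr S hS
      exact hP S' hS' hn' ((two_torsion_eq hA).2 (he.trans he'.symm))
    have hQW : sm h Q ∉ W := by
      rintro ⟨S, hS, he⟩
      obtain ⟨S', hS', hn', he'⟩ := hne S hS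
      exact hQ S' hS' hn' ((two_torsion_eq hA).2 (he.trans he'.symm))
    have hRW : sm h R ∉ W := by
      rintro ⟨S, hS, he⟩
      obtain ⟨S', hS', hn', he'⟩ := hne S hS
      exact hR S' hS' hn' ((two_torsion_eq hA).2 (he.trans he'.symm))
    have htot : sm h P + sm h Q + sm h R ∈ W := by
      refine ⟨J', Finset.Subset.refl _, ?_⟩
      have e : (Set.univ : Set V) = ((P ∪ Q) ∪ R) ∪ (J' : Set V) := by
        ext v
        simp only [Set.mem_univ, true_iff]
        rw [hJ']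
        rcases hK.cover v with h1 | h1 | h1 | h1
        · exact Or.inr h1
        · exact Or.inl (Or.inl (Or.inl h1))
        · exact Or.inl (Or.inl (Or.inr h1))
        · exact Or.inl (Or.inr h1)
      have h0 := hF.1 h hh
      rw [e, sm_union h, sm_union h, sm_union h hK.PQ, sm_coe] at h0
      · exact (two_torsion_eq hA).1 h0
      · exact Disjoint.union_left hK.PR hK.QR
      · exact Disjoint.union_left (Disjoint.union_left (hdP J' (Finset.Subset.refl _))
          (hdQ J' (Finset.Subset.refl _))) (hdR J' (Finset.Subset.refl _))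
    have hW := card_le_two hA h8 W hPW hQW hRW htot
    have hnz : ∀ a ∈ J, h a ≠ 0 := by
      intro a ha
      obtain ⟨b, hbP, hL⟩ := hb a ha
      have h1 := hL.sep hF h hh {a} (hG.bond_singleton a) (Or.inl ⟨rfl, fun e => by
        have e1 : b = a := e
        rw [e1] at hbP
        exact Set.disjoint_left.1 hK.JP ha hbP⟩)
      rwa [sm_singleton] at h1
    have hin : ∀ a ∈ J, h a ∈ W := fun a ha =>
      ⟨{a}, Finset.singleton_subset_iff.2 ((hmem a).2 ha), by rw [Finset.sum_singleton]⟩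
    exact fun a ha a' ha' => hW _ (hin a ha) _ (hin a' ha') (hnz a ha) (hnz a' ha')
  obtain ⟨a, ha⟩ := hJne
  have hex : ∃ a' ∈ J, a' ≠ a := by
    by_contra hcon
    push Not at hcon
    have h1 : J ⊆ {a} := fun v hv => hcon v hv
    have h2 := Set.ncard_le_ncard h1
    rw [Set.ncard_singleton] at h2
    omega
  obtain ⟨a', ha', hne⟩ := hex
  obtain ⟨b, hbP, hab, f, hf, g, hg, α, hα, hfg, hfa, hfb⟩ := hb a ha
  have h1 : a' ≠ b := fun e => Set.disjoint_left.1 hK.JP ha' (e ▸ hbP)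
  have h2 := hfg a' hne h1
  have h3 := main f hf a ha a' ha'
  have h4 := main g hg a ha a' ha'
  rw [h3, h2, ← h4] at hfa
  exact hα (left_eq_add.1 hfa)

end Pool.MP_4929df_co.H91
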