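import Pool.Agent.W_4929df_h91.Full
import Pool.Agent.W_4929df_h91.Graph

/-! Assembly (proofs row 432, step 0). -/

set_option autoImplicit false

namespace Pool.MP_4929df_co.H91


/-- a subset of `T` of maximal size that together with `B` is linearly independent; everything in `T`
is in the span -/
theorem exists_max_li {E : Type*} [Finite E] {K M : Type*} [Field K] [AddCommGroup M] [Module K M]
    (v : E → M) (T B : Set E) (hB : LinearIndepOn K v B) :
    ∃ S ⊆ T, LinearIndepOn K v (B ∪ S) ∧ Disjoint B S ∧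
      ∀ e ∈ T, v e ∈ Submodule.span K (v '' (B ∪ S)) := by
  obtain ⟨S, ⟨hS1, hS2, hS3⟩, hmax⟩ := Set.exists_max_image
    {S : Set E | S ⊆ T ∧ LinearIndepOn K v (B ∪ S) ∧ Disjoint B S} Set.ncard (Set.toFinite _)
    ⟨∅, by simp, by simpa using hB, by simp⟩
  refine ⟨S, hS1, hS2, hS3, fun e he => ?_⟩
  by_contra hcon
  have heBS : e ∉ B ∪ S := fun h => hcon (Submodule.subset_span ⟨e, h, rfl⟩)
  have h1 : LinearIndepOn K v (insert e (B ∪ S)) := (linearIndepOn_insert heBS).2 ⟨hS2, hcon⟩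
  have h2 := hmax (insert e S) ⟨Set.insert_subset he hS1, by
    rw [Set.union_insert]; exact h1, by
    rw [Set.disjoint_insert_right]
    exact ⟨fun h => heBS (Or.inl h), hS3⟩⟩
  rw [Set.ncard_insert_of_notMem (fun h => heBS (Or.inr h)) (Set.toFinite _)] at h2
  omega

theorem part_one (t : ℕ) : ∃ k : ℕ, ∀ (E : Type) [Fintype E] (m : ℕ)
    (v : E → (Fin m → GaloisField 2 3)) (D : Set E), D.ncard ≤ t →
    ∀ (V : Type) [Fintype V] (G : SimpleGraph V), C3 G →
    ∀ φ : {e // e ∉ D} ≃ G.edgeSet, CycleOutside v D G φ →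
    ∀ r : ℕ, ∀ w : Fin (k + 1) → E → (Fin r → GaloisField 2 3),
      (∀ i, Submodule.span (GaloisField 2 3) (Set.range (w i)) = ⊤ ∧
        ∀ S : Set E, (LinearIndependent (GaloisField 2 3) (fun s : S => w i (s : E)) ↔
          LinearIndependent (GaloisField 2 3) (fun s : S => v (s : E)))) →
      ∃ i j : Fin (k + 1), i ≠ j ∧
        ∃ g : (Fin r → GaloisField 2 3) ≃ₗ[GaloisField 2 3] (Fin r → GaloisField 2 3),
        ∃ c : E → GaloisField 2 3, (∀ e, c e ≠ 0) ∧ ∀ e, w i e = c e • g (w j e) := by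
  classical
  have hA : ∀ a : (GaloisField 2 3), a + a = 0 := fun a => CharTwo.add_self_eq_zero a
  have h8 : Nat.card (GaloisField 2 3) = 8 := by rw [GaloisField.card 2 3 (by norm_num)]; norm_num
  obtain ⟨C, hC⟩ := graph_bound (A := (GaloisField 2 3)) hA h8
  refine ⟨((C + 1) * 8 ^ t) ^ t, ?_⟩
  intro E _ m v D hDt V _ G hG φ hφ r w hw
  -- bases
  obtain ⟨B, hB1, hB2, -, hB3⟩ := exists_max_li (K := (GaloisField 2 3)) v Dᶜ ∅ (linearIndepOn_empty _ _)
  rw [Set.empty_union] at hB2 hB3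
  obtain ⟨D₁, hD1, hD2, hD3, hD4⟩ := exists_max_li (K := (GaloisField 2 3)) v D B hB2
  have htr : ∀ i (H : Set E) (e : E), w i e ∈ Submodule.span (GaloisField 2 3) (w i '' H) ↔
      v e ∈ Submodule.span (GaloisField 2 3) (v '' H) := by
    intro i H e
    exact ⟨fun h => span_transfer (w i) v (fun S => (hw i).2 S) H e h,
      fun h => span_transfer v (w i) (fun S => ((hw i).2 S).symm) H e h⟩
  have hle : ∀ i (H H' : Set E), (∀ e ∈ H, v e ∈ Submodule.span (GaloisField 2 3) (v '' H')) →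
      Submodule.span (GaloisField 2 3) (w i '' H) ≤ Submodule.span (GaloisField 2 3) (w i '' H') := by
    intro i H H' h
    rw [Submodule.span_le]
    rintro _ ⟨e, he, rfl⟩
    exact (htr i H' e).2 (h e he)
  have hUB : ∀ i, Submodule.span (GaloisField 2 3) (w i '' Dᶜ) = Submodule.span (GaloisField 2 3) (w i '' B) := fun i =>
    le_antisymm (hle i _ _ hB3) (Submodule.span_mono (Set.image_mono hB1))
  have hli : ∀ i, LinearIndepOn (GaloisField 2 3) (w i) (B ∪ D₁) := fun i => ((hw i).2 (B ∪ D₁)).2 hD2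
  have hc : ∀ i, IsCompl (Submodule.span (GaloisField 2 3) (w i '' Dᶜ)) (Submodule.span (GaloisField 2 3) (w i '' D₁)) := by
    intro i
    rw [hUB i]
    constructor
    · exact ((linearIndepOn_union_iff hD3).1 (hli i)).2.2
    · rw [codisjoint_iff, ← Submodule.span_union, ← Set.image_union, ← top_le_iff,
        ← (hw i).1, ← Set.image_univ]
      refine hle i _ _ fun e _ => ?_
      by_cases he : e ∈ D
      · exact hD4 e he
      · exact Submodule.span_mono (Set.image_mono Set.subset_union_left) (hB3 e he)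
  have hliD : ∀ i, LinearIndependent (GaloisField 2 3) (fun d : D₁ => w i d) := fun i =>
    ((linearIndepOn_union_iff hD3).1 (hli i)).2.1
  have hcyc : ∀ i, CycleOutside (w i) D G φ := by
    intro i S
    rw [← hφ S]
    have e1 := li_comp_iff (K := (GaloisField 2 3)) (w i) (fun s : S => ((s : {e // e ∉ D}) : E))
      (fun a b h => Subtype.ext (Subtype.ext h))
    have e2 := li_comp_iff (K := (GaloisField 2 3)) v (fun s : S => ((s : {e // e ∉ D}) : E))
      (fun a b h => Subtype.ext (Subtype.ext h))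
    rw [e1, e2]
    exact (hw i).2 _
  choose Ψ hΨi hΨs hΨr hΨe hΨb using fun i =>
    exists_full (w i) D D₁ hG φ (hcyc i) (hc i) (hliD i)
  -- the label families
  let FF : D → Set (V → (GaloisField 2 3)) := fun d => Set.range fun i => (Ψ i (w i d)).1
  have hPP : ∀ d : D, PP G (FF d) := by
    intro d
    constructor
    · rintro _ ⟨i, rfl⟩
      rw [sm_univ]
      exact hΨs i _
    · intro X hX
      have key : ∀ i, sm (Ψ i (w i d)).1 X = 0 ↔ v d ∈ Submodule.span (GaloisField 2 3)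
          (v '' ({e | ∃ h : e ∉ D, ∀ x y, (φ ⟨e, h⟩ : Sym2 V) = s(x, y) → (x ∈ X ↔ y ∈ X)} ∪ D₁)) :=
        fun i => by rw [hΨb i X hX, htr i]
      by_cases hv : v d ∈ Submodule.span (GaloisField 2 3)
          (v '' ({e | ∃ h : e ∉ D, ∀ x y, (φ ⟨e, h⟩ : Sym2 V) = s(x, y) → (x ∈ X ↔ y ∈ X)} ∪ D₁))
      · left
        rintro _ ⟨i, rfl⟩
        exact (key i).2 hv
      · right
        rintro _ ⟨i, rfl⟩
        exact fun h => hv ((key i).1 h)
  have hFFc : ∀ d : D, Nat.card (FF d) ≤ C := fun d => hC V G (FF d) hG (hPP d)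
  -- counting
  let data : Fin (((C + 1) * 8 ^ t) ^ t + 1) → ((d : D) → (FF d) × (D₁ → (GaloisField 2 3))) := fun i d =>
    (⟨(Ψ i (w i d)).1, ⟨i, rfl⟩⟩, (Ψ i (w i d)).2)
  have hfinK : Finite (GaloisField 2 3) := Nat.finite_of_card_ne_zero (by rw [h8]; norm_num)
  have hD1t : Nat.card D₁ ≤ t := (Set.ncard_le_ncard hD1 (Set.toFinite _)).trans hDt
  have hcard : Nat.card ((d : D) → (FF d) × (D₁ → (GaloisField 2 3))) ≤ ((C + 1) * 8 ^ t) ^ t := by
    rw [Nat.card_pi]
    calc ∏ d : D, Nat.card ((FF d) × (D₁ → (GaloisField 2 3))) ≤ ∏ d : D, ((C + 1) * 8 ^ t) := by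
          refine Finset.prod_le_prod' fun d _ => ?_
          rw [Nat.card_prod, Nat.card_fun, h8]
          exact Nat.mul_le_mul ((hFFc d).trans (Nat.le_succ _))
            (Nat.pow_le_pow_right (by norm_num) hD1t)
      _ = ((C + 1) * 8 ^ t) ^ (Fintype.card D) := by simp
      _ ≤ ((C + 1) * 8 ^ t) ^ t := by
          refine Nat.pow_le_pow_right (by positivity) ?_
          rw [← Nat.card_eq_fintype_card]
          exact hDt
  have hex : ∃ i j, i ≠ j ∧ data i = data j := by
    by_contra hcon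
    push Not at hcon
    have hinj : Function.Injective data := fun i j h => by
      by_contra hij
      exact hcon i j hij h
    have := Nat.card_le_card_of_injective data hinj
    rw [Nat.card_eq_fintype_card, Fintype.card_fin] at this
    omega
  obtain ⟨i, j, hij, hdata⟩ := hex
  have hd : ∀ d : D, Ψ i (w i d) = Ψ j (w j d) := by
    intro d
    have h1 := congrFun hdata d
    simp only [data, Prod.mk.injEq, Subtype.mk.injEq] at h1
    exact Prod.ext h1.1 h1.2
  have hrange : LinearMap.range (Ψ j) = LinearMap.range (Ψ i) := by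
    ext p
    constructor
    · rintro ⟨z, rfl⟩
      exact hΨr i _ _ (hΨs j z)
    · rintro ⟨z, rfl⟩
      exact hΨr j _ _ (hΨs i z)
  let g : (Fin r → (GaloisField 2 3)) ≃ₗ[(GaloisField 2 3)] (Fin r → (GaloisField 2 3)) :=
    (LinearEquiv.ofInjective (Ψ j) (hΨi j)).trans
      ((LinearEquiv.ofEq _ _ hrange).trans (LinearEquiv.ofInjective (Ψ i) (hΨi i)).symm)
  have hg : ∀ z, Ψ i (g z) = Ψ j z := by
    intro z
    have h1 : LinearEquiv.ofInjective (Ψ i) (hΨi i) (g z) =
        (LinearEquiv.ofEq _ _ hrange) (LinearEquiv.ofInjective (Ψ j) (hΨi j) z) := by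
      simp [g]
    have h2 := congrArg Subtype.val h1
    simpa using h2
  refine ⟨i, j, hij, g, ?_⟩
  -- scalars
  have hsc : ∀ e : E, ∃ c : (GaloisField 2 3), c ≠ 0 ∧ w i e = c • g (w j e) := by
    intro e
    by_cases he : e ∈ D
    · refine ⟨1, one_ne_zero, ?_⟩
      apply hΨi i
      rw [one_smul, hg]
      exact hd ⟨e, he⟩
    · obtain ⟨x, y, hxy⟩ : ∃ x y, (φ ⟨e, he⟩ : Sym2 V) = s(x, y) := by
        induction h : (φ ⟨e, he⟩ : Sym2 V) with
        | _ x y => exact ⟨x, y, rfl⟩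
      obtain ⟨s, hs, hs2⟩ := hΨe i ⟨e, he⟩ x y hxy
      obtain ⟨s', hs', hs2'⟩ := hΨe j ⟨e, he⟩ x y hxy
      refine ⟨s / s', div_ne_zero hs hs', ?_⟩
      apply hΨi i
      rw [map_smul, hg]
      change Ψ i (w i e) = _ at hs2
      have hs2'' : Ψ j (w j e) = (s' • (Pi.single x 1 + Pi.single y 1), 0) := hs2'
      have hs3 : Ψ i (w i e) = (s • (Pi.single x 1 + Pi.single y 1), 0) := hs2
      rw [hs3, hs2'', Prod.smul_mk, smul_smul, div_mul_cancel₀ _ hs', smul_zero]
  choose c hc1 hc2 using hsc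
  exact ⟨c, hc1, hc2⟩

end Pool.MP_4929df_co.H91
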