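import Pool.Agent.W_4929df_h91.PartOne
import Pool.Agent.W_4929df_h91.Four
import Pool.Agent.W_4929df_h91.Drop

/-! The second part: 4-connected matroids `M` with `M` delete `e₀` graphic. -/

set_option autoImplicit false

namespace Pool.MP_4929df_co.H91

theorem part_two : ∃ k : ℕ, ∀ (E : Type) [Fintype E] (m : ℕ) (v : E → (Fin m → GaloisField 2 3)),
    (∀ X : Set E, ∀ j : ℕ, j < 4 → j ≤ X.ncard → j ≤ Xᶜ.ncard →
      Module.finrank (GaloisField 2 3) (Submodule.span (GaloisField 2 3) (Set.range v)) + j ≤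
        Module.finrank (GaloisField 2 3) (Submodule.span (GaloisField 2 3) (v '' X)) +
        Module.finrank (GaloisField 2 3) (Submodule.span (GaloisField 2 3) (v '' Xᶜ))) →
    ∀ (e₀ : E) (V : Type) [Fintype V] (G : SimpleGraph V)
      (φ : {e // e ∉ ({e₀} : Set E)} ≃ G.edgeSet), CycleOutside v {e₀} G φ →
    ∀ r : ℕ, ∀ w : Fin (k + 1) → E → (Fin r → GaloisField 2 3),
      (∀ i, Submodule.span (GaloisField 2 3) (Set.range (w i)) = ⊤ ∧
        ∀ S : Set E, (LinearIndependent (GaloisField 2 3) (fun s : S => w i (s : E)) ↔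
          LinearIndependent (GaloisField 2 3) (fun s : S => v (s : E)))) →
      ∃ i j : Fin (k + 1), i ≠ j ∧
        ∃ g : (Fin r → GaloisField 2 3) ≃ₗ[GaloisField 2 3] (Fin r → GaloisField 2 3),
        ∃ c : E → GaloisField 2 3, (∀ e, c e ≠ 0) ∧ ∀ e, w i e = c e • g (w j e) := by
  classical
  obtain ⟨k1, hk1⟩ := part_one 1
  refine ⟨max k1 (8 ^ 49), ?_⟩
  intro E _ m v h4 e₀ V _ G φ hφ r w hw
  have h8 : Nat.card (GaloisField 2 3) = 8 := by rw [GaloisField.card 2 3 (by norm_num)]; norm_num
  have hfinK : Finite (GaloisField 2 3) := Nat.finite_of_card_ne_zero (by rw [h8]; norm_num)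
  rcases Nat.lt_or_ge (Fintype.card E) 8 with hE | hE
  · -- few elements: two of the representations are equal
    have hr : r ≤ 7 := by
      have h1 := finrank_range_le_card (R := GaloisField 2 3) (w 0)
      rw [Set.finrank, (hw 0).1, finrank_top, Module.finrank_fintype_fun_eq_card,
        Fintype.card_fin] at h1
      omega
    have hcard : Nat.card (E → (Fin r → GaloisField 2 3)) ≤ 8 ^ 49 := by
      rw [Nat.card_fun, Nat.card_fun, h8, Nat.card_eq_fintype_card, Nat.card_eq_fintype_card,
        Fintype.card_fin, ← pow_mul]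
      refine Nat.pow_le_pow_right (by norm_num) ?_
      calc r * Fintype.card E ≤ 7 * 7 := Nat.mul_le_mul hr (by omega)
        _ = 49 := by norm_num
    have hex : ∃ i j, i ≠ j ∧ w i = w j := by
      by_contra hcon
      push Not at hcon
      have hinj : Function.Injective w := fun i j h => by
        by_contra hij
        exact hcon i j hij h
      have := Nat.card_le_card_of_injective w hinj
      rw [Nat.card_eq_fintype_card, Fintype.card_fin] at this
      have h3 := le_max_right k1 (8 ^ 49)
      omega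
    obtain ⟨i, j, hij, h⟩ := hex
    exact ⟨i, j, hij, LinearEquiv.refl _ _, fun _ => 1, fun _ => one_ne_zero,
      fun e => by rw [h, one_smul]; rfl⟩
  · obtain ⟨V', _, G', φ', hiso, hφ'⟩ := drop_isolated v {e₀} G φ hφ
    have hC3 : C3 G' := c3_of_four m v h4 hE e₀ V' G' hiso φ' hφ'
    have hle : k1 + 1 ≤ max k1 (8 ^ 49) + 1 := Nat.succ_le_succ (le_max_left _ _)
    obtain ⟨i, j, hij, g, c, hc, h⟩ := hk1 E m v {e₀} (by rw [Set.ncard_singleton]) V' G' hC3 φ' hφ' r
      (fun i => w (Fin.castLE hle i)) (fun i => hw _)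
    exact ⟨Fin.castLE hle i, Fin.castLE hle j, fun h' => hij (Fin.castLE_injective hle h'), g, c, hc,
      h⟩

end Pool.MP_4929df_co.H91
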