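import Pool.Agent.W_4929df_h91.Basic

/-! Paths inside connected sets (proofs row 432, step 5). -/

set_option autoImplicit false

namespace Pool.MP_4929df_co.H91

variable {V : Type*}

/-- a path (list without repetition) inside a connected set. The set of vertices `v` of `Q` that are
the last vertex of such a list starting with `a` is closed (if `b` is a new vertex append it; if `b`
is already on the list cut the list at `b`), so it is `Q`. -/
theorem Cn.exists_path {G : SimpleGraph V} {Q : Set V} (hQ : Cn G Q) {a b : V} (ha : a ∈ Q)
    (hb : b ∈ Q) : ∃ l : List V, l ≠ [] ∧ l.Nodup ∧ l.IsChain G.Adj ∧ (∀ v ∈ l, v ∈ Q) ∧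
      l.head? = some a ∧ l.getLast? = some b := by
  classical
  set T : Set V := {v | v ∈ Q ∧ ∃ l : List V, l ≠ [] ∧ l.Nodup ∧ l.IsChain G.Adj ∧
    (∀ v ∈ l, v ∈ Q) ∧ l.head? = some a ∧ l.getLast? = some v} with hT
  have h1 : T = Q := by
    refine hQ.2 T (fun v hv => hv.1) ⟨a, ha, [a], by simp, by simp, by simp, ?_, by simp,
      by simp⟩ ?_
    · intro v hv
      rw [List.mem_singleton.1 hv]
      exact ha
    · rintro v ⟨_, l, hl1, hl2, hl3, hl4, hl5, hl6⟩ w hw hvw
      refine ⟨hw, ?_⟩
      by_cases hwl : w ∈ l
      · obtain ⟨s, t, rfl⟩ := List.append_of_mem hwl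
        have hpre : (s ++ [w]) <+: (s ++ w :: t) := ⟨t, by simp⟩
        refine ⟨s ++ [w], by simp, hl2.sublist hpre.sublist, ?_, ?_, ?_, by simp⟩
        · rw [List.isChain_append] at hl3 ⊢
          refine ⟨hl3.1, by simp, ?_⟩
          intro x hx y hy
          simp only [List.head?_cons, Option.mem_def, Option.some.injEq] at hy
          subst hy
          exact hl3.2.2 x hx w (by simp)
        · intro v hv
          exact hl4 v (hpre.subset hv)
        · rw [List.head?_append] at hl5 ⊢
          simpa using hl5
      · refine ⟨l ++ [w], by simp, ?_, ?_, ?_, ?_, by simp⟩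
        · rw [List.nodup_append]
          refine ⟨hl2, by simp, ?_⟩
          intro x hx y hy
          rw [List.mem_singleton.1 hy]
          intro h
          exact hwl (h ▸ hx)
        · rw [List.isChain_append]
          refine ⟨hl3, by simp, ?_⟩
          intro x hx y hy
          simp only [List.head?_cons, Option.mem_def, Option.some.injEq] at hy
          rw [hl6] at hx
          simp only [Option.mem_def, Option.some.injEq] at hx
          rw [← hx, ← hy]
          exact hvw
        · intro x hx
          rcases List.mem_append.1 hx with h | h
          · exact hl4 x h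
          · rw [List.mem_singleton.1 h]
            exact hw
        · rw [List.head?_append, hl5]
          rfl
  have h2 : b ∈ T := by
    rw [h1]
    exact hb
  exact h2.2

/-- the vertices of a nonempty chain form a connected set -/
theorem cn_of_chain {G : SimpleGraph V} {l : List V} (hne : l ≠ []) (hl : l.IsChain G.Adj) :
    Cn G {v | v ∈ l} := by
  induction l with
  | nil => exact absurd rfl hne
  | cons a l ih =>
    rcases l with _ | ⟨b, t⟩
    · have : {v | v ∈ [a]} = ({a} : Set V) := by
        ext v
        simp
      rw [this]
      exact cn_singleton G a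
    · rw [List.isChain_cons_cons] at hl
      have h1 := ih (by simp) hl.2
      have h2 : {v | v ∈ a :: b :: t} = insert a {v | v ∈ b :: t} := by
        ext v
        simp
      rw [h2]
      exact h1.insert (a := b) (by simp) hl.1.symm

end Pool.MP_4929df_co.H91
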