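import Pool.Agent.W_4929df_h91.Basic

/-! Step 3 (proofs row 432): the ring lemma. -/

set_option autoImplicit false

namespace Pool.MP_4929df_co.H91

variable {V : Type*}

/-- consecutive bags form a connected set -/
private theorem ring_arc_cn {G : SimpleGraph V} {n : ℕ} {B : ℕ → Set V} (h : Rg G n B) (a : ℕ) :
    ∀ k : ℕ, a + k < n → Cn G (⋃ m ∈ Set.Icc a (a + k), B m) := by
  intro k
  induction k with
  | zero =>
    intro hk
    have : (⋃ m ∈ Set.Icc a (a + 0), B m) = B a := by simp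
    rw [this]
    exact h.conn a hk
  | succ k ih =>
    intro hk
    have e : (⋃ m ∈ Set.Icc a (a + (k + 1)), B m) =
        (⋃ m ∈ Set.Icc a (a + k), B m) ∪ B (a + k + 1) := by
      ext v
      simp only [Set.mem_iUnion, Set.mem_Icc, Set.mem_union, exists_prop]
      constructor
      · rintro ⟨m, ⟨hm1, hm2⟩, hv⟩
        by_cases hm : m ≤ a + k
        · exact Or.inl ⟨m, ⟨hm1, hm⟩, hv⟩
        · right
          have : m = a + k + 1 := by omega
          rwa [this] at hv
      · rintro (⟨m, ⟨hm1, hm2⟩, hv⟩ | hv)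
        · exact ⟨m, ⟨hm1, by omega⟩, hv⟩
        · exact ⟨a + k + 1, ⟨by omega, by omega⟩, hv⟩
    rw [e]
    obtain ⟨x, hx, y, hy, hxy⟩ := h.adj (a + k) (by omega)
    refine (ih (by omega)).union_adj (h.conn (a + k + 1) (by omega)) (a := x) (b := y) ?_ hy hxy
    simp only [Set.mem_iUnion, Set.mem_Icc, exists_prop]
    exact ⟨a + k, ⟨by omega, le_refl _⟩, hx⟩

private theorem ring_arc_cn' {G : SimpleGraph V} {n : ℕ} {B : ℕ → Set V} (h : Rg G n B)
    {a b : ℕ} (hab : a ≤ b) (hb : b < n) : Cn G (⋃ m ∈ Set.Icc a b, B m) := by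
  have := ring_arc_cn h a (b - a) (by omega)
  rwa [Nat.add_sub_cancel' hab] at this

/-- arcs of a ring are bonds: for `i < j < n` the set `B (i+1) ∪ ... ∪ B j` is a bond.
(The arc is connected by `Rg.adj`; its complement is `B (j+1) ∪ ... ∪ B (n-1) ∪ B 0 ∪ ... ∪ B i`,
connected by `Rg.adj` and `Rg.close`.) -/
theorem Rg.arc_bond {G : SimpleGraph V} {n : ℕ} {B : ℕ → Set V} (h : Rg G n B) {i j : ℕ}
    (hij : i < j) (hj : j < n) : Bond G (⋃ m ∈ Set.Ioc i j, B m) := by
  constructor
  · have e : (⋃ m ∈ Set.Ioc i j, B m) = ⋃ m ∈ Set.Icc (i + 1) j, B m := by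
      ext v
      simp only [Set.mem_iUnion, Set.mem_Icc, Set.mem_Ioc, exists_prop]
      exact Iff.rfl
    rw [e]
    exact ring_arc_cn' h hij hj
  · have hdis : ∀ v m, m < n → v ∈ B m →
        (v ∈ (⋃ m ∈ Set.Ioc i j, B m) ↔ i < m ∧ m ≤ j) := by
      intro v m hm hv
      simp only [Set.mem_iUnion, Set.mem_Ioc, exists_prop]
      constructor
      · rintro ⟨m', ⟨h1, h2⟩, hv'⟩
        have : m' = m := by
          by_contra hne
          exact (Set.disjoint_left.1 (h.disj m' (by omega) m hm hne)) hv' hv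
        rw [← this]; exact ⟨h1, h2⟩
      · exact fun h1 => ⟨m, h1, hv⟩
    have hlow := ring_arc_cn' h (Nat.zero_le i) (by omega)
    by_cases hjn : j = n - 1
    · have e : (⋃ m ∈ Set.Ioc i j, B m)ᶜ = ⋃ m ∈ Set.Icc 0 i, B m := by
        ext v
        obtain ⟨m, hm, hv⟩ := h.cover v
        rw [Set.mem_compl_iff, hdis v m hm hv]
        simp only [Set.mem_iUnion, Set.mem_Icc, exists_prop]
        constructor
        · intro h1
          exact ⟨m, ⟨Nat.zero_le m, by omega⟩, hv⟩
        · rintro ⟨m', ⟨-, h2⟩, hv'⟩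
          have : m' = m := by
            by_contra hne
            exact (Set.disjoint_left.1 (h.disj m' (by omega) m hm hne)) hv' hv
          omega
      rw [e]
      exact hlow
    · have hup := ring_arc_cn' h (a := j + 1) (b := n - 1) (by omega) (by omega)
      have e : (⋃ m ∈ Set.Ioc i j, B m)ᶜ =
          (⋃ m ∈ Set.Icc (j + 1) (n - 1), B m) ∪ ⋃ m ∈ Set.Icc 0 i, B m := by
        ext v
        obtain ⟨m, hm, hv⟩ := h.cover v
        rw [Set.mem_compl_iff, hdis v m hm hv]
        simp only [Set.mem_iUnion, Set.mem_Icc, Set.mem_union, exists_prop]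
        constructor
        · intro h1
          by_cases hmi : m ≤ i
          · exact Or.inr ⟨m, ⟨Nat.zero_le m, hmi⟩, hv⟩
          · exact Or.inl ⟨m, ⟨by omega, by omega⟩, hv⟩
        · rintro (⟨m', ⟨h1, h2⟩, hv'⟩ | ⟨m', ⟨-, h2⟩, hv'⟩)
          · have : m' = m := by
              by_contra hne
              exact (Set.disjoint_left.1 (h.disj m' (by omega) m hm hne)) hv' hv
            omega
          · have : m' = m := by
              by_contra hne
              exact (Set.disjoint_left.1 (h.disj m' (by omega) m hm hne)) hv' hv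
            omega
      rw [e]
      obtain ⟨a, ha, b, hb, hab⟩ := h.close
      refine hup.union_adj hlow (a := a) (b := b) ?_ ?_ hab
      · simp only [Set.mem_iUnion, Set.mem_Icc, exists_prop]
        exact ⟨n - 1, ⟨by omega, le_refl _⟩, ha⟩
      · simp only [Set.mem_iUnion, Set.mem_Icc, exists_prop]
        exact ⟨0, ⟨le_refl _, Nat.zero_le i⟩, hb⟩

/-- the reversed ring -/
theorem Rg.rev {G : SimpleGraph V} {n : ℕ} {B : ℕ → Set V} (h : Rg G n B) (hn : 2 ≤ n) :
    Rg G n (fun i => B (n - 1 - i)) := by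
  refine ⟨fun i hi => h.conn _ (by omega), fun i hi j hj hij => h.disj _ (by omega) _ (by omega)
    (by omega), fun v => ?_, fun i hi => ?_, ?_⟩
  · obtain ⟨i, hi, hv⟩ := h.cover v
    refine ⟨n - 1 - i, by omega, ?_⟩
    have : n - 1 - (n - 1 - i) = i := by omega
    rw [this]; exact hv
  · obtain ⟨a, ha, b, hb, hab⟩ := h.adj (n - 1 - (i + 1)) (by omega)
    have : n - 1 - (i + 1) + 1 = n - 1 - i := by omega
    rw [this] at hb
    exact ⟨b, hb, a, ha, hab.symm⟩
  · obtain ⟨a, ha, b, hb, hab⟩ := h.close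
    refine ⟨b, ?_, a, ?_, hab.symm⟩
    · have : n - 1 - (n - 1) = 0 := by omega
      rw [this]; exact hb
    · rw [Nat.sub_zero]; exact ha

/-- **Step 3**, one direction: nine bags with a partner further right are impossible.
Sort `J = {j_0 < ... < j_8}`; among the nine values `sm h (⋃ m ≤ j_i, B m)` in a group of order 8 two
are equal, `j_a < j_b`; so the arc `(j_a, j_b]` has sum zero; it is a bond, contains `x ∈ B j_b` and
not `y ∈ B j'`, `j' > j_b`. -/
theorem ring_right [Fintype V] {A : Type*} [AddCommGroup A] (h8 : Nat.card A = 8)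
    {G : SimpleGraph V} {n : ℕ} {B : ℕ → Set V} (hB : Rg G n B) (h : V → A) (J : Finset ℕ)
    (hJ : ∀ j ∈ J, ∃ x ∈ B j, ∃ j', j < j' ∧ j' < n ∧ ∃ y ∈ B j', Sp G h x y) :
    J.card ≤ 8 := by
  classical
  have hfin : Finite A := Nat.finite_of_card_ne_zero (by omega)
  have : Fintype A := Fintype.ofFinite A
  by_contra hlt
  push Not at hlt
  have hcard : (Finset.univ : Finset A).card < J.card := by
    rw [Finset.card_univ, ← Nat.card_eq_fintype_card, h8]
    exact hlt
  obtain ⟨a, ha, b, hb, hne, heq⟩ := Finset.exists_ne_map_eq_of_card_lt_of_maps_to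
    (f := fun j => sm h (⋃ m ∈ Set.Iic j, B m)) hcard (fun _ _ => Finset.mem_univ _)
  -- the contradiction for an ordered pair
  have key : ∀ a b : ℕ, b ∈ J → a < b →
      sm h (⋃ m ∈ Set.Iic a, B m) = sm h (⋃ m ∈ Set.Iic b, B m) → False := by
    intro a b hb hab heq
    obtain ⟨x, hx, j', hbj, hjn, y, hy, hS⟩ := hJ b hb
    have hbond := hB.arc_bond hab (by omega : b < n)
    have hd : Disjoint (⋃ m ∈ Set.Iic a, B m) (⋃ m ∈ Set.Ioc a b, B m) := by
      rw [Set.disjoint_left]
      intro v h1 h2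
      simp only [Set.mem_iUnion, Set.mem_Iic, Set.mem_Ioc, exists_prop] at h1 h2
      obtain ⟨m, hm, hv⟩ := h1
      obtain ⟨m', ⟨hm1, hm2⟩, hv'⟩ := h2
      exact (Set.disjoint_left.1 (hB.disj m (by omega) m' (by omega) (by omega))) hv hv'
    have hu : (⋃ m ∈ Set.Iic b, B m) =
        (⋃ m ∈ Set.Iic a, B m) ∪ ⋃ m ∈ Set.Ioc a b, B m := by
      ext v
      simp only [Set.mem_iUnion, Set.mem_Iic, Set.mem_Ioc, exists_prop, Set.mem_union]
      constructor
      · rintro ⟨m, hm, hv⟩
        by_cases hma : m ≤ a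
        · exact Or.inl ⟨m, hma, hv⟩
        · exact Or.inr ⟨m, ⟨by omega, hm⟩, hv⟩
      · rintro (⟨m, hm, hv⟩ | ⟨m, ⟨h1, h2⟩, hv⟩)
        · exact ⟨m, by omega, hv⟩
        · exact ⟨m, h2, hv⟩
    rw [hu, sm_union h hd] at heq
    have h0 : sm h (⋃ m ∈ Set.Ioc a b, B m) = 0 := by
      have := heq.symm
      rwa [add_eq_left] at this
    refine hS _ hbond (Or.inl ⟨?_, ?_⟩) h0
    · simp only [Set.mem_iUnion, Set.mem_Ioc, exists_prop]
      exact ⟨b, ⟨hab, le_refl _⟩, hx⟩
    · simp only [Set.mem_iUnion, Set.mem_Ioc, exists_prop, not_exists, not_and]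
      rintro m ⟨h1, h2⟩ hv
      exact (Set.disjoint_left.1 (hB.disj m (by omega) j' hjn (by omega))) hv hy
  rcases lt_or_gt_of_ne hne with hlt' | hlt'
  · exact key a b hb hlt' heq
  · exact key b a ha hlt' heq.symm

/-- **Step 3.** At most 16 bags have a partner outside. (Split `J` by the position of the partner,
use `ring_right` for the ring and for the reversed ring.) -/
theorem ring_lemma [Fintype V] {A : Type*} [AddCommGroup A] (h8 : Nat.card A = 8)
    {G : SimpleGraph V} {n : ℕ} (hn : 2 ≤ n) {B : ℕ → Set V} (hB : Rg G n B) (h : V → A)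
    (J : Finset ℕ) (hJ : ∀ j ∈ J, j < n ∧ ∃ x ∈ B j, ∃ y, y ∉ B j ∧ Sp G h x y) :
    J.card ≤ 16 := by
  classical
  let p : ℕ → Prop := fun j => ∃ x ∈ B j, ∃ j', j < j' ∧ j' < n ∧ ∃ y ∈ B j', Sp G h x y
  have h1 : (J.filter p).card ≤ 8 :=
    ring_right h8 hB h (J.filter p) (fun j hj => (Finset.mem_filter.1 hj).2)
  have h2 : (J.filter (fun j => ¬ p j)).card ≤ 8 := by
    have hinj : Set.InjOn (fun j => n - 1 - j) (J.filter (fun j => ¬ p j) : Set ℕ) := by
      intro a ha b hb hab
      have ha' := (hJ a (Finset.mem_filter.1 ha).1).1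
      have hb' := (hJ b (Finset.mem_filter.1 hb).1).1
      simp only at hab
      omega
    rw [← Finset.card_image_of_injOn hinj]
    refine ring_right h8 (hB.rev hn) h _ ?_
    intro k hk
    obtain ⟨j, hj, rfl⟩ := Finset.mem_image.1 hk
    obtain ⟨hjJ, hjp⟩ := Finset.mem_filter.1 hj
    obtain ⟨hjn, x, hx, y, hy, hS⟩ := hJ j hjJ
    obtain ⟨j', hj', hyj'⟩ := hB.cover y
    have hne : j' ≠ j := by
      rintro rfl
      exact hy hyj'
    have hlt : j' < j := by
      by_contra hcon
      exact hjp ⟨x, hx, j', by omega, hj', y, hyj', hS⟩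
    refine ⟨x, ?_, n - 1 - j', by omega, by omega, y, ?_, hS⟩
    · have : n - 1 - (n - 1 - j) = j := by omega
      rw [this]; exact hx
    · have : n - 1 - (n - 1 - j') = j' := by omega
      rw [this]; exact hyj'
  have h3 := Finset.card_filter_add_card_filter_not (s := J) p
  omega

end Pool.MP_4929df_co.H91
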